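import Pool.Agent.H5.CHD.Defs

namespace Pool.Agent.H5.CHD

open Finset
open scoped Classical

theorem ball_card {V : Type*} [Fintype V] (G : SimpleGraph V) (Δ : ℕ)
    (hΔ : ∀ v, ((univ : Finset V).filter (fun w => G.Adj v w)).card ≤ Δ) (R : ℕ) (u : V) :
    ((univ : Finset V).filter (fun v => ∃ t ≤ R, Rch G t u v)).card ≤ (Δ + 1) ^ R := by
  induction R with
  | zero =>
    rw [pow_zero, Finset.card_le_one]
    intro a ha b hb
    rw [mem_filter] at ha hb
    obtain ⟨_, t, ht, h1⟩ := ha
    obtain ⟨_, s, hs, h2⟩ := hb
    obtain rfl : t = 0 := Nat.le_zero.mp ht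
    obtain rfl : s = 0 := Nat.le_zero.mp hs
    exact (show u = a from h1).symm.trans h2
  | succ R ih =>
    have hsub : (univ : Finset V).filter (fun v => ∃ t ≤ R + 1, Rch G t u v) ⊆
        ((univ : Finset V).filter (fun v => ∃ t ≤ R, Rch G t u v)).biUnion
          (fun w => insert w ((univ : Finset V).filter (fun z => G.Adj w z))) := by
      intro v hv
      rw [mem_filter] at hv
      obtain ⟨_, t, ht, h1⟩ := hv
      rw [mem_biUnion]
      rcases t with _ | t
      · refine ⟨u, ?_, ?_⟩
        · rw [mem_filter]
          exact ⟨mem_univ _, 0, Nat.zero_le _, rfl⟩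
        · have h2 : u = v := h1
          rw [← h2]
          exact mem_insert_self _ _
      · obtain ⟨w, hw1, hw2⟩ := h1
        refine ⟨w, ?_, ?_⟩
        · rw [mem_filter]
          exact ⟨mem_univ _, t, by omega, hw1⟩
        · apply mem_insert_of_mem
          rw [mem_filter]
          exact ⟨mem_univ _, hw2⟩
    refine (card_le_card hsub).trans ?_
    refine (card_biUnion_le_card_mul _ _ (Δ + 1) ?_).trans ?_
    · intro w _
      exact (card_insert_le _ _).trans (Nat.add_le_add_right (hΔ w) 1)
    · rw [pow_succ]
      exact Nat.mul_le_mul_right _ ih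

theorem gr_deg {n : ℕ} (h : St n) {Δ : ℕ} (h1 : I1 h Δ) (h3 : 3 ≤ Δ) (v : Vt n) :
    ((univ : Finset (Vt n)).filter (fun w => (gr h).Adj v w)).card ≤ Δ := by
  cases v with
  | x i =>
    have hsub : (univ : Finset (Vt n)).filter (fun w => (gr h).Adj (Vt.x i) w) ⊆
        (univ : Finset (Fin 3)).image (fun j => Vt.b (i, j)) := by
      intro w hw
      rw [mem_filter] at hw
      have hw2 : hal h (Vt.x i) w ∨ hal h w (Vt.x i) := hw.2
      rw [mem_image]
      cases w with
      | x k => simp [hal] at hw2
      | b a =>
        simp [hal] at hw2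
        refine ⟨a.2, mem_univ _, ?_⟩
        rw [← hw2]
      | y k t => simp [hal] at hw2
    refine (card_le_card hsub).trans (card_image_le.trans ?_)
    rw [card_univ, Fintype.card_fin]
    exact h3
  | b a =>
    have hsub : (univ : Finset (Vt n)).filter (fun w => (gr h).Adj (Vt.b a) w) ⊆
        insert (Vt.x a.1) ((univ : Finset (Fin 2)).image (fun j => Vt.y j (h.f a j))) := by
      intro w hw
      rw [mem_filter] at hw
      have hw2 : hal h (Vt.b a) w ∨ hal h w (Vt.b a) := hw.2
      rw [mem_insert, mem_image]
      cases w with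
      | x k =>
        simp [hal] at hw2
        left
        rw [hw2]
      | b c => simp [hal] at hw2
      | y k t =>
        simp [hal] at hw2
        right
        refine ⟨k, mem_univ _, ?_⟩
        rw [hw2.2]
    refine (card_le_card hsub).trans ((card_insert_le _ _).trans ?_)
    have : ((univ : Finset (Fin 2)).image (fun j => Vt.y j (h.f a j))).card ≤ 2 := by
      refine card_image_le.trans ?_
      rw [card_univ, Fintype.card_fin]
    omega
  | y i t =>
    have hsub : (univ : Finset (Vt n)).filter (fun w => (gr h).Adj (Vt.y i t) w) ⊆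
        (fib h i t).image Vt.b := by
      intro w hw
      rw [mem_filter] at hw
      have hw2 : hal h (Vt.y i t) w ∨ hal h w (Vt.y i t) := hw.2
      rw [mem_image]
      cases w with
      | x k => simp [hal] at hw2
      | b a =>
        simp [hal] at hw2
        refine ⟨a, ?_, rfl⟩
        rw [fib, mem_filter]
        exact hw2
      | y k s => simp [hal] at hw2
    exact (card_le_card hsub).trans (card_image_le.trans (h1 i t).1)

end Pool.Agent.H5.CHD
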