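import Pool.Agent.H5.CHD.Defs

namespace Pool.Agent.H5.CHD

open Finset
open scoped Classical

/-- the empty state -/
def h0 (n : ℕ) : St n := ⟨∅, fun a _ => a.1⟩

/-- the arms of `S` whose centre is in `S` -/
noncomputable def basecp_A (n : ℕ) (S : Finset (Vt n)) : Finset (Ar n) :=
  univ.filter fun a : Ar n => Vt.b a ∈ S ∧ Vt.x a.1 ∈ S

/-- the rest of `S` -/
noncomputable def basecp_R (n : ℕ) (S : Finset (Vt n)) : Finset (Vt n) :=
  S \ (basecp_A n S).image Vt.b

/-- the arms whose centre is in `R` -/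
noncomputable def basecp_P (n : ℕ) (R : Finset (Vt n)) : Finset (Ar n) :=
  univ.filter fun a : Ar n => Vt.x a.1 ∈ R

theorem basecp_e (n : ℕ) (S : Finset (Vt n)) : eS (h0 n) S = (basecp_A n S).card := by
  have h : ∀ i : Fin 2, (univ.filter (fun a : Ar n => Vt.b a ∈ S ∧ a ∈ (h0 n).dom ∧
      Vt.y i ((h0 n).f a i) ∈ S)).card = 0 := by
    intro i
    rw [card_eq_zero, filter_eq_empty_iff]
    intro a _ h
    exact absurd h.2.1 (notMem_empty a)
  unfold eS basecp_A
  rw [sum_congr rfl fun i _ => h i]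
  simp

theorem basecp_sub (n : ℕ) (S : Finset (Vt n)) : (basecp_A n S).image Vt.b ⊆ S := by
  intro v hv
  obtain ⟨a, ha, rfl⟩ := mem_image.1 hv
  exact ((mem_filter.1 ha).2).1

theorem basecp_card (n : ℕ) (S : Finset (Vt n)) :
    (basecp_A n S).card + (basecp_R n S).card = S.card := by
  have h := card_sdiff_add_card_eq_card (basecp_sub n S)
  rw [card_image_of_injective _ (fun a b h => by injection h)] at h
  unfold basecp_R
  omega

theorem basecp_AP (n : ℕ) (S : Finset (Vt n)) : basecp_A n S ⊆ basecp_P n (basecp_R n S) := by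
  intro a ha
  refine mem_filter.2 ⟨mem_univ _, mem_sdiff.2 ⟨((mem_filter.1 ha).2).2, fun h => ?_⟩⟩
  obtain ⟨b, _, hb⟩ := mem_image.1 h
  exact absurd hb (by simp)

theorem basecp_Pcard (n : ℕ) (R : Finset (Vt n)) : (basecp_P n R).card ≤ 3 * R.card := by
  have h : (basecp_P n R).card ≤ (R ×ˢ (univ : Finset (Fin 3))).card := by
    refine card_le_card_of_injOn (fun a => (Vt.x a.1, a.2)) (fun a ha => ?_) (fun a _ b _ h => ?_)
    · exact mem_product.2 ⟨(mem_filter.1 ha).2, mem_univ _⟩
    · have h1 := (Prod.mk.inj h).1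
      have h2 := (Prod.mk.inj h).2
      injection h1 with h1
      exact Prod.ext h1 h2
  rw [card_product, card_univ, Fintype.card_fin] at h
  omega

theorem basecp_Vcard (n : ℕ) : Fintype.card (Vt n) = 6 * n := by
  rw [Fintype.card_congr (Vt.equiv n)]
  simp only [Fintype.card_sum, Fintype.card_prod, Fintype.card_fin]
  ring

theorem base_cp (n : ℕ) : CP (h0 n) (Real.exp 48) := by
  intro k hk hkn
  have hk0 : (0 : ℝ) < k := by exact_mod_cast hk
  have hn0 : (0 : ℝ) < n := by exact_mod_cast (by omega : 0 < n)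
  set q : ℝ := (n : ℝ) / k with hq
  have hq0 : 0 < q := div_pos hn0 hk0
  set g : (Σ _ : Finset (Vt n), Finset (Ar n)) → ℝ := fun z => q ^ k * (1 / q) ^ z.1.card with hg
  set φ : Finset (Vt n) → (Σ _ : Finset (Vt n), Finset (Ar n)) :=
    fun S => ⟨basecp_R n S, basecp_A n S⟩ with hφ
  have hinj : Function.Injective φ := by
    intro S S' h
    have h1 : basecp_R n S = basecp_R n S' := congrArg Sigma.fst h
    have h2 : basecp_A n S = basecp_A n S' := by
      have := (Sigma.mk.inj h).2
      exact eq_of_heq this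
    have h3 : ∀ S, S = basecp_R n S ∪ (basecp_A n S).image Vt.b := fun S =>
      (sdiff_union_of_subset (basecp_sub n S)).symm
    rw [h3 S, h3 S', h1, h2]
  have e1 : ∑ S ∈ powersetCard k (univ : Finset (Vt n)), q ^ eS (h0 n) S =
      ∑ S ∈ powersetCard k (univ : Finset (Vt n)), g (φ S) := by
    refine sum_congr rfl fun S hS => ?_
    have hc : S.card = k := (mem_powersetCard.1 hS).2
    have h1 := basecp_card n S
    rw [basecp_e]
    change _ = q ^ k * (1 / q) ^ (basecp_R n S).card
    rw [← hc, ← h1, pow_add, mul_assoc, ← mul_pow, mul_one_div_cancel hq0.ne', one_pow, mul_one]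
  have e2 : ∑ S ∈ powersetCard k (univ : Finset (Vt n)), g (φ S) ≤
      ∑ z ∈ (univ : Finset (Finset (Vt n))).sigma (fun R => (basecp_P n R).powerset), g z := by
    rw [← sum_image (f := g) (s := powersetCard k (univ : Finset (Vt n))) (g := φ)
      hinj.injOn]
    refine sum_le_sum_of_subset_of_nonneg (fun z hz => ?_) (fun z _ _ => ?_)
    · obtain ⟨S, -, rfl⟩ := mem_image.1 hz
      exact mem_sigma.2 ⟨mem_univ _, mem_powerset.2 (basecp_AP n S)⟩
    · simp only [hg]
      positivity
  have e3 : ∑ z ∈ (univ : Finset (Finset (Vt n))).sigma (fun R => (basecp_P n R).powerset), g z ≤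
      ∑ R : Finset (Vt n), q ^ k * (8 / q) ^ R.card := by
    rw [sum_sigma]
    refine sum_le_sum fun R _ => ?_
    simp only [hg]
    rw [sum_const, card_powerset, nsmul_eq_mul]
    have h8 : ((2 ^ (basecp_P n R).card : ℕ) : ℝ) ≤ 8 ^ R.card := by
      push_cast
      calc (2 : ℝ) ^ (basecp_P n R).card ≤ 2 ^ (3 * R.card) :=
            pow_le_pow_right₀ (by norm_num) (basecp_Pcard n R)
        _ = 8 ^ R.card := by rw [pow_mul]; norm_num
    calc ((2 ^ (basecp_P n R).card : ℕ) : ℝ) * (q ^ k * (1 / q) ^ R.card)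
        ≤ 8 ^ R.card * (q ^ k * (1 / q) ^ R.card) :=
          mul_le_mul_of_nonneg_right h8 (by positivity)
      _ = q ^ k * (8 / q) ^ R.card := by
          rw [div_eq_mul_one_div 8 q, mul_pow]; ring
  have e4 : ∑ R : Finset (Vt n), q ^ k * (8 / q) ^ R.card = q ^ k * (8 / q + 1) ^ (6 * n) := by
    rw [← mul_sum, ← basecp_Vcard n, ← Fintype.sum_pow_mul_eq_add_pow]
    congr 1
    exact sum_congr rfl fun R _ => by rw [one_pow, mul_one]
  have e5 : (8 / q + 1) ^ (6 * n) ≤ Real.exp 48 ^ k := by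
    calc (8 / q + 1) ^ (6 * n) ≤ (Real.exp (8 / q)) ^ (6 * n) :=
          pow_le_pow_left₀ (by positivity) (Real.add_one_le_exp _) _
      _ = Real.exp 48 ^ k := by
          rw [← Real.exp_nat_mul, ← Real.exp_nat_mul]
          congr 1
          rw [hq]
          push_cast
          field_simp
          ring
  calc ∑ S ∈ powersetCard k (univ : Finset (Vt n)), q ^ eS (h0 n) S
      ≤ q ^ k * (8 / q + 1) ^ (6 * n) := by rw [e1]; exact (e2.trans e3).trans e4.le
    _ ≤ q ^ k * Real.exp 48 ^ k := mul_le_mul_of_nonneg_left e5 (by positivity)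
    _ = (Real.exp 48 * q) ^ k := by rw [mul_pow, mul_comm]

end Pool.Agent.H5.CHD
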