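import Pool.Agent.H5.CHD.BaseCP

namespace Pool.Agent.H5.CHD

open Finset
open scoped Classical

theorem base_i1 (n Δ : ℕ) : I1 (h0 n) Δ := by
  intro i t
  have h : fib (h0 n) i t = ∅ := by
    unfold fib h0
    simp
  rw [h]
  exact ⟨by simp, fun hne => absurd hne (by simp)⟩

theorem baseother_beta_nonneg {n : ℕ} (v : ℤ → Vt n) (I U : Finset ℤ) : 0 ≤ beta v I U := by
  unfold beta
  refine Finset.sum_nonneg fun i _ => ?_
  unfold dg
  split_ifs <;> norm_num

theorem baseother_eS_le (n : ℕ) (S : Finset (Vt n)) : eS (h0 n) S ≤ S.card := by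
  unfold eS
  have h1 : ∑ i : Fin 2, (univ.filter (fun a : Ar n => Vt.b a ∈ S ∧ a ∈ (h0 n).dom ∧
      Vt.y i ((h0 n).f a i) ∈ S)).card = 0 := by
    refine Finset.sum_eq_zero fun i _ => ?_
    rw [Finset.card_eq_zero, Finset.filter_eq_empty_iff]
    intro a _ ha
    have := ha.2.1
    simp [h0] at this
  rw [h1, add_zero]
  refine Finset.card_le_card_of_injOn (fun a => Vt.b a) ?_ ?_
  · intro a ha
    rw [Finset.mem_coe, Finset.mem_filter] at ha
    exact ha.2.1
  · intro a _ b _ hab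
    exact Vt.b.inj hab

theorem base_i3 (n : ℕ) {θ : ℝ} (hθ : 0 ≤ θ) : I3 (h0 n) θ := by
  intro v I U hLF
  have h1 : (eS (h0 n) (I.image v) : ℝ) ≤ I.card := by
    exact_mod_cast le_trans (baseother_eS_le n _) Finset.card_image_le
  have h2 : (U.card : ℝ) ≤ I.card := by
    exact_mod_cast Finset.card_le_card hLF.sub
  have h3 : (0 : ℝ) ≤ (beta v I U : ℝ) := by
    exact_mod_cast baseother_beta_nonneg v I U
  have h4 : 0 ≤ θ * (I.card : ℝ) := by positivity
  linarith

end Pool.Agent.H5.CHD
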