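import Pool.Agent.H5.CHD.CPFix

namespace Pool.Agent.H5.CHD

open Finset
open scoped Classical

variable {n : ℕ}

private theorem cpext_geom (N : ℕ) :
    ∑ k ∈ Finset.Icc 1 N, ((1 : ℝ) / 4) ^ k ≤ 1 - (1 / 4) ^ N := by
  induction N with
  | zero => simp
  | succ N ih =>
    rw [Finset.sum_Icc_succ_top (by omega)]
    have h1 : (0 : ℝ) < (1 / 4) ^ N := by positivity
    rw [pow_succ]
    linarith

/-- some choice of the permutations keeps (I2) -/
theorem cp_ext (h : St n) {K : ℝ} (hK : 1 ≤ K) (hcp : CP h K) {m D : ℕ} (A : Finset (Ar n))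
    (hd : Disjoint h.dom A) (e : A ≃ Fin m) (τ : Fin 2 → Fin m → Fin n)
    (hτ2 : ∀ i t, ((univ : Finset (Fin m)).filter (fun s => τ i s = t)).card ≤ 2 * D)
    {κ : ℝ} (hκ : 0 < κ) (hm : κ * n ≤ m) :
    ∃ σ : Fin 2 → Equiv.Perm (Fin m),
      CP (extSt h A e τ σ) (4 * (1 + 2 * D / κ) ^ 2 * K) := by
  set C : ℝ := (1 + 2 * D / κ) ^ 2 with hC
  have hDκ : (0 : ℝ) ≤ 2 * D / κ := by positivity
  have hCpos : 0 < C := by positivity
  have hK0 : 0 < K := by linarith
  set K' : ℝ := 4 * C * K with hK'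
  have hK'pos : 0 < K' := by positivity
  -- the weighted sums
  set W : (Fin 2 → Equiv.Perm (Fin m)) → ℕ → ℝ := fun σ k =>
    (∑ S ∈ powersetCard k (univ : Finset (Vt n)), ((n : ℝ) / k) ^ eS (extSt h A e τ σ) S) /
      (K' * ((n : ℝ) / k)) ^ k with hW
  have hWnn : ∀ σ k, 0 ≤ W σ k := by
    intro σ k
    rw [hW]
    positivity
  have hsum : ∀ k ∈ Finset.Icc 1 n,
      ∑ σ : Fin 2 → Equiv.Perm (Fin m), W σ k ≤ (m.factorial : ℝ) ^ 2 * (1 / 4) ^ k := by
    intro k hk
    rw [Finset.mem_Icc] at hk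
    obtain ⟨hk1, hkn⟩ := hk
    have hkpos : (0 : ℝ) < k := by exact_mod_cast hk1
    have hnpos : (0 : ℝ) < n := by
      have : 0 < n := by omega
      exact_mod_cast this
    have hq : (0 : ℝ) < (n : ℝ) / k := by positivity
    have hden : 0 < (K' * ((n : ℝ) / k)) ^ k := by positivity
    rw [hW]
    simp only
    rw [← Finset.sum_div, div_le_iff₀ hden, Finset.sum_comm]
    calc ∑ S ∈ powersetCard k (univ : Finset (Vt n)),
          ∑ σ : Fin 2 → Equiv.Perm (Fin m), ((n : ℝ) / k) ^ eS (extSt h A e τ σ) S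
        ≤ ∑ S ∈ powersetCard k (univ : Finset (Vt n)),
          ((m.factorial : ℝ) ^ 2) * (((n : ℝ) / k) ^ eS h S * C ^ k) := by
          apply Finset.sum_le_sum
          intro S hS
          exact cp_fix h A hd e τ hτ2 hκ hm k hk1 hkn S (Finset.mem_powersetCard.mp hS).2
      _ = ((m.factorial : ℝ) ^ 2) * C ^ k *
          ∑ S ∈ powersetCard k (univ : Finset (Vt n)), ((n : ℝ) / k) ^ eS h S := by
          rw [Finset.mul_sum]
          apply Finset.sum_congr rfl
          intro S _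
          ring
      _ ≤ ((m.factorial : ℝ) ^ 2) * C ^ k * (K * ((n : ℝ) / k)) ^ k :=
          mul_le_mul_of_nonneg_left (hcp k hk1 hkn) (by positivity)
      _ = (m.factorial : ℝ) ^ 2 * (1 / 4) ^ k * (K' * ((n : ℝ) / k)) ^ k := by
          rw [hK', mul_assoc, mul_assoc, ← mul_pow, ← mul_pow]
          congr 2
          ring
  have htotal : ∑ σ : Fin 2 → Equiv.Perm (Fin m), ∑ k ∈ Finset.Icc 1 n, W σ k ≤
      ∑ _σ : Fin 2 → Equiv.Perm (Fin m), (1 : ℝ) := by
    rw [Finset.sum_comm]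
    refine (Finset.sum_le_sum hsum).trans ?_
    rw [← Finset.mul_sum, Finset.sum_const, nsmul_eq_mul, mul_one, Finset.card_univ,
      Fintype.card_fun, Fintype.card_perm, Fintype.card_fin, Fintype.card_fin]
    have h1 := cpext_geom n
    have h2 : (0 : ℝ) < (1 / 4) ^ n := by positivity
    push_cast
    have h3 : (0 : ℝ) ≤ (m.factorial : ℝ) ^ 2 := by positivity
    nlinarith
  obtain ⟨σ, -, hσ⟩ := Finset.exists_le_of_sum_le (Finset.univ_nonempty) htotal
  refine ⟨σ, ?_⟩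
  intro k hk1 hkn
  have hkpos : (0 : ℝ) < k := by exact_mod_cast hk1
  have hnpos : (0 : ℝ) < n := by
    have : 0 < n := by omega
    exact_mod_cast this
  have hden : 0 < (K' * ((n : ℝ) / k)) ^ k := by positivity
  have h1 : W σ k ≤ 1 :=
    (Finset.single_le_sum (fun k _ => hWnn σ k) (Finset.mem_Icc.mpr ⟨hk1, hkn⟩)).trans hσ
  rw [hW] at h1
  simp only at h1
  rwa [div_le_one hden] at h1

end Pool.Agent.H5.CHD
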