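import Mathlib

namespace Pool.Agent.H5.CHD

open Finset
open scoped Classical

/-- the permutations mapping `B` into `T` -/
private noncomputable def permavg_N {m : ℕ} (T B : Finset (Fin m)) :
    Finset (Equiv.Perm (Fin m)) :=
  Finset.univ.filter fun σ => ∀ a ∈ B, σ a ∈ T

private theorem permavg_swap {m : ℕ} (T B : Finset (Fin m)) {b c : Fin m} (hb : b ∉ B)
    (hc : c ∉ B) :
    ((permavg_N T B).filter fun σ => σ b ∈ T).card =
      ((permavg_N T B).filter fun σ => σ c ∈ T).card := by
  refine Finset.card_bij' (fun σ _ => σ * Equiv.swap b c) (fun σ _ => σ * Equiv.swap b c)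
    ?_ ?_ ?_ ?_
  · intro σ hσ
    simp only [permavg_N, Finset.mem_filter, Finset.mem_univ, true_and] at hσ ⊢
    refine ⟨fun a ha => ?_, ?_⟩
    · rw [Equiv.Perm.mul_apply, Equiv.swap_apply_of_ne_of_ne]
      · exact hσ.1 a ha
      · rintro rfl; exact hb ha
      · rintro rfl; exact hc ha
    · rw [Equiv.Perm.mul_apply, Equiv.swap_apply_right]
      exact hσ.2
  · intro σ hσ
    simp only [permavg_N, Finset.mem_filter, Finset.mem_univ, true_and] at hσ ⊢
    refine ⟨fun a ha => ?_, ?_⟩
    · rw [Equiv.Perm.mul_apply, Equiv.swap_apply_of_ne_of_ne]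
      · exact hσ.1 a ha
      · rintro rfl; exact hb ha
      · rintro rfl; exact hc ha
    · rw [Equiv.Perm.mul_apply, Equiv.swap_apply_left]
      exact hσ.2
  · intro σ _
    rw [mul_assoc, Equiv.swap_mul_self, mul_one]
  · intro σ _
    rw [mul_assoc, Equiv.swap_mul_self, mul_one]

private theorem permavg_count {m : ℕ} (T B : Finset (Fin m)) {σ : Equiv.Perm (Fin m)}
    (hσ : σ ∈ permavg_N T B) :
    (Bᶜ.filter fun c => σ c ∈ T).card + B.card = T.card := by
  have h1 : (Finset.univ.filter fun c => σ c ∈ T).card = T.card := by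
    refine Finset.card_bij' (fun c _ => σ c) (fun t _ => σ.symm t) ?_ ?_ ?_ ?_
    · intro c hc
      exact (Finset.mem_filter.mp hc).2
    · intro t ht
      rw [Finset.mem_filter]
      exact ⟨Finset.mem_univ _, by rwa [Equiv.apply_symm_apply]⟩
    · intro c _
      exact σ.symm_apply_apply c
    · intro t _
      exact σ.apply_symm_apply t
  have h2 : (Bᶜ.filter fun c => σ c ∈ T) ∪ B = Finset.univ.filter fun c => σ c ∈ T := by
    ext c
    simp only [permavg_N, Finset.mem_filter, Finset.mem_univ, true_and] at hσ
    simp only [Finset.mem_union, Finset.mem_filter, Finset.mem_compl, Finset.mem_univ, true_and]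
    constructor
    · rintro (h | h)
      · exact h.2
      · exact hσ c h
    · intro h
      by_cases hc : c ∈ B
      · exact Or.inr hc
      · exact Or.inl ⟨hc, h⟩
  have h3 : Disjoint (Bᶜ.filter fun c => σ c ∈ T) B := by
    rw [Finset.disjoint_left]
    intro c hc hcB
    rw [Finset.mem_filter, Finset.mem_compl] at hc
    exact hc.1 hcB
  rw [← Finset.card_union_of_disjoint h3, h2, h1]

private theorem permavg_step {m : ℕ} (T B : Finset (Fin m)) {b : Fin m} (hb : b ∉ B) :
    (permavg_N T (insert b B)).card * (m - B.card) =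
      (permavg_N T B).card * (T.card - B.card) := by
  have h1 : permavg_N T (insert b B) = (permavg_N T B).filter fun σ => σ b ∈ T := by
    ext σ
    simp only [permavg_N, Finset.mem_filter, Finset.mem_univ, true_and, Finset.forall_mem_insert]
    exact and_comm
  have h2 : ∑ c ∈ Bᶜ, ((permavg_N T B).filter fun σ => σ c ∈ T).card =
      ∑ σ ∈ permavg_N T B, (Bᶜ.filter fun c => σ c ∈ T).card := by
    simp_rw [Finset.card_filter]
    exact Finset.sum_comm
  have h3 : ∑ c ∈ Bᶜ, ((permavg_N T B).filter fun σ => σ c ∈ T).card =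
      (m - B.card) * (permavg_N T (insert b B)).card := by
    rw [Finset.sum_congr rfl (g := fun _ => (permavg_N T (insert b B)).card)]
    · rw [Finset.sum_const, smul_eq_mul, Finset.card_compl, Fintype.card_fin]
    · intro c hc
      rw [h1]
      exact permavg_swap T B (Finset.mem_compl.mp hc) hb
  have h4 : ∑ σ ∈ permavg_N T B, (Bᶜ.filter fun c => σ c ∈ T).card =
      (permavg_N T B).card * (T.card - B.card) := by
    rw [Finset.sum_congr rfl (g := fun _ => T.card - B.card)]
    · rw [Finset.sum_const, smul_eq_mul]
    · intro σ hσ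
      have := permavg_count T B hσ
      omega
  rw [mul_comm, ← h3, h2, h4]

private theorem permavg_bound {m : ℕ} (T B : Finset (Fin m)) :
    (permavg_N T B).card * m ^ B.card ≤ m.factorial * T.card ^ B.card := by
  induction B using Finset.induction_on with
  | empty =>
    simp only [Finset.card_empty, pow_zero, mul_one]
    refine (Finset.card_le_univ _).trans ?_
    rw [Fintype.card_perm, Fintype.card_fin]
  | insert b B hb ih =>
    have hlt : B.card < m := by
      have h1 : (insert b B).card ≤ Fintype.card (Fin m) := Finset.card_le_univ _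
      rw [Finset.card_insert_of_notMem hb, Fintype.card_fin] at h1
      omega
    have hT : T.card ≤ m := by
      have h1 : T.card ≤ Fintype.card (Fin m) := Finset.card_le_univ _
      rwa [Fintype.card_fin] at h1
    have hstep := permavg_step T B hb
    rw [Finset.card_insert_of_notMem hb]
    have hpos : 0 < m - B.card := by omega
    refine Nat.le_of_mul_le_mul_right ?_ hpos
    have hkey : (T.card - B.card) * m ≤ T.card * (m - B.card) := by
      rcases le_total T.card B.card with h | h
      · rw [Nat.sub_eq_zero_of_le h, zero_mul]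
        exact Nat.zero_le _
      · obtain ⟨x, hx⟩ := Nat.exists_eq_add_of_le h
        obtain ⟨y, hy⟩ := Nat.exists_eq_add_of_le hlt.le
        have h1 : x ≤ y := by omega
        have h2 : T.card - B.card = x := by omega
        have h3 : m - B.card = y := by omega
        rw [h2, h3, hx]
        have h4 : x * m = x * (B.card + y) := congrArg (fun t => x * t) hy
        rw [h4]
        nlinarith
    calc (permavg_N T (insert b B)).card * m ^ (B.card + 1) * (m - B.card)
        = ((permavg_N T (insert b B)).card * (m - B.card)) * m ^ (B.card + 1) := by ring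
      _ = ((permavg_N T B).card * m ^ B.card) * ((T.card - B.card) * m) := by
          rw [hstep]; ring
      _ ≤ (m.factorial * T.card ^ B.card) * (T.card * (m - B.card)) :=
          Nat.mul_le_mul ih hkey
      _ = m.factorial * T.card ^ (B.card + 1) * (m - B.card) := by ring

/-- a random permutation maps `A` into `T` essentially independently -/
theorem perm_avg {m : ℕ} (T A : Finset (Fin m)) {z : ℝ} (hz : 0 ≤ z) :
    ∑ σ : Equiv.Perm (Fin m), ∏ a ∈ A, (1 + if σ a ∈ T then z else 0) ≤
      (m.factorial : ℝ) * (1 + z * (T.card : ℝ) / m) ^ A.card := by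
  rcases Nat.eq_zero_or_pos m with hm | hm
  · subst hm
    have hA : A = ∅ := Finset.eq_empty_of_isEmpty A
    subst hA
    simp
  have hm' : (0 : ℝ) < m := by exact_mod_cast hm
  have h1 : ∀ σ : Equiv.Perm (Fin m), ∏ a ∈ A, (1 + if σ a ∈ T then z else 0) =
      ∑ B ∈ A.powerset, if σ ∈ permavg_N T B then z ^ B.card else 0 := by
    intro σ
    rw [Finset.prod_one_add]
    apply Finset.sum_congr rfl
    intro B _
    by_cases h : σ ∈ permavg_N T B
    · rw [if_pos h]
      simp only [permavg_N, Finset.mem_filter, Finset.mem_univ, true_and] at h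
      rw [← Finset.prod_const]
      apply Finset.prod_congr rfl
      intro a ha
      rw [if_pos (h a ha)]
    · rw [if_neg h]
      simp only [permavg_N, Finset.mem_filter, Finset.mem_univ, true_and] at h
      push Not at h
      obtain ⟨a, ha, hT⟩ := h
      exact Finset.prod_eq_zero ha (if_neg hT)
  simp_rw [h1]
  rw [Finset.sum_comm]
  have h2 : ∀ B ∈ A.powerset, ∑ σ : Equiv.Perm (Fin m),
      (if σ ∈ permavg_N T B then z ^ B.card else 0) ≤
        (m.factorial : ℝ) * (z * (T.card : ℝ) / m) ^ B.card := by
    intro B _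
    rw [← Finset.sum_filter, Finset.sum_const, nsmul_eq_mul]
    have h3 : (Finset.univ.filter fun σ => σ ∈ permavg_N T B) = permavg_N T B := by
      ext σ; simp
    rw [h3]
    have h4 : ((permavg_N T B).card : ℝ) * (m : ℝ) ^ B.card ≤
        (m.factorial : ℝ) * (T.card : ℝ) ^ B.card := by
      exact_mod_cast permavg_bound T B
    rw [div_pow, mul_pow, mul_div_assoc', le_div_iff₀ (by positivity)]
    have h5 : 0 ≤ z ^ B.card := by positivity
    nlinarith [mul_le_mul_of_nonneg_left h4 h5]
  refine (Finset.sum_le_sum h2).trans (le_of_eq ?_)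
  rw [← Finset.mul_sum]
  congr 1
  have h6 : (1 + z * (T.card : ℝ) / m) ^ A.card = ∏ _a ∈ A, (1 + z * (T.card : ℝ) / m) := by
    rw [Finset.prod_const]
  rw [h6, Finset.prod_one_add]
  apply Finset.sum_congr rfl
  intro B _
  rw [Finset.prod_const]

end Pool.Agent.H5.CHD
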