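import Pool.Agent.H5.CHD.ExtDef
import Pool.Agent.H5.CHD.PermAvg

namespace Pool.Agent.H5.CHD

open Finset
open scoped Classical

variable {n : ℕ}

theorem cpfix_prod {m : ℕ} (A1 T : Finset (Fin m)) (q : ℝ) (σ : Equiv.Perm (Fin m)) :
    q ^ (A1.filter (fun s => σ s ∈ T)).card =
      ∏ s ∈ A1, (1 + if σ s ∈ T then (q - 1) else 0) := by
  rw [← Finset.prod_const, Finset.prod_filter]
  apply Finset.prod_congr rfl
  intro s _
  split_ifs <;> ring

/-- the average, over the two random permutations, of `q ^ (number of edges inside S)` -/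
theorem cp_fix (h : St n) {m D : ℕ} (A : Finset (Ar n)) (hd : Disjoint h.dom A) (e : A ≃ Fin m)
    (τ : Fin 2 → Fin m → Fin n)
    (hτ2 : ∀ i t, ((univ : Finset (Fin m)).filter (fun s => τ i s = t)).card ≤ 2 * D)
    {κ : ℝ} (hκ : 0 < κ) (hm : κ * n ≤ m) (k : ℕ) (hk : 1 ≤ k) (hkn : k ≤ n)
    (S : Finset (Vt n)) (hS : S.card = k) :
    ∑ σ : Fin 2 → Equiv.Perm (Fin m), ((n : ℝ) / k) ^ eS (extSt h A e τ σ) S ≤
      ((m.factorial : ℝ) ^ 2) * (((n : ℝ) / k) ^ eS h S * ((1 + 2 * D / κ) ^ 2) ^ k) := by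
  have hn1 : 1 ≤ n := le_trans hk hkn
  have hnR : (0 : ℝ) < n := by exact_mod_cast hn1
  have hkR : (0 : ℝ) < k := by exact_mod_cast hk
  have hmR : (0 : ℝ) < m := lt_of_lt_of_le (by positivity) hm
  set q : ℝ := (n : ℝ) / k with hq
  have hq1 : 1 ≤ q := by
    rw [hq, le_div_iff₀ hkR, one_mul]
    exact_mod_cast hkn
  have hz : 0 ≤ q - 1 := by linarith
  obtain ⟨A1, hA1def⟩ : ∃ A1 : Finset (Fin m),
      A1 = univ.filter (fun s => Vt.b ((e.symm s : A) : Ar n) ∈ S) := ⟨_, rfl⟩
  obtain ⟨T, hTdef⟩ : ∃ T : Fin 2 → Finset (Fin m),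
      T = fun i => univ.filter (fun s => Vt.y i (τ i s) ∈ S) := ⟨_, rfl⟩
  have hA1 : A1.card ≤ k := by
    rw [← hS]
    apply Finset.card_le_card_of_injOn (fun s => Vt.b ((e.symm s : A) : Ar n))
    · intro s hs
      rw [hA1def] at hs
      exact (Finset.mem_filter.1 hs).2
    · intro s _ s' _ hh
      have h1 : ((e.symm s : A) : Ar n) = ((e.symm s' : A) : Ar n) := Vt.b.inj hh
      exact e.symm.injective (Subtype.ext h1)
  have hT : ∀ i, (T i).card ≤ k * (2 * D) := by
    intro i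
    have h1 : T i ⊆ (univ.filter (fun t : Fin n => Vt.y i t ∈ S)).biUnion
        (fun t => univ.filter (fun s => τ i s = t)) := by
      intro s hs
      rw [hTdef] at hs
      rw [Finset.mem_biUnion]
      exact ⟨τ i s, Finset.mem_filter.2 ⟨Finset.mem_univ _, (Finset.mem_filter.1 hs).2⟩,
        Finset.mem_filter.2 ⟨Finset.mem_univ _, rfl⟩⟩
    calc (T i).card ≤ _ := Finset.card_le_card h1
      _ ≤ (univ.filter (fun t : Fin n => Vt.y i t ∈ S)).card * (2 * D) :=
        Finset.card_biUnion_le_card_mul _ _ _ (fun t _ => hτ2 i t)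
      _ ≤ k * (2 * D) := by
        apply Nat.mul_le_mul_right
        rw [← hS]
        apply Finset.card_le_card_of_injOn (fun t => Vt.y i t)
        · intro t ht
          exact (Finset.mem_filter.1 ht).2
        · intro t _ t' _ hh
          exact (Vt.y.inj hh).2
  have hC : ∀ i, ((m.factorial : ℝ) * (1 + (q - 1) * ((T i).card : ℝ) / m) ^ A1.card) ≤
      (m.factorial : ℝ) * (1 + 2 * D / κ) ^ k := by
    intro i
    apply mul_le_mul_of_nonneg_left _ (Nat.cast_nonneg _)
    have h1 : (q - 1) * ((T i).card : ℝ) / m ≤ 2 * D / κ := by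
      rw [div_le_div_iff₀ hmR hκ]
      have h2 : ((T i).card : ℝ) ≤ k * (2 * D) := by exact_mod_cast hT i
      have h3 : (q - 1) * ((T i).card : ℝ) ≤ q * (k * (2 * D)) := by
        apply mul_le_mul (by linarith) h2 (Nat.cast_nonneg _) (by linarith)
      have h4 : q * (k * (2 * D)) = 2 * D * n := by
        rw [hq]; field_simp
      have h5 : 0 ≤ 2 * (D : ℝ) := by positivity
      calc (q - 1) * ((T i).card : ℝ) * κ ≤ (2 * D * n) * κ := by
            apply mul_le_mul_of_nonneg_right (h3.trans h4.le) hκ.le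
        _ = 2 * D * (κ * n) := by ring
        _ ≤ 2 * D * m := mul_le_mul_of_nonneg_left hm h5
    have h6 : 0 ≤ (q - 1) * ((T i).card : ℝ) / m := by positivity
    have h7 : 1 ≤ 1 + 2 * D / κ := by
      have : 0 ≤ 2 * (D : ℝ) / κ := by positivity
      linarith
    calc (1 + (q - 1) * ((T i).card : ℝ) / m) ^ A1.card ≤ (1 + 2 * D / κ) ^ A1.card :=
          pow_le_pow_left₀ (by linarith) (by linarith) _
      _ ≤ (1 + 2 * D / κ) ^ k := pow_le_pow_right₀ h7 hA1
  have hE : ∀ σ : Fin 2 → Equiv.Perm (Fin m), q ^ eS (extSt h A e τ σ) S =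
      q ^ eS h S * ∏ i : Fin 2, ∏ s ∈ A1, (1 + if σ i s ∈ T i then (q - 1) else 0) := by
    intro σ
    rw [eS_ext h A hd e τ σ S, pow_add, ← Finset.prod_pow_eq_pow_sum]
    congr 1
    apply Finset.prod_congr rfl
    intro i _
    rw [← cpfix_prod]
    congr 2
    ext s
    simp only [hA1def, hTdef, Finset.mem_filter, Finset.mem_univ, true_and]
  have hP : ∑ σ : Fin 2 → Equiv.Perm (Fin m),
      ∏ i : Fin 2, ∏ s ∈ A1, (1 + if σ i s ∈ T i then (q - 1) else 0) =
      ∏ i : Fin 2, ∑ σ : Equiv.Perm (Fin m),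
        ∏ s ∈ A1, (1 + if σ s ∈ T i then (q - 1) else 0) := by
    rw [Finset.prod_univ_sum, Fintype.piFinset_univ]
  calc ∑ σ : Fin 2 → Equiv.Perm (Fin m), q ^ eS (extSt h A e τ σ) S
      = q ^ eS h S * ∏ i : Fin 2, ∑ σ : Equiv.Perm (Fin m),
        ∏ s ∈ A1, (1 + if σ s ∈ T i then (q - 1) else 0) := by
        rw [← hP, Finset.mul_sum]
        exact Finset.sum_congr rfl (fun σ _ => hE σ)
    _ ≤ q ^ eS h S * ∏ i : Fin 2, ((m.factorial : ℝ) * (1 + 2 * D / κ) ^ k) := by
        apply mul_le_mul_of_nonneg_left _ (by positivity)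
        apply Finset.prod_le_prod
        · intro i _
          apply Finset.sum_nonneg
          intro σ _
          apply Finset.prod_nonneg
          intro s _
          split_ifs
          · linarith
          · norm_num
        · intro i _
          exact (perm_avg (T i) A1 hz).trans (hC i)
    _ = ((m.factorial : ℝ) ^ 2) * (q ^ eS h S * ((1 + 2 * D / κ) ^ 2) ^ k) := by
        rw [Finset.prod_const, Finset.card_univ, Fintype.card_fin, mul_pow, ← pow_mul, ← pow_mul,
          mul_comm k 2]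
        ring

end Pool.Agent.H5.CHD
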