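import Mathlib

namespace Pool.Agent.H5.CHD

open Finset
open scoped Classical

/-- greedy colouring -/
theorem colour_greedy {α : Type*} (M : Finset α) (c : α → α → Prop)
    (hsymm : ∀ x y, c x y → c y x) (hirr : ∀ x, ¬ c x x) {d : ℕ}
    (hdeg : ∀ x ∈ M, (M.filter (fun y => c x y)).card ≤ d) :
    ∃ f : α → Fin (d + 1), ∀ x ∈ M, ∀ y ∈ M, c x y → f x ≠ f y := by
  induction M using Finset.induction_on with
  | empty => exact ⟨fun _ => 0, by simp⟩
  | insert a s ha ih =>
    obtain ⟨f, hf⟩ := ih (by
      intro x hx
      refine (Finset.card_le_card ?_).trans (hdeg x (Finset.mem_insert_of_mem hx))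
      exact Finset.filter_subset_filter _ (Finset.subset_insert _ _))
    have h1 : ((s.filter (fun y => c a y)).image f).card < (univ : Finset (Fin (d + 1))).card := by
      rw [Finset.card_univ, Fintype.card_fin]
      have h2 : ((s.filter (fun y => c a y)).image f).card ≤
          ((insert a s).filter (fun y => c a y)).card :=
        Finset.card_image_le.trans (Finset.card_le_card
          (Finset.filter_subset_filter _ (Finset.subset_insert _ _)))
      have h3 := hdeg a (Finset.mem_insert_self a s)
      omega
    obtain ⟨col, _, hcol⟩ := Finset.exists_mem_notMem_of_card_lt_card h1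
    have hcol' : ∀ y ∈ s, c a y → f y ≠ col := by
      intro y hy hay hEq
      exact hcol (Finset.mem_image.mpr ⟨y, Finset.mem_filter.mpr ⟨hy, hay⟩, hEq⟩)
    refine ⟨Function.update f a col, ?_⟩
    intro x hx y hy hxy
    rw [Finset.mem_insert] at hx hy
    rcases hx with rfl | hx
    · rcases hy with rfl | hy
      · exact absurd hxy (hirr _)
      · have hne : y ≠ x := fun h => ha (h ▸ hy)
        rw [Function.update_self, Function.update_of_ne hne]
        exact (hcol' y hy hxy).symm
    · have hxa : x ≠ a := fun h => ha (h ▸ hx)
      rcases hy with rfl | hy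
      · rw [Function.update_self, Function.update_of_ne hxa]
        exact hcol' x hx (hsymm _ _ hxy)
      · have hya : y ≠ a := fun h => ha (h ▸ hy)
        rw [Function.update_of_ne hxa, Function.update_of_ne hya]
        exact hf x hx y hy hxy

/-- the sum of squares of the class sizes drops when a vertex is moved from a large class to a
small one -/
theorem colour_move {α : Type*} (M : Finset α) {k : ℕ} (f : α → Fin k) (l i : Fin k) (a : α)
    (ha : a ∈ M) (hal : f a = l) (hli : (M.filter (fun x => f x = i)).card + 2 ≤
      (M.filter (fun x => f x = l)).card) :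
    ∑ j : Fin k, (M.filter (fun x => Function.update f a i x = j)).card ^ 2 <
      ∑ j : Fin k, (M.filter (fun x => f x = j)).card ^ 2 := by
  have hne : i ≠ l := by
    rintro rfl
    omega
  have e1 : M.filter (fun x => Function.update f a i x = l) =
      (M.filter (fun x => f x = l)).erase a := by
    ext x
    rw [Finset.mem_filter, Finset.mem_erase, Finset.mem_filter]
    by_cases hx : x = a
    · subst hx
      rw [Function.update_self]
      constructor
      · rintro ⟨_, h⟩; exact absurd h hne
      · rintro ⟨h, _⟩; exact absurd rfl h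
    · rw [Function.update_of_ne hx]
      constructor
      · rintro ⟨h1, h2⟩; exact ⟨hx, h1, h2⟩
      · rintro ⟨_, h1, h2⟩; exact ⟨h1, h2⟩
  have e2 : M.filter (fun x => Function.update f a i x = i) =
      insert a (M.filter (fun x => f x = i)) := by
    ext x
    rw [Finset.mem_filter, Finset.mem_insert, Finset.mem_filter]
    by_cases hx : x = a
    · subst hx
      rw [Function.update_self]
      exact ⟨fun _ => Or.inl rfl, fun _ => ⟨ha, rfl⟩⟩
    · rw [Function.update_of_ne hx]
      constructor
      · rintro ⟨h1, h2⟩; exact Or.inr ⟨h1, h2⟩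
      · rintro (h | ⟨h1, h2⟩)
        · exact absurd h hx
        · exact ⟨h1, h2⟩
  have e3 : ∀ j, j ≠ l → j ≠ i → M.filter (fun x => Function.update f a i x = j) =
      M.filter (fun x => f x = j) := by
    intro j hjl hji
    ext x
    rw [Finset.mem_filter, Finset.mem_filter]
    by_cases hx : x = a
    · subst hx
      rw [Function.update_self, hal]
      constructor
      · rintro ⟨_, h⟩; exact absurd h.symm hji
      · rintro ⟨_, h⟩; exact absurd h.symm hjl
    · rw [Function.update_of_ne hx]
  have split : ∀ h : Fin k → ℕ, ∑ j : Fin k, h j =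
      h l + (h i + ∑ j ∈ (univ.erase l).erase i, h j) := by
    intro h
    rw [Finset.add_sum_erase (univ.erase l) h (Finset.mem_erase.mpr ⟨hne, Finset.mem_univ i⟩),
      Finset.add_sum_erase univ h (Finset.mem_univ l)]
  rw [split, split (fun j => (M.filter (fun x => f x = j)).card ^ 2)]
  have e4 : ∑ j ∈ (univ.erase l).erase i,
      (M.filter (fun x => Function.update f a i x = j)).card ^ 2 =
      ∑ j ∈ (univ.erase l).erase i, (M.filter (fun x => f x = j)).card ^ 2 := by
    refine Finset.sum_congr rfl ?_
    intro j hj
    rw [Finset.mem_erase, Finset.mem_erase] at hj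
    rw [e3 j hj.2.1 hj.1]
  rw [e4, e1, e2]
  have hmem : a ∈ M.filter (fun x => f x = l) := Finset.mem_filter.mpr ⟨ha, hal⟩
  have hnmem : a ∉ M.filter (fun x => f x = i) := by
    rw [Finset.mem_filter, hal]
    rintro ⟨_, h⟩; exact hne h.symm
  rw [Finset.card_erase_of_mem hmem, Finset.card_insert_of_notMem hnmem]
  generalize (M.filter (fun x => f x = i)).card = p at hli ⊢
  obtain ⟨q, hq⟩ : ∃ q, (M.filter (fun x => f x = l)).card = q + 1 :=
    ⟨(M.filter (fun x => f x = l)).card - 1, by omega⟩
  rw [hq] at hli ⊢
  rw [Nat.add_sub_cancel]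
  have h5 : q ^ 2 + (p + 1) ^ 2 < (q + 1) ^ 2 + p ^ 2 := by nlinarith
  omega

/-- a proper colouring with `d + 1` colours and large classes -/
theorem colour {α : Type*} [Fintype α] (M : Finset α) (c : α → α → Prop)
    (hsymm : ∀ x y, c x y → c y x) (hirr : ∀ x, ¬ c x x) {d : ℕ} (hd : 1 ≤ d)
    (hdeg : ∀ x ∈ M, (M.filter (fun y => c x y)).card ≤ d) (hM : d + 1 < M.card) :
    ∃ f : α → Fin (d + 1), (∀ x ∈ M, ∀ y ∈ M, c x y → f x ≠ f y) ∧
      ∀ i : Fin (d + 1), M.card ≤ (d + 1) * (d + 1) * (M.filter (fun x => f x = i)).card := by
  obtain ⟨f0, hf0⟩ := colour_greedy M c hsymm hirr hdeg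
  have hne : ((univ : Finset (α → Fin (d + 1))).filter
      (fun f => ∀ x ∈ M, ∀ y ∈ M, c x y → f x ≠ f y)).Nonempty :=
    ⟨f0, Finset.mem_filter.mpr ⟨Finset.mem_univ _, hf0⟩⟩
  obtain ⟨f, hf, hmin⟩ := Finset.exists_min_image _
    (fun f : α → Fin (d + 1) => ∑ j : Fin (d + 1), (M.filter (fun x => f x = j)).card ^ 2) hne
  rw [Finset.mem_filter] at hf
  refine ⟨f, hf.2, ?_⟩
  intro i
  obtain ⟨l, _, hl⟩ := Finset.exists_max_image (univ : Finset (Fin (d + 1)))
    (fun j => (M.filter (fun x => f x = j)).card) ⟨0, Finset.mem_univ _⟩
  have hMl : M.card ≤ (d + 1) * (M.filter (fun x => f x = l)).card := by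
    have h1 : M.card = ∑ j : Fin (d + 1), (M.filter (fun x => f x = j)).card :=
      Finset.card_eq_sum_card_fiberwise (fun x _ => Finset.mem_coe.mpr (Finset.mem_univ (f x)))
    rw [h1]
    calc ∑ j : Fin (d + 1), (M.filter (fun x => f x = j)).card
        ≤ ∑ _j : Fin (d + 1), (M.filter (fun x => f x = l)).card :=
          Finset.sum_le_sum (fun j hj => hl j hj)
      _ = (d + 1) * (M.filter (fun x => f x = l)).card := by
          rw [Finset.sum_const, Finset.card_univ, Fintype.card_fin, smul_eq_mul]
  have hkey : (M.filter (fun x => f x = l)).card ≤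
      (d + 1) * (M.filter (fun x => f x = i)).card := by
    rcases Nat.lt_or_ge (M.filter (fun x => f x = l)).card
      ((M.filter (fun x => f x = i)).card + 2) with hlt | hge
    · have hpos : 1 ≤ (M.filter (fun x => f x = i)).card := by
        by_contra hcon
        have h0 : (M.filter (fun x => f x = i)).card = 0 := by omega
        have h1 : (M.filter (fun x => f x = l)).card ≤ 1 := by omega
        have h2 : (d + 1) * (M.filter (fun x => f x = l)).card ≤ (d + 1) * 1 :=
          Nat.mul_le_mul_left _ h1
        omega
      have h3 : 2 * (M.filter (fun x => f x = i)).card ≤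
          (d + 1) * (M.filter (fun x => f x = i)).card :=
        Nat.mul_le_mul_right _ (by omega)
      omega
    · have hnb : ∀ x ∈ M.filter (fun x => f x = l), ∃ y ∈ M.filter (fun x => f x = i), c x y := by
        intro x hx
        rw [Finset.mem_filter] at hx
        by_contra hcon
        push Not at hcon
        have hprop : ∀ z ∈ M, ∀ y ∈ M, c z y →
            Function.update f x i z ≠ Function.update f x i y := by
          intro z hz y hy hzy
          by_cases hzx : z = x
          · subst hzx
            have hyz : y ≠ z := by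
              rintro rfl
              exact hirr _ hzy
            rw [Function.update_self, Function.update_of_ne hyz]
            intro hEq
            exact hcon y (Finset.mem_filter.mpr ⟨hy, hEq.symm⟩) hzy
          · by_cases hyx : y = x
            · subst hyx
              rw [Function.update_self, Function.update_of_ne hzx]
              intro hEq
              exact hcon z (Finset.mem_filter.mpr ⟨hz, hEq⟩) (hsymm _ _ hzy)
            · rw [Function.update_of_ne hzx, Function.update_of_ne hyx]
              exact hf.2 z hz y hy hzy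
        have h1 := hmin (Function.update f x i)
          (Finset.mem_filter.mpr ⟨Finset.mem_univ _, hprop⟩)
        have h2 := colour_move M f l i x hx.1 hx.2 hge
        exact absurd h1 (not_le.mpr h2)
      have hsub : M.filter (fun x => f x = l) ⊆
          (M.filter (fun x => f x = i)).biUnion (fun y => M.filter (fun z => c y z)) := by
        intro x hx
        obtain ⟨y, hy, hxy⟩ := hnb x hx
        rw [Finset.mem_biUnion]
        exact ⟨y, hy, Finset.mem_filter.mpr ⟨(Finset.mem_filter.mp hx).1, hsymm _ _ hxy⟩⟩
      have h1 : (M.filter (fun x => f x = l)).card ≤ (M.filter (fun x => f x = i)).card * d :=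
        (Finset.card_le_card hsub).trans (Finset.card_biUnion_le_card_mul _ _ _
          (fun y hy => hdeg y (Finset.mem_filter.mp hy).1))
      calc (M.filter (fun x => f x = l)).card ≤ (M.filter (fun x => f x = i)).card * d := h1
        _ = d * (M.filter (fun x => f x = i)).card := mul_comm _ _
        _ ≤ (d + 1) * (M.filter (fun x => f x = i)).card := Nat.mul_le_mul_right _ (by omega)
  calc M.card ≤ (d + 1) * (M.filter (fun x => f x = l)).card := hMl
    _ ≤ (d + 1) * ((d + 1) * (M.filter (fun x => f x = i)).card) := Nat.mul_le_mul_left _ hkey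
    _ = (d + 1) * (d + 1) * (M.filter (fun x => f x = i)).card := by ring

end Pool.Agent.H5.CHD
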