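import Pool.Agent.H5.CHD.Defs

namespace Pool.Agent.H5.CHD

open Finset
open scoped Classical

variable {n : ℕ}

private theorem edgecount_adj_iff (h : St n) (u v : Vt n) :
    (gr h).Adj u v ↔
      (∃ a : Ar n, s(u, v) = s(Vt.b a, Vt.x a.1)) ∨
      (∃ i : Fin 2, ∃ a ∈ h.dom, s(u, v) = s(Vt.b a, Vt.y i (h.f a i))) := by
  constructor
  · intro hh
    rcases hh with hh | hh
    · cases u with
      | x i => simp [hal] at hh
      | y i t => simp [hal] at hh
      | b a =>
        cases v with
        | x i => left; exact ⟨a, by simp only [hal] at hh; rw [hh]⟩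
        | b c => simp [hal] at hh
        | y i t =>
          right
          simp only [hal] at hh
          exact ⟨i, a, hh.1, by rw [hh.2]⟩
    · cases v with
      | x i => simp [hal] at hh
      | y i t => simp [hal] at hh
      | b a =>
        cases u with
        | x i => left; exact ⟨a, by simp only [hal] at hh; rw [hh]; exact Sym2.eq_swap⟩
        | b c => simp [hal] at hh
        | y i t =>
          right
          simp only [hal] at hh
          exact ⟨i, a, hh.1, by rw [hh.2]; exact Sym2.eq_swap⟩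
  · intro hh
    rcases hh with ⟨a, ha⟩ | ⟨i, a, hd, ha⟩
    · rw [Sym2.eq_iff] at ha
      rcases ha with ⟨h1, h2⟩ | ⟨h1, h2⟩
      · subst h1 h2; exact Or.inl rfl
      · subst h1 h2; exact Or.inr rfl
    · rw [Sym2.eq_iff] at ha
      rcases ha with ⟨h1, h2⟩ | ⟨h1, h2⟩
      · subst h1 h2; exact Or.inl ⟨hd, rfl⟩
      · subst h1 h2; exact Or.inr ⟨hd, rfl⟩

theorem edges_eS (h : St n) (S : Finset (Vt n)) :
    ({e | e ∈ (gr h).edgeSet ∧ ∀ z ∈ e, z ∈ S} : Set (Sym2 (Vt n))).ncard = eS h S := by
  set A0 : Finset (Ar n) := univ.filter (fun a : Ar n => Vt.b a ∈ S ∧ Vt.x a.1 ∈ S) with hA0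
  set A1 : Fin 2 → Finset (Ar n) := fun i =>
    univ.filter (fun a : Ar n => Vt.b a ∈ S ∧ a ∈ h.dom ∧ Vt.y i (h.f a i) ∈ S) with hA1
  set f0 : Ar n → Sym2 (Vt n) := fun a => s(Vt.b a, Vt.x a.1) with hf0
  set f1 : Fin 2 → Ar n → Sym2 (Vt n) := fun i a => s(Vt.b a, Vt.y i (h.f a i)) with hf1
  have hset : ({e | e ∈ (gr h).edgeSet ∧ ∀ z ∈ e, z ∈ S} : Set (Sym2 (Vt n))) =
      ((A0.image f0 ∪ ((A1 0).image (f1 0) ∪ (A1 1).image (f1 1)) : Finset (Sym2 (Vt n))) :
        Set (Sym2 (Vt n))) := by
    ext e
    induction e using Sym2.ind with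
    | _ u v =>
      simp only [Set.mem_ofPred_eq, SimpleGraph.mem_edgeSet, Finset.coe_union, Set.mem_union,
        Finset.mem_coe, Finset.mem_image]
      constructor
      · rintro ⟨hadj, hS⟩
        rcases (edgecount_adj_iff h u v).1 hadj with ⟨a, ha⟩ | ⟨i, a, hd, ha⟩
        · left
          rw [ha] at hS
          refine ⟨a, ?_, ha.symm⟩
          rw [hA0]
          simp only [Finset.mem_filter, Finset.mem_univ, true_and]
          exact ⟨hS _ (Sym2.mem_mk_left _ _), hS _ (Sym2.mem_mk_right _ _)⟩
        · right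
          rw [ha] at hS
          have hm : a ∈ A1 i := by
            simp only [hA1, Finset.mem_filter, Finset.mem_univ, true_and]
            exact ⟨hS _ (Sym2.mem_mk_left _ _), hd, hS _ (Sym2.mem_mk_right _ _)⟩
          fin_cases i
          · left; exact ⟨a, hm, ha.symm⟩
          · right; exact ⟨a, hm, ha.symm⟩
      · intro hh
        have key : (∃ a ∈ A0, f0 a = s(u, v)) ∨ (∃ i : Fin 2, ∃ a ∈ A1 i, f1 i a = s(u, v)) := by
          rcases hh with hh | hh | hh
          · exact Or.inl hh
          · exact Or.inr ⟨0, hh⟩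
          · exact Or.inr ⟨1, hh⟩
        rcases key with ⟨a, ha, he⟩ | ⟨i, a, ha, he⟩
        · refine ⟨(edgecount_adj_iff h u v).2 (Or.inl ⟨a, he.symm⟩), ?_⟩
          rw [← he]
          rw [hA0] at ha
          simp only [Finset.mem_filter, Finset.mem_univ, true_and] at ha
          intro z hz
          simp only [hf0, Sym2.mem_iff] at hz
          rcases hz with rfl | rfl
          · exact ha.1
          · exact ha.2
        · simp only [hA1, Finset.mem_filter, Finset.mem_univ, true_and] at ha
          refine ⟨(edgecount_adj_iff h u v).2 (Or.inr ⟨i, a, ha.2.1, he.symm⟩), ?_⟩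
          rw [← he]
          intro z hz
          simp only [hf1, Sym2.mem_iff] at hz
          rcases hz with rfl | rfl
          · exact ha.1
          · exact ha.2.2
  have inj0 : Function.Injective f0 := by
    intro a c hac
    simp only [hf0, Sym2.eq_iff, Vt.b.injEq, reduceCtorEq, false_and, or_false] at hac
    exact hac.1
  have inj1 : ∀ i, Function.Injective (f1 i) := by
    intro i a c hac
    simp only [hf1, Sym2.eq_iff, Vt.b.injEq, reduceCtorEq, false_and, or_false] at hac
    exact hac.1
  have d1 : Disjoint ((A1 0).image (f1 0)) ((A1 1).image (f1 1)) := by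
    rw [Finset.disjoint_left]
    intro e he he'
    simp only [Finset.mem_image] at he he'
    obtain ⟨a, _, rfl⟩ := he
    obtain ⟨c, _, hc⟩ := he'
    simp [hf1] at hc
  have d0 : Disjoint (A0.image f0) ((A1 0).image (f1 0) ∪ (A1 1).image (f1 1)) := by
    rw [Finset.disjoint_left]
    intro e he he'
    simp only [Finset.mem_union, Finset.mem_image] at he he'
    obtain ⟨a, _, rfl⟩ := he
    rcases he' with ⟨c, _, hc⟩ | ⟨c, _, hc⟩ <;> simp [hf1, hf0] at hc
  rw [hset, Set.ncard_coe_finset, Finset.card_union_of_disjoint d0,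
    Finset.card_union_of_disjoint d1, Finset.card_image_of_injective _ inj0,
    Finset.card_image_of_injective _ (inj1 0), Finset.card_image_of_injective _ (inj1 1)]
  unfold eS
  rw [Fin.sum_univ_two]

/-- chords plus edges of a cycle -/
theorem chords_le (h : St n) {u : Vt n} (w : (gr h).Walk u u) (hw : w.IsCycle) :
    ({e | e ∈ (gr h).edgeSet ∧ e ∉ w.edges ∧ ∀ z ∈ e, z ∈ w.support} :
      Set (Sym2 (Vt n))).ncard + w.length ≤ eS h w.support.toFinset := by
  rw [← edges_eS h w.support.toFinset]
  have hlen : (({e | e ∈ w.edges} : Set (Sym2 (Vt n)))).ncard = w.length := by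
    have : ({e | e ∈ w.edges} : Set (Sym2 (Vt n))) = (w.edges.toFinset : Set (Sym2 (Vt n))) := by
      ext e; simp
    rw [this, Set.ncard_coe_finset, List.toFinset_card_of_nodup hw.isTrail.edges_nodup,
      SimpleGraph.Walk.length_edges]
  rw [← hlen, ← Set.ncard_union_eq ?_ (Set.toFinite _) (Set.toFinite _)]
  · apply Set.ncard_le_ncard _ (Set.toFinite _)
    rintro e (he | he)
    · refine ⟨he.1, fun z hz => ?_⟩
      rw [List.mem_toFinset]
      exact he.2.2 z hz
    · simp only [Set.mem_ofPred_eq] at he
      refine ⟨w.edges_subset_edgeSet he, fun z hz => ?_⟩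
      rw [List.mem_toFinset]
      induction e using Sym2.ind with
      | _ a b =>
        rcases Sym2.mem_iff.1 hz with rfl | rfl
        · exact w.fst_mem_support_of_mem_edges he
        · exact w.snd_mem_support_of_mem_edges he
  · rw [Set.disjoint_left]
    intro e he he'
    exact he.2.1 he'

end Pool.Agent.H5.CHD
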