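import Pool.Agent.H5.CHD.Defs

namespace Pool.Agent.H5.CHD

open Finset
open scoped Classical

private theorem sparse_empty {n : ℕ} (h : St n) : eS h ∅ = 0 := by
  simp [eS]

/-- small sets are sparse -/
theorem sparse {n : ℕ} (h : St n) {K : ℝ} (hK : 1 ≤ K) (hcp : CP h K) (r : ℕ)
    (S : Finset (Vt n)) (hS : (S.card : ℝ) * K ^ r < n) :
    r * eS h S ≤ (r + 1) * S.card := by
  rcases S.eq_empty_or_nonempty with hS0 | hS0
  · rw [hS0, sparse_empty]
    simp
  have hk1 : 1 ≤ S.card := Finset.card_pos.2 hS0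
  have hkR : (1 : ℝ) ≤ (S.card : ℝ) := by exact_mod_cast hk1
  have hk0 : (0 : ℝ) < (S.card : ℝ) := by linarith
  have hKr : (1 : ℝ) ≤ K ^ r := one_le_pow₀ hK
  have hkn : (S.card : ℝ) ≤ n := by nlinarith
  have hkn' : S.card ≤ n := by exact_mod_cast hkn
  have hn0 : (0 : ℝ) < n := lt_of_lt_of_le hk0 hkn
  have hqK : K ^ r < (n : ℝ) / S.card := by
    rw [lt_div_iff₀ hk0, mul_comm]
    exact hS
  have hq1 : 1 < (n : ℝ) / S.card := lt_of_le_of_lt hKr hqK
  have hq0 : 0 < (n : ℝ) / S.card := by linarith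
  have hK0 : 0 < K := by linarith
  -- one term of the sum
  have hterm : ((n : ℝ) / S.card) ^ eS h S ≤ (K * ((n : ℝ) / S.card)) ^ S.card := by
    refine le_trans ?_ (hcp S.card hk1 hkn')
    exact Finset.single_le_sum
      (f := fun T : Finset (Vt n) => ((n : ℝ) / S.card) ^ eS h T)
      (fun T _ => pow_nonneg hq0.le _)
      (Finset.mem_powersetCard.2 ⟨Finset.subset_univ _, rfl⟩)
  by_contra hcon
  push Not at hcon
  have hek : S.card < eS h S := by
    by_contra hle
    push Not at hle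
    have h1 : r * eS h S ≤ r * S.card := Nat.mul_le_mul_left r hle
    have h2 : (r + 1) * S.card = r * S.card + S.card := by ring
    omega
  obtain ⟨d, hd⟩ := Nat.exists_eq_add_of_lt hek
  have hd' : eS h S = S.card + (d + 1) := by omega
  have hrd : S.card + 1 ≤ r * (d + 1) := by
    have h1 : r * eS h S = r * S.card + r * (d + 1) := by rw [hd']; ring
    have h2 : (r + 1) * S.card = r * S.card + S.card := by ring
    omega
  -- q^(d+1) ≤ K^k
  have hqd : ((n : ℝ) / S.card) ^ (d + 1) ≤ K ^ S.card := by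
    rw [hd', pow_add, mul_pow, mul_comm (K ^ S.card)] at hterm
    exact le_of_mul_le_mul_left hterm (pow_pos hq0 _)
  have h1 : ((n : ℝ) / S.card) ^ (S.card + 1) ≤ ((n : ℝ) / S.card) ^ (r * (d + 1)) :=
    pow_le_pow_right₀ hq1.le hrd
  have h2 : ((n : ℝ) / S.card) ^ (r * (d + 1)) ≤ (K ^ r) ^ S.card := by
    have h3 : ((n : ℝ) / S.card) ^ (r * (d + 1)) = (((n : ℝ) / S.card) ^ (d + 1)) ^ r := by
      rw [← pow_mul, mul_comm]
    have h4 : (K ^ r) ^ S.card = (K ^ S.card) ^ r := by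
      rw [← pow_mul, ← pow_mul, mul_comm]
    rw [h3, h4]
    exact pow_le_pow_left₀ (pow_nonneg hq0.le _) hqd r
  have h5 : (K ^ r) ^ S.card ≤ ((n : ℝ) / S.card) ^ S.card :=
    pow_le_pow_left₀ (by linarith) hqK.le _
  have h6 : ((n : ℝ) / S.card) ^ S.card < ((n : ℝ) / S.card) ^ (S.card + 1) :=
    pow_lt_pow_right₀ hq1 (Nat.lt_succ_self _)
  exact absurd (lt_of_lt_of_le h6 (h1.trans (h2.trans h5))) (lt_irrefl _)

end Pool.Agent.H5.CHD
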