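import Pool.Agent.H5.CHD.CycleLF
import Pool.Agent.H5.CHD.EdgeCount
import Pool.Agent.H5.CHD.Sparse

namespace Pool.Agent.H5.CHD

open Finset
open scoped Classical

/-- the cycles of a state with the invariants have few chords -/
theorem cycle_bound {c : ℝ} (hc : 0 < c) {r : ℕ} (hr : 1 ≤ r) (hrc : 1 / (r : ℝ) < c) {K θ : ℝ}
    {Δ : ℕ} (hK : 1 ≤ K) (hθ : θ < c) :
    ∃ n1 : ℕ, ∀ n ≥ n1, ∀ h : St n, Inv h K Δ θ → ∀ (u : Vt n) (w : (gr h).Walk u u),
      w.IsCycle →
      (({e | e ∈ (gr h).edgeSet ∧ e ∉ w.edges ∧ ∀ z ∈ e, z ∈ w.support} :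
        Set (Sym2 (Vt n))).ncard : ℝ) < c * w.length := by
  have hcθ : 0 < c - θ := by linarith
  have hKr : 0 < K ^ r := by positivity
  refine ⟨⌈9 * K ^ r / (c - θ)⌉₊ + 1, fun n hn h hI u w hw => ?_⟩
  have hN3 : 3 ≤ w.length := hw.three_le_length
  have hN3' : (3 : ℝ) ≤ w.length := by exact_mod_cast hN3
  have hch := chords_le h w hw
  set ch : ℕ := ({e | e ∈ (gr h).edgeSet ∧ e ∉ w.edges ∧ ∀ z ∈ e, z ∈ w.support} :
        Set (Sym2 (Vt n))).ncard with hchdef
  have hch' : (ch : ℝ) + w.length ≤ (eS h w.support.toFinset : ℝ) := by exact_mod_cast hch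
  have hr0 : (0 : ℝ) < r := by exact_mod_cast hr
  by_cases hcase : (w.length : ℝ) * K ^ r < n
  · have hsp := sparse h hK hI.cp r w.support.toFinset (by rw [support_card w hw]; exact hcase)
    rw [support_card w hw] at hsp
    have hsp' : (r : ℝ) * (eS h w.support.toFinset : ℝ) ≤ (r + 1) * w.length := by
      exact_mod_cast hsp
    have h1 : (r : ℝ) * ch ≤ w.length := by nlinarith
    have h2 : (ch : ℝ) ≤ 1 / (r : ℝ) * w.length := by
      rw [one_div, ← div_eq_inv_mul, le_div_iff₀ hr0]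
      linarith
    have h3 : 1 / (r : ℝ) * w.length < c * w.length :=
      mul_lt_mul_of_pos_right hrc (by linarith)
    linarith
  · rw [not_lt] at hcase
    obtain ⟨v, I, U, hF, him, hIc, hUc, hβ⟩ := cycle_lf h w hw
    have h3 := hI.i3 v I U hF
    rw [him] at h3
    have hUc' : (U.card : ℝ) + 1 = w.length := by exact_mod_cast hUc
    have hβ' : (beta v I U : ℝ) ≤ 2 := by exact_mod_cast hβ
    rw [hIc] at h3
    have h4 : (ch : ℝ) ≤ θ * w.length + 9 := by linarith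
    have hn1 : 9 * K ^ r / (c - θ) < n := by
      have h5 : 9 * K ^ r / (c - θ) ≤ ⌈9 * K ^ r / (c - θ)⌉₊ := Nat.le_ceil _
      have h6 : ((⌈9 * K ^ r / (c - θ)⌉₊ + 1 : ℕ) : ℝ) ≤ n := by exact_mod_cast hn
      push_cast at h6
      linarith
    rw [div_lt_iff₀ hcθ] at hn1
    have h7 : 9 * K ^ r < (w.length * (c - θ)) * K ^ r := by
      calc 9 * K ^ r < n * (c - θ) := hn1
        _ ≤ (w.length * K ^ r) * (c - θ) := mul_le_mul_of_nonneg_right hcase hcθ.le
        _ = _ := by ring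
    have h8 : 9 < w.length * (c - θ) := lt_of_mul_lt_mul_right h7 hKr.le
    nlinarith

end Pool.Agent.H5.CHD
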