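import Pool.Agent.H5.CHD.Defs

namespace Pool.Agent.H5.CHD

open Finset
open scoped Classical

variable {n : ℕ}

private theorem cyclelf_pos {V : Type*} {G : SimpleGraph V} {u : V} (w : G.Walk u u)
    (hw : w.IsCycle) : 0 < w.length := by
  have h := hw.ne_nil
  cases w with
  | nil => exact absurd rfl h
  | cons _ _ => simp

private theorem cyclelf_support {V : Type*} {G : SimpleGraph V} {u : V} (w : G.Walk u u)
    (hw : w.IsCycle) : w.support.toFinset = (range w.length).image w.getVert := by
  have hpos := cyclelf_pos w hw
  ext x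
  rw [List.mem_toFinset, SimpleGraph.Walk.mem_support_iff_exists_getVert, mem_image]
  constructor
  · rintro ⟨m, hm, hml⟩
    rcases Nat.lt_or_ge m w.length with h | h
    · exact ⟨m, mem_range.mpr h, hm⟩
    · refine ⟨0, mem_range.mpr hpos, ?_⟩
      have : m = w.length := le_antisymm hml h
      rw [this, SimpleGraph.Walk.getVert_length] at hm
      rw [SimpleGraph.Walk.getVert_zero, hm]
  · rintro ⟨m, hm, hx⟩
    exact ⟨m, hx, (mem_range.mp hm).le⟩

private theorem cyclelf_inj {V : Type*} {G : SimpleGraph V} {u : V} (w : G.Walk u u)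
    (hw : w.IsCycle) {i j : ℕ} (hi : i < w.length) (hj : j < w.length)
    (h : w.getVert i = w.getVert j) : i = j := by
  have h1 := hw.getVert_injOn'
  apply h1 _ _ h
  · show i ≤ w.length - 1
    omega
  · show j ≤ w.length - 1
    omega

theorem support_card {V : Type*} {G : SimpleGraph V} {u : V} (w : G.Walk u u) (hw : w.IsCycle) :
    w.support.toFinset.card = w.length := by
  rw [cyclelf_support w hw, Finset.card_image_of_injOn, card_range]
  intro i hi j hj h
  simp only [coe_range, Set.mem_Iio] at hi hj
  exact cyclelf_inj w hw hi hj h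

/-- a cycle minus one edge is a linear forest with one component -/
theorem cycle_lf (h : St n) {u : Vt n} (w : (gr h).Walk u u) (hw : w.IsCycle) :
    ∃ (v : ℤ → Vt n) (I U : Finset ℤ), LF h v I U ∧ I.image v = w.support.toFinset ∧
      I.card = w.length ∧ U.card + 1 = w.length ∧ beta v I U ≤ 2 := by
  have hpos := cyclelf_pos w hw
  set N := w.length with hN
  refine ⟨fun i => w.getVert i.toNat, Finset.Ico (0 : ℤ) N, Finset.Ico (0 : ℤ) (N - 1), ?_, ?_,
    ?_, ?_, ?_⟩
  · refine ⟨?_, ?_, ?_, ?_⟩
    · intro i hi j hj heq
      simp only [coe_Ico, Set.mem_Ico] at hi hj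
      have h1 := cyclelf_inj w hw (i := i.toNat) (j := j.toNat) (by omega) (by omega) heq
      omega
    · intro i hi
      rw [Finset.mem_Ico] at hi ⊢
      omega
    · intro i hi
      rw [Finset.mem_Ico] at hi ⊢
      omega
    · intro i hi
      rw [Finset.mem_Ico] at hi
      have h1 : (i + 1).toNat = i.toNat + 1 := by omega
      simp only [h1]
      exact w.adj_getVert_succ (by omega)
  · rw [cyclelf_support w hw]
    ext x
    simp only [mem_image, Finset.mem_Ico, mem_range]
    constructor
    · rintro ⟨i, hi, hx⟩
      exact ⟨i.toNat, by omega, hx⟩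
    · rintro ⟨i, hi, hx⟩
      exact ⟨(i : ℤ), by omega, by simpa using hx⟩
  · rw [Int.card_Ico]
    omega
  · rw [Int.card_Ico]
    omega
  · unfold beta
    calc ∑ i ∈ (Finset.Ico (0 : ℤ) N).filter (fun i => ¬ isX (w.getVert i.toNat)),
          (2 - dg (Finset.Ico (0 : ℤ) (N - 1)) i)
        ≤ ∑ i ∈ Finset.Ico (0 : ℤ) N, (2 - dg (Finset.Ico (0 : ℤ) (N - 1)) i) := by
          apply Finset.sum_le_sum_of_subset_of_nonneg (Finset.filter_subset _ _)
          intro i _ _
          unfold dg
          split_ifs <;> omega
      _ = 2 * N - ∑ i ∈ Finset.Ico (0 : ℤ) N, dg (Finset.Ico (0 : ℤ) (N - 1)) i := by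
          rw [Finset.sum_sub_distrib, Finset.sum_const, Int.card_Ico]
          simp
          ring
      _ ≤ 2 := by
          have h1 : ∑ i ∈ Finset.Ico (0 : ℤ) N, dg (Finset.Ico (0 : ℤ) (N - 1)) i
              = 2 * (N - 1) := by
            unfold dg
            rw [Finset.sum_add_distrib, Finset.sum_ite_mem, ← Finset.sum_filter]
            have e1 : Finset.Ico (0 : ℤ) N ∩ Finset.Ico (0 : ℤ) (N - 1)
                = Finset.Ico (0 : ℤ) (N - 1) := by
              ext i
              simp only [Finset.mem_inter, Finset.mem_Ico]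
              omega
            have e2 : (Finset.Ico (0 : ℤ) N).filter (fun i => i - 1 ∈ Finset.Ico (0 : ℤ) (N - 1))
                = Finset.Ico (1 : ℤ) N := by
              ext i
              simp only [Finset.mem_filter, Finset.mem_Ico]
              omega
            rw [e1, e2, Finset.sum_const, Finset.sum_const, Int.card_Ico, Int.card_Ico]
            simp only [nsmul_eq_mul, mul_one]
            omega
          rw [h1]
          omega

end Pool.Agent.H5.CHD
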