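import Mathlib

/-!
# Project CHD (disproof of MP_9cdbe4_co Q1): definitions

Vertices: `Vt.x i` (centres), `Vt.b a` with `a = (i, j)` (arms; the arm `(i, j)` is always joined to
the centre `i`), `Vt.y i t` (hubs, `i = 0, 1`).  A state `h : St n` consists of the set `h.dom` of
assigned arms and of the function `h.f`: the assigned arm `a` is joined to the two hubs
`(0, h.f a 0)` and `(1, h.f a 1)`.
-/

namespace Pool.Agent.H5.CHD

open Finset
open scoped Classical

/-- arms -/
abbrev Ar (n : ℕ) := Fin n × Fin 3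

/-- vertices -/
inductive Vt (n : ℕ) : Type
  | x : Fin n → Vt n
  | b : Ar n → Vt n
  | y : Fin 2 → Fin n → Vt n

/-- the vertices as a sum type -/
def Vt.equiv (n : ℕ) : Vt n ≃ (Fin n ⊕ (Ar n ⊕ (Fin 2 × Fin n))) where
  toFun v := match v with
    | .x i => .inl i
    | .b a => .inr (.inl a)
    | .y i t => .inr (.inr (i, t))
  invFun w := match w with
    | .inl i => .x i
    | .inr (.inl a) => .b a
    | .inr (.inr p) => .y p.1 p.2
  left_inv v := by cases v <;> rfl
  right_inv w := by
    rcases w with i | a | p <;> rfl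

noncomputable instance (n : ℕ) : Fintype (Vt n) := Fintype.ofEquiv _ (Vt.equiv n).symm

/-- states -/
structure St (n : ℕ) where
  dom : Finset (Ar n)
  f : Ar n → Fin 2 → Fin n

variable {n : ℕ}

/-- adjacency (one direction: first vertex an arm) -/
def hal (h : St n) : Vt n → Vt n → Prop
  | .b a, .x i => a.1 = i
  | .b a, .y i t => a ∈ h.dom ∧ h.f a i = t
  | _, _ => False

/-- the graph of a state -/
def gr (h : St n) : SimpleGraph (Vt n) where
  Adj u v := hal h u v ∨ hal h v u
  symm := ⟨fun _ _ hh => hh.symm⟩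
  loopless := ⟨fun v hh => by cases v <;> simp [hal] at hh⟩

/-- number of edges inside `S` -/
noncomputable def eS (h : St n) (S : Finset (Vt n)) : ℕ :=
  (univ.filter (fun a : Ar n => Vt.b a ∈ S ∧ Vt.x a.1 ∈ S)).card +
  ∑ i : Fin 2, (univ.filter (fun a : Ar n => Vt.b a ∈ S ∧ a ∈ h.dom ∧ Vt.y i (h.f a i) ∈ S)).card

/-- the fibre of a hub: all arms joined to it -/
noncomputable def fib (h : St n) (i : Fin 2) (t : Fin n) : Finset (Ar n) :=
  h.dom.filter (fun a => h.f a i = t)

/-- (I1): every hub has degree at most `Δ`, and degree at least three if it is used -/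
def I1 (h : St n) (Δ : ℕ) : Prop :=
  ∀ i t, (fib h i t).card ≤ Δ ∧ ((fib h i t).Nonempty → 3 ≤ (fib h i t).card)

/-- (I2) -/
def CP (h : St n) (K : ℝ) : Prop :=
  ∀ k : ℕ, 1 ≤ k → k ≤ n →
    ∑ S ∈ powersetCard k (univ : Finset (Vt n)), ((n : ℝ) / k) ^ eS h S ≤ (K * ((n : ℝ) / k)) ^ k

/-- A linear forest in `gr h`: an injective sequence of vertices, indexed by the finite set `I` of
integers; `U` is the set of the positions `i` such that the edge between the vertices number `i` and
`i + 1` is used. -/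
structure LF (h : St n) (v : ℤ → Vt n) (I U : Finset ℤ) : Prop where
  inj : Set.InjOn v (I : Set ℤ)
  sub : U ⊆ I
  succ : ∀ i ∈ U, i + 1 ∈ I
  adj : ∀ i ∈ U, (gr h).Adj (v i) (v (i + 1))

/-- degree of a position in the forest -/
noncomputable def dg (U : Finset ℤ) (i : ℤ) : ℤ :=
  (if i ∈ U then 1 else 0) + (if i - 1 ∈ U then 1 else 0)

/-- centres -/
def isX : Vt n → Prop
  | .x _ => True
  | _ => False

/-- number of path ends which are not centres -/
noncomputable def beta (v : ℤ → Vt n) (I U : Finset ℤ) : ℤ :=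
  ∑ i ∈ I.filter (fun i => ¬ isX (v i)), (2 - dg U i)

/-- (I3): every linear forest with `N` vertices, `k` components and `β` ends which are not centres
has at most `θ N + 4 k + 3 β` non-used internal edges -/
def I3 (h : St n) (θ : ℝ) : Prop :=
  ∀ (v : ℤ → Vt n) (I U : Finset ℤ), LF h v I U →
    (eS h (I.image v) : ℝ) ≤
      U.card + θ * I.card + 4 * ((I.card : ℝ) - U.card) + 3 * (beta v I U : ℝ)

/-- walks of length exactly `t` -/
def Rch {V : Type*} (G : SimpleGraph V) : ℕ → V → V → Prop
  | 0, u, v => u = v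
  | (t + 1), u, v => ∃ w, Rch G t u w ∧ G.Adj w v

/-- the centres `C` are pairwise at distance larger than `ρ` -/
def Sep (h : St n) (ρ : ℕ) (C : Finset (Fin n)) : Prop :=
  ∀ i ∈ C, ∀ i' ∈ C, i ≠ i' → ∀ t ≤ ρ, ¬ Rch (gr h) t (Vt.x i) (Vt.x i')

/-- `h'` extends `h` exactly on the set `A` of arms, using new hubs only -/
structure Ext (h h' : St n) (A : Finset (Ar n)) : Prop where
  dom : h'.dom = h.dom ∪ A
  disj : Disjoint h.dom A
  old : ∀ a ∈ h.dom, h'.f a = h.f a
  new : ∀ a ∈ A, ∀ i, fib h i (h'.f a i) = ∅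

/-- the arms number `j` of the centres in `C` -/
noncomputable def arms (C : Finset (Fin n)) (j : Fin 3) : Finset (Ar n) := C ×ˢ {j}

/-- all invariants -/
structure Inv (h : St n) (K : ℝ) (Δ : ℕ) (θ : ℝ) : Prop where
  i1 : I1 h Δ
  cp : CP h K
  i3 : I3 h θ

end Pool.Agent.H5.CHD
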