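import Pool.Agent.H5.CHD.Defs

namespace Pool.Agent.H5.CHD

open Finset
open scoped Classical

variable {n : ℕ}

/-- the extension of `h` in which the arm `a ∈ A` gets the hubs given by the slot maps `τ i`, the
slot number of `a` being `σ i (e a)` -/
noncomputable def extSt (h : St n) {m : ℕ} (A : Finset (Ar n)) (e : A ≃ Fin m)
    (τ : Fin 2 → Fin m → Fin n) (σ : Fin 2 → Equiv.Perm (Fin m)) : St n where
  dom := h.dom ∪ A
  f := fun a i => if ha : a ∈ A then τ i (σ i (e ⟨a, ha⟩)) else h.f a i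

theorem extdef_old (h : St n) {m : ℕ} (A : Finset (Ar n)) (e : A ≃ Fin m)
    (τ : Fin 2 → Fin m → Fin n) (σ : Fin 2 → Equiv.Perm (Fin m)) {a : Ar n} (ha : a ∉ A)
    (i : Fin 2) : (extSt h A e τ σ).f a i = h.f a i := dif_neg ha

theorem extdef_new (h : St n) {m : ℕ} (A : Finset (Ar n)) (e : A ≃ Fin m)
    (τ : Fin 2 → Fin m → Fin n) (σ : Fin 2 → Equiv.Perm (Fin m)) {a : Ar n} (ha : a ∈ A)
    (i : Fin 2) : (extSt h A e τ σ).f a i = τ i (σ i (e ⟨a, ha⟩)) := dif_pos ha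

theorem extdef_card {m : ℕ} (A : Finset (Ar n)) (e : A ≃ Fin m) (P : Ar n → Fin m → Prop) :
    ((univ : Finset (Ar n)).filter (fun a => ∃ ha : a ∈ A, P a (e ⟨a, ha⟩))).card =
      ((univ : Finset (Fin m)).filter (fun s => P ((e.symm s : A) : Ar n) s)).card := by
  symm
  refine Finset.card_bij (fun s _ => ((e.symm s : A) : Ar n)) ?_ ?_ ?_
  · intro s hs
    rw [mem_filter] at hs ⊢
    refine ⟨mem_univ _, (e.symm s).2, ?_⟩
    have h1 : e ⟨((e.symm s : A) : Ar n), (e.symm s).2⟩ = s := e.apply_symm_apply s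
    rw [h1]
    exact hs.2
  · intro s _ s' _ h
    exact e.symm.injective (Subtype.ext h)
  · intro a ha
    rw [mem_filter] at ha
    obtain ⟨-, ha, hP⟩ := ha
    refine ⟨e ⟨a, ha⟩, ?_, ?_⟩
    · rw [mem_filter, e.symm_apply_apply]
      exact ⟨mem_univ _, hP⟩
    · rw [e.symm_apply_apply]

/-- edges of the extension inside `S` -/
theorem eS_ext (h : St n) {m : ℕ} (A : Finset (Ar n)) (hd : Disjoint h.dom A) (e : A ≃ Fin m)
    (τ : Fin 2 → Fin m → Fin n) (σ : Fin 2 → Equiv.Perm (Fin m)) (S : Finset (Vt n)) :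
    eS (extSt h A e τ σ) S = eS h S +
      ∑ i : Fin 2, ((univ : Finset (Fin m)).filter (fun s =>
        Vt.b ((e.symm s : A) : Ar n) ∈ S ∧ Vt.y i (τ i (σ i s)) ∈ S)).card := by
  unfold eS
  rw [add_assoc, ← Finset.sum_add_distrib]
  congr 1
  refine Finset.sum_congr rfl fun i _ => ?_
  have hc : ((univ : Finset (Fin m)).filter (fun s =>
        Vt.b ((e.symm s : A) : Ar n) ∈ S ∧ Vt.y i (τ i (σ i s)) ∈ S)).card =
      ((univ : Finset (Ar n)).filter (fun a => ∃ ha : a ∈ A,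
        Vt.b a ∈ S ∧ Vt.y i (τ i (σ i (e ⟨a, ha⟩))) ∈ S)).card := by
    convert (extdef_card A e (fun a s => Vt.b a ∈ S ∧ Vt.y i (τ i (σ i s)) ∈ S)).symm
  rw [hc, ← Finset.card_union_of_disjoint]
  · congr 1
    ext a
    simp only [mem_filter, mem_univ, true_and, mem_union]
    constructor
    · rintro ⟨h1, h2, h3⟩
      by_cases ha : a ∈ A
      · right
        rw [extdef_new h A e τ σ ha] at h3
        exact ⟨ha, h1, h3⟩
      · left
        rw [extdef_old h A e τ σ ha] at h3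
        exact ⟨h1, (mem_union.1 h2).resolve_right ha, h3⟩
    · rintro (⟨h1, h2, h3⟩ | ⟨ha, h1, h3⟩)
      · have ha : a ∉ A := Finset.disjoint_left.1 hd h2
        rw [extdef_old h A e τ σ ha]
        exact ⟨h1, mem_union_left _ h2, h3⟩
      · rw [extdef_new h A e τ σ ha]
        exact ⟨h1, mem_union_right _ ha, h3⟩
  · rw [Finset.disjoint_left]
    intro a h1 h2
    rw [mem_filter] at h1 h2
    obtain ⟨-, ha, -⟩ := h2
    exact Finset.disjoint_left.1 hd h1.2.2.1 ha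

theorem ext_ext (h : St n) {m : ℕ} (A : Finset (Ar n)) (hd : Disjoint h.dom A) (e : A ≃ Fin m)
    (τ : Fin 2 → Fin m → Fin n) (hτ : ∀ i s, fib h i (τ i s) = ∅)
    (σ : Fin 2 → Equiv.Perm (Fin m)) : Ext h (extSt h A e τ σ) A := by
  refine ⟨rfl, hd, fun a ha => ?_, fun a ha i => ?_⟩
  · funext i
    exact extdef_old h A e τ σ (Finset.disjoint_left.1 hd ha) i
  · rw [extdef_new h A e τ σ ha]
    exact hτ i _

theorem extdef_fib (h : St n) {m : ℕ} (A : Finset (Ar n)) (hd : Disjoint h.dom A) (e : A ≃ Fin m)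
    (τ : Fin 2 → Fin m → Fin n) (σ : Fin 2 → Equiv.Perm (Fin m)) (i : Fin 2) (t : Fin n) :
    fib (extSt h A e τ σ) i t = fib h i t ∪
      (univ : Finset (Ar n)).filter (fun a => ∃ ha : a ∈ A, τ i (σ i (e ⟨a, ha⟩)) = t) := by
  ext a
  simp only [fib, mem_filter, mem_univ, true_and, mem_union]
  constructor
  · rintro ⟨h2, h3⟩
    by_cases ha : a ∈ A
    · right
      rw [extdef_new h A e τ σ ha] at h3
      exact ⟨ha, h3⟩
    · left
      rw [extdef_old h A e τ σ ha] at h3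
      exact ⟨(mem_union.1 h2).resolve_right ha, h3⟩
  · rintro (⟨h2, h3⟩ | ⟨ha, h3⟩)
    · have ha : a ∉ A := Finset.disjoint_left.1 hd h2
      rw [extdef_old h A e τ σ ha]
      exact ⟨mem_union_left _ h2, h3⟩
    · rw [extdef_new h A e τ σ ha]
      exact ⟨mem_union_right _ ha, h3⟩

theorem extdef_perm {m : ℕ} (g : Fin m → Fin n) (σ : Equiv.Perm (Fin m)) (t : Fin n) :
    ((univ : Finset (Fin m)).filter (fun s => g (σ s) = t)).card =
      ((univ : Finset (Fin m)).filter (fun s => g s = t)).card := by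
  refine Finset.card_bij (fun s _ => σ s) ?_ ?_ ?_
  · intro s hs
    rw [mem_filter] at hs ⊢
    exact ⟨mem_univ _, hs.2⟩
  · intro s _ s' _ h
    exact σ.injective h
  · intro s hs
    rw [mem_filter] at hs
    refine ⟨σ.symm s, ?_, σ.apply_symm_apply s⟩
    rw [mem_filter, σ.apply_symm_apply]
    exact ⟨mem_univ _, hs.2⟩

theorem ext_i1 (h : St n) {m D Δ : ℕ} (A : Finset (Ar n)) (hd : Disjoint h.dom A) (e : A ≃ Fin m)
    (τ : Fin 2 → Fin m → Fin n) (hD : 3 ≤ D) (h1 : I1 h Δ)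
    (hτ : ∀ i s, fib h i (τ i s) = ∅)
    (hτ2 : ∀ i t, ((univ : Finset (Fin m)).filter (fun s => τ i s = t)).card ≤ 2 * D)
    (hτ3 : ∀ i s, D ≤ ((univ : Finset (Fin m)).filter (fun s' => τ i s' = τ i s)).card)
    (σ : Fin 2 → Equiv.Perm (Fin m)) : I1 (extSt h A e τ σ) (max Δ (2 * D)) := by
  intro i t
  rw [extdef_fib h A hd e τ σ i t]
  by_cases hs : ∃ s, τ i s = t
  · obtain ⟨s, rfl⟩ := hs
    have hc : ((univ : Finset (Ar n)).filter
        (fun a => ∃ ha : a ∈ A, τ i (σ i (e ⟨a, ha⟩)) = τ i s)).card =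
        ((univ : Finset (Fin m)).filter (fun s' => τ i s' = τ i s)).card := by
      rw [← extdef_perm (τ i) (σ i)]
      convert extdef_card A e (fun _ s' => τ i (σ i s') = τ i s)
    rw [hτ i s, Finset.empty_union, hc]
    exact ⟨(hτ2 i _).trans (le_max_right _ _), fun _ => hD.trans (hτ3 i s)⟩
  · have h2 : (univ : Finset (Ar n)).filter
        (fun a => ∃ ha : a ∈ A, τ i (σ i (e ⟨a, ha⟩)) = t) = ∅ := by
      rw [Finset.filter_eq_empty_iff]
      rintro a - ⟨ha, h3⟩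
      exact hs ⟨_, h3⟩
    rw [h2, Finset.union_empty]
    exact ⟨(h1 i t).1.trans (le_max_left _ _), (h1 i t).2⟩

/-- the new hubs -/
noncomputable def nhub (h h' : St n) : Finset (Fin 2 × Fin n) :=
  univ.filter (fun p => fib h p.1 p.2 = ∅ ∧ (fib h' p.1 p.2).Nonempty)

theorem ext_nhub (h : St n) {m : ℕ} (A : Finset (Ar n)) (hd : Disjoint h.dom A) (e : A ≃ Fin m)
    (τ : Fin 2 → Fin m → Fin n) (c : ℕ)
    (hτ : ∀ i, ((univ : Finset (Fin m)).image (τ i)).card ≤ c)
    (σ : Fin 2 → Equiv.Perm (Fin m)) : (nhub h (extSt h A e τ σ)).card ≤ 2 * c := by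
  have h1 : nhub h (extSt h A e τ σ) ⊆ (univ : Finset (Fin 2)).biUnion
      (fun i => ((univ : Finset (Fin m)).image (τ i)).image (fun t => (i, t))) := by
    rintro ⟨i, t⟩ hp
    unfold nhub at hp
    rw [mem_filter] at hp
    obtain ⟨-, h2, a, ha⟩ := hp
    simp only at h2 ha
    rw [extdef_fib h A hd e τ σ i t, h2, Finset.empty_union, mem_filter] at ha
    obtain ⟨-, ha, h3⟩ := ha
    rw [mem_biUnion]
    exact ⟨i, mem_univ _, mem_image.2 ⟨t, mem_image.2 ⟨_, mem_univ _, h3⟩, rfl⟩⟩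
  refine (Finset.card_le_card h1).trans (Finset.card_biUnion_le.trans ?_)
  have h2 : ∀ i ∈ (univ : Finset (Fin 2)),
      (((univ : Finset (Fin m)).image (τ i)).image (fun t => (i, t))).card ≤ c :=
    fun i _ => Finset.card_image_le.trans (hτ i)
  refine (Finset.sum_le_sum h2).trans ?_
  simp

end Pool.Agent.H5.CHD
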