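import Pool.Agent.H5.CHD.Defs

namespace Pool.Agent.H5.CHD

open Finset
open scoped Classical

variable {n : ℕ}

theorem ext_refl (h : St n) : Ext h h ∅ where
  dom := by simp
  disj := by simp
  old := fun _ _ => rfl
  new := fun a ha => by simp at ha

private theorem extlem_fib_sub {h h1 : St n} {A1 : Finset (Ar n)} (h01 : Ext h h1 A1)
    (i : Fin 2) (t : Fin n) : fib h i t ⊆ fib h1 i t := by
  intro a ha
  rw [fib, mem_filter] at ha ⊢
  refine ⟨?_, ?_⟩
  · rw [h01.dom]; exact mem_union_left _ ha.1
  · rw [h01.old a ha.1]; exact ha.2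

theorem ext_trans {h h1 h2 : St n} {A1 A2 : Finset (Ar n)} (h01 : Ext h h1 A1)
    (h12 : Ext h1 h2 A2) : Ext h h2 (A1 ∪ A2) where
  dom := by rw [h12.dom, h01.dom, union_assoc]
  disj := by
    rw [disjoint_union_right]
    refine ⟨h01.disj, ?_⟩
    have := h12.disj
    rw [h01.dom, disjoint_union_left] at this
    exact this.1
  old := fun a ha => by
    have h1 : a ∈ h1.dom := by rw [h01.dom]; exact mem_union_left _ ha
    rw [h12.old a h1, h01.old a ha]
  new := fun a ha i => by
    rcases mem_union.1 ha with ha | ha
    · have h1 : a ∈ h1.dom := by rw [h01.dom]; exact mem_union_right _ ha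
      rw [h12.old a h1]
      exact h01.new a ha i
    · have := h12.new a ha i
      exact subset_empty.1 (this ▸ extlem_fib_sub h01 i (h2.f a i))

theorem arms_union (C C' : Finset (Fin n)) (j : Fin 3) :
    arms (C ∪ C') j = arms C j ∪ arms C' j := by
  ext a
  simp only [arms, mem_product, mem_union]
  tauto

theorem arms_disjoint {C C' : Finset (Fin n)} (h : Disjoint C C') (j : Fin 3) :
    Disjoint (arms C j) (arms C' j) := by
  rw [Finset.disjoint_left] at h ⊢
  intro a ha ha'
  simp only [arms, mem_product] at ha ha'
  exact h ha.1 ha'.1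

theorem arms_disjoint' (C C' : Finset (Fin n)) {j j' : Fin 3} (h : j ≠ j') :
    Disjoint (arms C j) (arms C' j') := by
  rw [Finset.disjoint_left]
  intro a ha ha'
  simp only [arms, mem_product, mem_singleton] at ha ha'
  exact h (ha.2.symm.trans ha'.2)

theorem arms_univ : arms (univ : Finset (Fin n)) 0 ∪ arms univ 1 ∪ arms univ 2 = univ := by
  ext ⟨i, j⟩
  simp only [arms, mem_union, mem_product, mem_univ, mem_singleton, true_and, iff_true]
  fin_cases j <;> simp

theorem ext_le {h h' : St n} {A : Finset (Ar n)} (hE : Ext h h' A) : gr h ≤ gr h' := by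
  have key : ∀ u v : Vt n, hal h u v → hal h' u v := by
    intro u v huv
    cases u with
    | x i => cases v <;> simp [hal] at huv
    | y i t => cases v <;> simp [hal] at huv
    | b a =>
      cases v with
      | x i => simpa [hal] using huv
      | b a' => simp [hal] at huv
      | y i t =>
        simp only [hal] at huv ⊢
        refine ⟨?_, ?_⟩
        · rw [hE.dom]; exact mem_union_left _ huv.1
        · rw [hE.old a huv.1]; exact huv.2
  intro u v huv
  rcases huv with huv | huv
  · exact Or.inl (key u v huv)
  · exact Or.inr (key v u huv)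

end Pool.Agent.H5.CHD
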