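import Pool.Agent.H5.CHD.QStep
import Pool.Agent.H5.CHD.BaseOther

namespace Pool.Agent.H5.CHD

open Finset
open scoped Classical

/-- the separation radii -/
def stages_rr : ℕ → ℕ
  | 0 => 0
  | (m + 1) => 2 * stages_rr m + 4

theorem stages_rr_ge (m : ℕ) : m ≤ stages_rr m := by
  induction m with
  | zero => exact le_refl _
  | succ m ih => simp only [stages_rr]; omega

theorem q_zero {r s : ℕ} (hr : 1 ≤ r) (hs : 1 ≤ s) (θm : ℝ) : QQ r s θm 0 := by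
  have key : ∀ m : ℕ, QQ r s θm (stages_rr m) → QQ r s θm 0 := by
    intro m
    induction m with
    | zero => exact fun h => h
    | succ m ih => exact fun h => ih (qstep h)
  exact key s (level hr hs θm (stages_rr_ge s))

theorem stages_sep0 {n : ℕ} (h : St n) (C : Finset (Fin n)) : Sep h 0 C := by
  intro i _ i' _ hne t ht hR
  obtain rfl : t = 0 := by omega
  simp only [Rch] at hR
  exact hne (by injection hR)

theorem stages_i3_mono {n : ℕ} {h : St n} {θ θ' : ℝ} (hle : θ ≤ θ') (h3 : I3 h θ) : I3 h θ' := by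
  intro v I U hF
  have h1 := h3 v I U hF
  have h2 : θ * (I.card : ℝ) ≤ θ' * I.card :=
    mul_le_mul_of_nonneg_right hle (Nat.cast_nonneg _)
  linarith

/-- total states with the invariants -/
theorem total {r s : ℕ} (hr : 1 ≤ r) (hs : 1 ≤ s) {θm : ℝ}
    (hθm : 3 / (s : ℝ) + 1 / (r : ℝ) < θm) :
    ∃ (K : ℝ) (Δ n1 : ℕ), 1 ≤ K ∧ ∀ n ≥ n1, ∃ h : St n, h.dom = univ ∧ Inv h K Δ θm := by
  have hQ := q_zero hr hs θm
  have hθ0 : 0 ≤ 3 / (s : ℝ) + 1 / (r : ℝ) := by positivity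
  obtain ⟨K1, Δ1, θ1, n1, hK1, hΔ1, hθ1, hθm1, H1⟩ := hQ (Real.exp 48) 3
    (3 / (s : ℝ) + 1 / (r : ℝ)) 1 (Real.one_le_exp (by norm_num)) le_rfl le_rfl hθm one_pos
  obtain ⟨K2, Δ2, θ2, n2, hK2, hΔ2, hθ2, hθm2, H2⟩ := hQ K1 Δ1 θ1 1 hK1 hΔ1 hθ1 hθm1 one_pos
  obtain ⟨K3, Δ3, θ3, n3, hK3, hΔ3, hθ3, hθm3, H3⟩ := hQ K2 Δ2 θ2 1 hK2 hΔ2 hθ2 hθm2 one_pos
  refine ⟨K3, Δ3, max n1 (max n2 n3), hK3, fun n hn => ?_⟩
  have hn1 : n1 ≤ n := (le_max_left _ _).trans hn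
  have hn2 : n2 ≤ n := ((le_max_left _ _).trans (le_max_right _ _)).trans hn
  have hn3 : n3 ≤ n := ((le_max_right _ _).trans (le_max_right _ _)).trans hn
  have hcard : (1 : ℝ) * n ≤ ((univ : Finset (Fin n)).card : ℝ) := by simp
  obtain ⟨h1, hE1, hI1⟩ := H1 n hn1 (h0 n) ⟨base_i1 n 3, base_cp n, base_i3 n hθ0⟩ 0 univ hcard
    (by simp [h0]) (stages_sep0 _ _)
  have hd1 : h1.dom = arms univ 0 := by rw [hE1.dom]; simp [h0]
  obtain ⟨h2, hE2, hI2⟩ := H2 n hn2 h1 hI1 1 univ hcard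
    (by rw [hd1]; exact arms_disjoint' _ _ (by decide)) (stages_sep0 _ _)
  have hd2 : h2.dom = arms univ 0 ∪ arms univ 1 := by rw [hE2.dom, hd1]
  obtain ⟨h3, hE3, hI3⟩ := H3 n hn3 h2 hI2 2 univ hcard
    (by
      rw [hd2, disjoint_union_left]
      exact ⟨arms_disjoint' _ _ (by decide), arms_disjoint' _ _ (by decide)⟩) (stages_sep0 _ _)
  refine ⟨h3, ?_, hI3.i1, hI3.cp, stages_i3_mono hθm3.le hI3.i3⟩
  rw [hE3.dom, hd2, arms_univ]

end Pool.Agent.H5.CHD
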