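import Pool.Agent.H5.CHD.CycleBound
import Pool.Agent.H5.CHD.Stages

namespace Pool.Agent.H5.CHD

open Finset
open scoped Classical

/-- the used vertices of a state -/
def used {n : ℕ} (h : St n) : Set (Vt n) :=
  {v | ∀ i t, v = Vt.y i t → (fib h i t).Nonempty}

private theorem final_le {V : Type*} [Finite V] {s : Set V} {α : Type*} (F : Finset α)
    (f : α → V) (hinj : Set.InjOn f F) (hm : ∀ a ∈ F, f a ∈ s) : F.card ≤ s.ncard := by
  rw [← Set.ncard_coe_finset F, ← hinj.ncard_image]
  apply Set.ncard_le_ncard _ (Set.toFinite s)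
  rintro _ ⟨a, ha, rfl⟩
  exact hm a ha

/-- degrees of the final graph -/
theorem deg_used {n : ℕ} (h : St n) (hd : h.dom = univ) {Δ : ℕ} (h1 : I1 h Δ)
    (v : used h) : 3 ≤ (((gr h).induce (used h)).neighborSet v).ncard := by
  obtain ⟨v, hv⟩ := v
  cases v with
  | x i =>
    have hb : ∀ j : Fin 3, (Vt.b (i, j) : Vt n) ∈ used h := fun j i' t' e => by cases e
    have key := final_le (s := ((gr h).induce (used h)).neighborSet ⟨Vt.x i, hv⟩)
      (univ : Finset (Fin 3)) (fun j => (⟨Vt.b (i, j), hb j⟩ : used h)) (by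
        intro j _ j' _ e
        have e' := congrArg Subtype.val e
        simp only [Vt.b.injEq, Prod.mk.injEq, true_and] at e'
        exact e') (by
        intro j _
        change hal h (Vt.x i) (Vt.b (i, j)) ∨ hal h (Vt.b (i, j)) (Vt.x i)
        exact Or.inr rfl)
    simpa using key
  | b a =>
    have hx : (Vt.x a.1 : Vt n) ∈ used h := fun i' t' e => by cases e
    have hy : ∀ i : Fin 2, (Vt.y i (h.f a i) : Vt n) ∈ used h := by
      intro i i' t' e
      simp only [Vt.y.injEq] at e
      obtain ⟨rfl, rfl⟩ := e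
      refine ⟨a, ?_⟩
      rw [fib, mem_filter]
      exact ⟨by rw [hd]; exact mem_univ _, rfl⟩
    have key := final_le (s := ((gr h).induce (used h)).neighborSet ⟨Vt.b a, hv⟩)
      (univ : Finset (Option (Fin 2))) (fun j => match j with
        | none => (⟨Vt.x a.1, hx⟩ : used h)
        | some i => (⟨Vt.y i (h.f a i), hy i⟩ : used h)) (by
        intro j _ j' _ e
        cases j with
        | none =>
          cases j' with
          | none => rfl
          | some i' =>
            have e' := congrArg Subtype.val e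
            simp at e'
        | some i =>
          cases j' with
          | none =>
            have e' := congrArg Subtype.val e
            simp at e'
          | some i' =>
            have e' := congrArg Subtype.val e
            simp only [Vt.y.injEq] at e'
            rw [e'.1]) (by
        intro j _
        cases j with
        | none => exact Or.inl rfl
        | some i =>
          refine Or.inl ?_
          change a ∈ h.dom ∧ h.f a i = h.f a i
          exact ⟨by rw [hd]; exact mem_univ _, rfl⟩)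
    simpa using key
  | y i t =>
    have hne := hv i t rfl
    have h3 := (h1 i t).2 hne
    have hb : ∀ a : Ar n, (Vt.b a : Vt n) ∈ used h := fun a i' t' e => by cases e
    have key := final_le (s := ((gr h).induce (used h)).neighborSet ⟨Vt.y i t, hv⟩)
      (fib h i t) (fun a => (⟨Vt.b a, hb a⟩ : used h)) (by
        intro j _ j' _ e
        have e' := congrArg Subtype.val e
        simpa using e') (by
        intro a ha
        rw [fib, mem_filter] at ha
        refine Or.inr ?_
        exact ha)
    exact h3.trans key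

theorem deg_x {n : ℕ} (h : St n) (hd : h.dom = univ) (i : Fin n) (hi : Vt.x i ∈ used h) :
    (((gr h).induce (used h)).neighborSet ⟨Vt.x i, hi⟩).ncard = 3 := by
  have hb : ∀ j : Fin 3, (Vt.b (i, j) : Vt n) ∈ used h := fun j i' t' e => by cases e
  have hinj : Function.Injective (fun j : Fin 3 => (⟨Vt.b (i, j), hb j⟩ : used h)) := by
    intro j j' e
    have e' := congrArg Subtype.val e
    simp only [Vt.b.injEq, Prod.mk.injEq, true_and] at e'
    exact e'
  have e : ((gr h).induce (used h)).neighborSet ⟨Vt.x i, hi⟩ =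
      (fun j : Fin 3 => (⟨Vt.b (i, j), hb j⟩ : used h)) '' Set.univ := by
    ext ⟨v, hv⟩
    constructor
    · intro hadj
      change hal h (Vt.x i) v ∨ hal h v (Vt.x i) at hadj
      cases v with
      | x i' =>
        simp [hal] at hadj
      | b a =>
        simp only [hal, false_or] at hadj
        obtain ⟨a1, a2⟩ := a
        simp only at hadj
        subst hadj
        exact ⟨a2, trivial, rfl⟩
      | y i' t' =>
        simp [hal] at hadj
    · rintro ⟨j, -, e⟩
      rw [← e]
      exact Or.inr rfl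
  rw [e, Set.ncard_image_of_injective _ hinj, Set.ncard_univ]
  simp

private theorem final_map {W V : Type*} [Finite V] (G' : SimpleGraph W) (G : SimpleGraph V)
    (φ : G' →g G) (hinj : Function.Injective φ) {u : W} (w : G'.Walk u u) (hw : w.IsCycle) :
    ∃ (w' : G.Walk (φ u) (φ u)), w'.IsCycle ∧ w'.length = w.length ∧
      ({e | e ∈ G'.edgeSet ∧ e ∉ w.edges ∧ ∀ z ∈ e, z ∈ w.support} : Set (Sym2 W)).ncard ≤
      ({e | e ∈ G.edgeSet ∧ e ∉ w'.edges ∧ ∀ z ∈ e, z ∈ w'.support} : Set (Sym2 V)).ncard := by
  refine ⟨w.map φ, hw.map hinj, SimpleGraph.Walk.length_map _ _, ?_⟩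
  apply Set.ncard_le_ncard_of_injOn (fun e => Sym2.map φ e)
  · rintro e ⟨he1, he2, he3⟩
    refine ⟨?_, ?_, ?_⟩
    · induction e with
      | h a b => exact φ.map_adj he1
    · intro hmem
      rw [SimpleGraph.Walk.edges_map, List.mem_map] at hmem
      obtain ⟨e', he', hee⟩ := hmem
      have := Sym2.map.injective hinj hee
      rw [← this] at he2
      exact he2 he'
    · intro z hz
      rw [Sym2.mem_map] at hz
      obtain ⟨z', hz', rfl⟩ := hz
      rw [SimpleGraph.Walk.support_map, List.mem_map]
      exact ⟨z', he3 z' hz', rfl⟩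
  · intro e _ e' _ hee
    exact Sym2.map.injective hinj hee

/-- chords of a cycle of an induced subgraph are chords in the whole graph -/
theorem chords_induce {V : Type*} [Finite V] (G : SimpleGraph V) (s : Set V) {u : s}
    (w : (G.induce s).Walk u u) (hw : w.IsCycle) :
    ∃ (w' : G.Walk u.1 u.1), w'.IsCycle ∧ w'.length = w.length ∧
      ({e | e ∈ (G.induce s).edgeSet ∧ e ∉ w.edges ∧ ∀ z ∈ e, z ∈ w.support} :
        Set (Sym2 s)).ncard ≤
      ({e | e ∈ G.edgeSet ∧ e ∉ w'.edges ∧ ∀ z ∈ e, z ∈ w'.support} : Set (Sym2 V)).ncard :=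
  final_map (G.induce s) G (SimpleGraph.Embedding.induce (G := G) s).toHom
    (SimpleGraph.Embedding.induce (G := G) s).injective w hw

private theorem final_min {V : Type*} [Fintype V] (G : SimpleGraph V) [DecidableRel G.Adj] (x : V)
    (h1 : ∀ v, 3 ≤ (G.neighborSet v).ncard) (h2 : (G.neighborSet x).ncard = 3) :
    G.minDegree = 3 := by
  have hdeg : ∀ v : V, G.degree v = (G.neighborSet v).ncard := by
    intro v
    rw [← SimpleGraph.card_neighborSet_eq_degree, ← Nat.card_coe_set_eq,
      Nat.card_eq_fintype_card]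
  have : Nonempty V := ⟨x⟩
  apply le_antisymm
  · refine (SimpleGraph.minDegree_le_degree G x).trans ?_
    rw [hdeg, h2]
  · apply SimpleGraph.le_minDegree_of_forall_le_degree
    intro v
    rw [hdeg]
    exact h1 v

theorem main (c : ℝ) (hc : 0 < c) :
    ∃ (V : Type) (_ : Fintype V) (G : SimpleGraph V) (_ : DecidableRel G.Adj), G.minDegree = 3 ∧
      ∀ (u : V) (C : G.Walk u u), C.IsCycle →
        (({e | e ∈ G.edgeSet ∧ e ∉ C.edges ∧ ∀ z ∈ e, z ∈ C.support} :
          Set (Sym2 V)).ncard : ℝ) < c * (C.length : ℝ) := by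
  obtain ⟨r, hr⟩ := exists_nat_gt (8 / c)
  have hc8 : 0 < 8 / c := by positivity
  have hr0 : (0 : ℝ) < r := hc8.trans hr
  have hr1 : 1 ≤ r := by exact_mod_cast Nat.one_le_iff_ne_zero.2 (by
    rintro rfl
    simp at hr0)
  have hrc : 4 / (r : ℝ) < c / 2 := by
    rw [div_lt_iff₀ hr0]
    rw [div_lt_iff₀ hc] at hr
    linarith
  have h1r : 1 / (r : ℝ) < c := by
    have : 1 / (r : ℝ) ≤ 4 / r := by gcongr; norm_num
    linarith
  obtain ⟨K, Δ, n1, hK, htot⟩ := total (r := r) (s := r) hr1 hr1 (θm := c / 2) (by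
    have : 3 / (r : ℝ) + 1 / (r : ℝ) = 4 / r := by ring
    rw [this]
    exact hrc)
  obtain ⟨n2, hcyc⟩ := cycle_bound hc hr1 h1r (K := K) (θ := c / 2) (Δ := Δ) hK (by linarith)
  obtain ⟨n, hn⟩ : ∃ n, n = max (max n1 n2) 1 := ⟨_, rfl⟩
  have hn1 : n1 ≤ n := by omega
  have hn2 : n2 ≤ n := by omega
  have hn3 : 1 ≤ n := by omega
  obtain ⟨h, hd, hinv⟩ := htot n hn1
  have hx : (Vt.x ⟨0, hn3⟩ : Vt n) ∈ used h := fun i' t' e => by cases e
  refine ⟨used h, Fintype.ofFinite _, (gr h).induce (used h), Classical.decRel _, ?_, ?_⟩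
  · exact @final_min _ (Fintype.ofFinite _) ((gr h).induce (used h)) (Classical.decRel _)
      ⟨_, hx⟩ (fun v => deg_used h hd hinv.i1 v) (deg_x h hd _ hx)
  · intro u C hC
    obtain ⟨w', hw', hl, hle⟩ := chords_induce (gr h) (used h) C hC
    have h1 := hcyc n hn2 h hinv u.1 w' hw'
    rw [hl] at h1
    refine lt_of_le_of_lt ?_ h1
    exact_mod_cast hle

end Pool.Agent.H5.CHD
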