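import Pool.Agent.H5.CHD.StripDef

namespace Pool.Agent.H5.CHD

open Finset
open scoped Classical

variable {n : ℕ}

private theorem seqsep_walk {h : St n} {v : ℤ → Vt n} {I U : Finset ℤ} (hF : LF h v I U) (i : ℤ) :
    ∀ t : ℕ, (∀ l : ℕ, l < t → i + l ∈ U) → Rch (gr h) t (v i) (v (i + t)) := by
  intro t
  induction t with
  | zero => intro _; simp [Rch]
  | succ t ih =>
    intro hl
    refine ⟨v (i + t), ih (fun l hl' => hl l (by omega)), ?_⟩
    have h1 := hF.adj (i + t) (hl t (by omega))
    have h2 : i + (t : ℤ) + 1 = i + ((t + 1 : ℕ) : ℤ) := by push_cast; ring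
    rw [h2] at h1
    exact h1

/-- two positions of centres joined by a short run of used edges coincide -/
private theorem seqsep_key {h : St n} {v : ℤ → Vt n} {I U : Finset ℤ} (hF : LF h v I U)
    {C : Finset (Fin n)} {s : ℕ} (hs : Sep h s C) {i i' : ℤ} (hi : i ∈ IX C v I)
    (hi' : i' ∈ IX C v I) (t : ℕ) (ht : t ≤ s) (hii : i' = i + t)
    (hl : ∀ l : ℕ, l < t → i + l ∈ U) : i = i' := by
  unfold IX at hi hi'
  rw [mem_filter] at hi hi'
  obtain ⟨hiI, c, hc, hvc⟩ := hi
  obtain ⟨hiI', c', hc', hvc'⟩ := hi'
  have h1 := seqsep_walk hF i t hl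
  rw [← hii, hvc, hvc'] at h1
  by_cases hcc : c = c'
  · subst hcc
    exact hF.inj hiI hiI' (by rw [hvc, hvc'])
  · exact absurd h1 (hs c hc c' hc' hcc t ht)

/-- (F7) separated centres are rare on a linear forest -/
theorem seq_sep {h : St n} {v : ℤ → Vt n} {I U : Finset ℤ} (hF : LF h v I U) {C : Finset (Fin n)}
    {s : ℕ} (hs : Sep h s C) :
    s * (IX C v I).card + s * U.card ≤ I.card + s * I.card := by
  classical
  set P := IX C v I with hP
  set Pa := P.filter (fun i : ℤ => ∀ l : ℕ, l < s → i + (l : ℤ) ∈ U) with hPa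
  set Pb := P.filter (fun i : ℤ => ¬ ∀ l : ℕ, l < s → i + (l : ℤ) ∈ U) with hPb
  have hcard : P.card = Pa.card + Pb.card := by
    rw [hPa, hPb]
    exact (Finset.card_filter_add_card_filter_not _).symm
  -- case (a)
  have ha : Pa.card * s ≤ I.card := by
    have h1 : (Pa ×ˢ range s).card ≤ I.card := by
      apply Finset.card_le_card_of_injOn (fun x => x.1 + (x.2 : ℤ))
      · intro x hx
        simp only [coe_product, Set.mem_prod, mem_coe, mem_range] at hx
        obtain ⟨hx1, hx2⟩ := hx
        rw [hPa, mem_filter] at hx1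
        exact hF.sub (hx1.2 x.2 hx2)
      · intro x hx x' hx' heq
        simp only [coe_product, Set.mem_prod, mem_coe, mem_range] at hx hx'
        obtain ⟨hx1, hx2⟩ := hx
        obtain ⟨hx1', hx2'⟩ := hx'
        rw [hPa, mem_filter] at hx1 hx1'
        simp only at heq
        rcases le_total x'.2 x.2 with hle | hle
        · have h3 : x'.1 = x.1 + ((x.2 - x'.2 : ℕ) : ℤ) := by
            push_cast [Nat.cast_sub hle]; linarith
          have h4 := seqsep_key hF hs hx1.1 hx1'.1 (x.2 - x'.2) (by omega) h3
            (fun l hl => hx1.2 l (by omega))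
          refine Prod.ext h4 ?_
          have : (x.2 : ℤ) = x'.2 := by rw [h4] at heq; linarith
          exact_mod_cast this
        · have h3 : x.1 = x'.1 + ((x'.2 - x.2 : ℕ) : ℤ) := by
            push_cast [Nat.cast_sub hle]; linarith
          have h4 := seqsep_key hF hs hx1'.1 hx1.1 (x'.2 - x.2) (by omega) h3
            (fun l hl => hx1'.2 l (by omega))
          refine Prod.ext h4.symm ?_
          have : (x.2 : ℤ) = x'.2 := by rw [h4] at heq; linarith
          exact_mod_cast this
    simpa using h1
  -- case (b)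
  have hb : Pb.card ≤ (I \ U).card := by
    have hex : ∀ i ∈ Pb, ∃ l : ℕ, l < s ∧ i + (l : ℤ) ∉ U := by
      intro i hi
      rw [hPb, mem_filter] at hi
      have h1 := hi.2
      push Not at h1
      obtain ⟨l, hl1, hl2⟩ := h1
      exact ⟨l, hl1, hl2⟩
    set lf : ℤ → ℕ := fun i => if h : ∃ l : ℕ, l < s ∧ i + (l : ℤ) ∉ U then Nat.find h else 0
      with hlf
    have hl1 : ∀ i ∈ Pb, lf i < s ∧ i + (lf i : ℤ) ∉ U := by
      intro i hi
      have h := hex i hi
      simp only [hlf, dif_pos h]
      exact Nat.find_spec h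
    have hl2 : ∀ i ∈ Pb, ∀ l : ℕ, l < lf i → i + (l : ℤ) ∈ U := by
      intro i hi l h1
      have h := hex i hi
      have h4 : lf i = Nat.find h := by simp only [hlf, dif_pos h]
      rw [h4] at h1
      have h5 := (hl1 i hi).1
      rw [h4] at h5
      by_contra h6
      exact Nat.find_min h h1 ⟨by omega, h6⟩
    apply Finset.card_le_card_of_injOn (fun i => i + (lf i : ℤ))
    · intro i hi
      simp only [mem_coe] at hi
      simp only [coe_sdiff, Set.mem_sdiff, mem_coe]
      refine ⟨?_, (hl1 i hi).2⟩
      rcases Nat.eq_zero_or_pos (lf i) with h0 | h0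
      · rw [h0]
        have h1 := (mem_filter.mp hi).1
        rw [hP] at h1
        unfold IX at h1
        simpa using (mem_filter.mp h1).1
      · have h1 := hF.succ _ (hl2 i hi (lf i - 1) (by omega))
        have h2 : i + ((lf i - 1 : ℕ) : ℤ) + 1 = i + (lf i : ℤ) := by
          push_cast [Nat.cast_sub h0]; ring
        rw [h2] at h1
        exact h1
    · intro i hi i' hi' heq
      simp only [mem_coe] at hi hi'
      simp only at heq
      have hiP : i ∈ P := (mem_filter.mp hi).1
      have hiP' : i' ∈ P := (mem_filter.mp hi').1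
      have h1 := hl1 i hi
      have h1' := hl1 i' hi'
      rcases le_total (lf i') (lf i) with hle | hle
      · have h3 : i' = i + ((lf i - lf i' : ℕ) : ℤ) := by
          push_cast [Nat.cast_sub hle]; linarith
        exact seqsep_key hF hs hiP hiP' (lf i - lf i') (by omega) h3
          (fun l hl => hl2 i hi l (by omega))
      · have h3 : i = i' + ((lf i' - lf i : ℕ) : ℤ) := by
          push_cast [Nat.cast_sub hle]; linarith
        exact (seqsep_key hF hs hiP' hiP (lf i' - lf i) (by omega) h3
          (fun l hl => hl2 i' hi' l (by omega))).symm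
  have hIU : (I \ U).card + U.card = I.card := by
    rw [Finset.card_sdiff_add_card_eq_card hF.sub]
  rw [hcard]
  have h5 : s * Pb.card ≤ s * (I \ U).card := Nat.mul_le_mul_left s hb
  calc s * (Pa.card + Pb.card) + s * U.card = Pa.card * s + (s * Pb.card + s * U.card) := by ring
    _ ≤ I.card + (s * (I \ U).card + s * U.card) := by omega
    _ = I.card + s * I.card := by rw [← hIU]; ring

end Pool.Agent.H5.CHD
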