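import Pool.Agent.H5.CHD.StripDef

namespace Pool.Agent.H5.CHD

open Finset
open scoped Classical

variable {n : ℕ}

private theorem strip2_not_isA_x (A : Finset (Ar n)) (c : Fin n) : ¬ isA A (Vt.x c) := by
  rintro ⟨a, _, h⟩
  cases h

private theorem strip2_not_isN_x (h h' : St n) (c : Fin n) : ¬ isN h h' (Vt.x c) := by
  rintro ⟨i, t, h, _⟩
  cases h

private theorem strip2_isX {w : Vt n} (h : isX w) : ∃ c, w = Vt.x c := by
  cases w with
  | x c => exact ⟨c, rfl⟩
  | b a => exact h.elim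
  | y i t => exact h.elim

/-- the neighbours of an arm which are centres -/
private theorem strip2_adj_x {h' : St n} {a : Ar n} {w : Vt n} (hadj : (gr h').Adj (Vt.b a) w)
    (hw : isX w) : w = Vt.x a.1 := by
  obtain ⟨c, rfl⟩ := strip2_isX hw
  rcases hadj with hh | hh
  · exact congrArg Vt.x (show a.1 = c from hh).symm
  · exact False.elim hh

/-- the neighbours of an arm which are not centres -/
private theorem strip2_adj_y {h' : St n} {a : Ar n} {w : Vt n} (hadj : (gr h').Adj (Vt.b a) w)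
    (hw : ¬ isX w) : ∃ i, a ∈ h'.dom ∧ w = Vt.y i (h'.f a i) := by
  cases w with
  | x c => exact (hw trivial).elim
  | b a' =>
    rcases hadj with hh | hh
    · exact False.elim hh
    · exact False.elim hh
  | y i t =>
    rcases hadj with hh | hh
    · exact ⟨i, hh.1, by rw [hh.2]⟩
    · exact False.elim hh

private theorem strip2_new {h h' : St n} {A : Finset (Ar n)} (hE : Ext h h' A) {a : Ar n}
    (ha : a ∈ A) {w : Vt n} (hadj : (gr h').Adj (Vt.b a) w) (hw : ¬ isX w) : isN h h' w := by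
  obtain ⟨i, hd, rfl⟩ := strip2_adj_y hadj hw
  refine ⟨i, h'.f a i, rfl, hE.new a ha i, a, ?_⟩
  exact Finset.mem_filter.2 ⟨hd, rfl⟩

private theorem strip2_adj_succ {h' : St n} {v : ℤ → Vt n} {I U : Finset ℤ} (hF : LF h' v I U)
    {i : ℤ} (hi : i ∈ U) : (gr h').Adj (v i) (v (i + 1)) := hF.adj i hi

private theorem strip2_adj_pred {h' : St n} {v : ℤ → Vt n} {I U : Finset ℤ} (hF : LF h' v I U)
    {i : ℤ} (hi : i - 1 ∈ U) : (gr h').Adj (v i) (v (i - 1)) := by
  have h1 := hF.adj (i - 1) hi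
  rw [sub_add_cancel] at h1
  exact h1.symm

/-- (F3) used edges between the arms of `A` and hubs go to new hubs -/
theorem sum_uy {h h' : St n} {A : Finset (Ar n)} (hE : Ext h h' A) {v : ℤ → Vt n}
    {I U : Finset ℤ} (hF : LF h' v I U) :
    ∑ i ∈ IA A v I, uy v U i ≤ 2 * ((IY h h' v I).card : ℤ) := by
  have e1 : ∑ i ∈ IA A v I, uy v U i =
      (((IA A v I).filter (fun i => i ∈ U ∧ ¬ isX (v (i + 1)))).card : ℤ) +
      (((IA A v I).filter (fun i => i - 1 ∈ U ∧ ¬ isX (v (i - 1)))).card : ℤ) := by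
    unfold uy
    rw [Finset.sum_add_distrib, Finset.sum_boole, Finset.sum_boole]
  have h1 : ((IA A v I).filter (fun i => i ∈ U ∧ ¬ isX (v (i + 1)))).card ≤
      (IY h h' v I).card := by
    refine Finset.card_le_card_of_injOn (fun i => i + 1) (fun i hi => ?_)
      (fun i _ j _ hij => by simpa using hij)
    rw [Finset.mem_coe, Finset.mem_filter] at hi
    obtain ⟨hiA, hiU, hx⟩ := hi
    obtain ⟨hiI, a, ha, hva⟩ := Finset.mem_filter.1 hiA
    have hadj := strip2_adj_succ hF hiU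
    rw [hva] at hadj
    exact Finset.mem_coe.2 (Finset.mem_filter.2 ⟨hF.succ i hiU, strip2_new hE ha hadj hx⟩)
  have h2 : ((IA A v I).filter (fun i => i - 1 ∈ U ∧ ¬ isX (v (i - 1)))).card ≤
      (IY h h' v I).card := by
    refine Finset.card_le_card_of_injOn (fun i => i - 1) (fun i hi => ?_)
      (fun i _ j _ hij => by simpa using hij)
    rw [Finset.mem_coe, Finset.mem_filter] at hi
    obtain ⟨hiA, hiU, hx⟩ := hi
    obtain ⟨hiI, a, ha, hva⟩ := Finset.mem_filter.1 hiA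
    have hadj := strip2_adj_pred hF hiU
    rw [hva] at hadj
    exact Finset.mem_coe.2 (Finset.mem_filter.2 ⟨hF.sub hiU, strip2_new hE ha hadj hx⟩)
  rw [e1]
  have h1' : (((IA A v I).filter (fun i => i ∈ U ∧ ¬ isX (v (i + 1)))).card : ℤ) ≤
      ((IY h h' v I).card : ℤ) := by exact_mod_cast h1
  have h2' : (((IA A v I).filter (fun i => i - 1 ∈ U ∧ ¬ isX (v (i - 1)))).card : ℤ) ≤
      ((IY h h' v I).card : ℤ) := by exact_mod_cast h2
  linarith

/-- (F6) an arm has only one centre -/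
theorem ux_le {h' : St n} {A : Finset (Ar n)} {v : ℤ → Vt n}
    {I U : Finset ℤ} (hF : LF h' v I U) (i : ℤ) (hi : i ∈ IA A v I) : ux v U i ≤ 1 := by
  obtain ⟨hiI, a, ha, hva⟩ := Finset.mem_filter.1 hi
  unfold ux
  by_cases h1 : i ∈ U ∧ isX (v (i + 1))
  · by_cases h2 : i - 1 ∈ U ∧ isX (v (i - 1))
    · exfalso
      have a1 := strip2_adj_succ hF h1.1
      have a2 := strip2_adj_pred hF h2.1
      rw [hva] at a1 a2
      have e1 := strip2_adj_x a1 h1.2
      have e2 := strip2_adj_x a2 h2.2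
      have := hF.inj (Finset.mem_coe.2 (hF.succ i h1.1)) (Finset.mem_coe.2 (hF.sub h2.1))
        (e1.trans e2.symm)
      omega
    · rw [if_pos h1, if_neg h2]
      norm_num
  · rw [if_neg h1]
    split_ifs <;> norm_num

private theorem strip2_mem_IX {h h' : St n} {C : Finset (Fin n)} {j : Fin 3} {v : ℤ → Vt n}
    {I : Finset ℤ} {i : ℤ} {a : Ar n} (hi : i ∈ I) (ha : a ∈ arms C j) (hv : v i = Vt.x a.1) :
    i ∈ IX C v (Io h h' (arms C j) v I) := by
  refine Finset.mem_filter.2 ⟨Finset.mem_filter.2 ⟨hi, ?_, ?_⟩, a.1, ?_, hv⟩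
  · rw [hv]; exact strip2_not_isA_x _ _
  · rw [hv]; exact strip2_not_isN_x _ _ _
  · exact (Finset.mem_product.1 ha).1

private theorem strip2_arms_ext {C : Finset (Fin n)} {j : Fin 3} {a a' : Ar n}
    (ha : a ∈ arms C j) (ha' : a' ∈ arms C j) (h : a.1 = a'.1) : a = a' := by
  have h1 := Finset.mem_singleton.1 (Finset.mem_product.1 ha).2
  have h2 := Finset.mem_singleton.1 (Finset.mem_product.1 ha').2
  exact Prod.ext h (h1.trans h2.symm)

/-- (F6) -/
theorem sum_ux {h h' : St n} {C : Finset (Fin n)} {j : Fin 3} (hE : Ext h h' (arms C j))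
    {v : ℤ → Vt n} {I U : Finset ℤ} (hF : LF h' v I U) :
    ∑ i ∈ IA (arms C j) v I, ux v U i ≤ ((IX C v (Io h h' (arms C j) v I)).card : ℤ) := by
  set P := (IA (arms C j) v I).filter (fun i => i ∈ U ∧ isX (v (i + 1))) with hP
  set Q := (IA (arms C j) v I).filter (fun i => i - 1 ∈ U ∧ isX (v (i - 1))) with hQ
  have e1 : ∑ i ∈ IA (arms C j) v I, ux v U i = (P.card : ℤ) + (Q.card : ℤ) := by
    unfold ux
    rw [Finset.sum_add_distrib, Finset.sum_boole, Finset.sum_boole]
  have hPx : ∀ i ∈ P, ∃ a ∈ arms C j, i ∈ I ∧ v i = Vt.b a ∧ i + 1 ∈ I ∧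
      v (i + 1) = Vt.x a.1 := by
    intro i hi
    obtain ⟨hiA, hiU, hx⟩ := Finset.mem_filter.1 hi
    obtain ⟨hiI, a, ha, hva⟩ := Finset.mem_filter.1 hiA
    have hadj := strip2_adj_succ hF hiU
    rw [hva] at hadj
    exact ⟨a, ha, hiI, hva, hF.succ i hiU, strip2_adj_x hadj hx⟩
  have hQx : ∀ i ∈ Q, ∃ a ∈ arms C j, i ∈ I ∧ v i = Vt.b a ∧ i - 1 ∈ I ∧
      v (i - 1) = Vt.x a.1 := by
    intro i hi
    obtain ⟨hiA, hiU, hx⟩ := Finset.mem_filter.1 hi
    obtain ⟨hiI, a, ha, hva⟩ := Finset.mem_filter.1 hiA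
    have hadj := strip2_adj_pred hF hiU
    rw [hva] at hadj
    exact ⟨a, ha, hiI, hva, hF.sub hiU, strip2_adj_x hadj hx⟩
  have hdis : Disjoint (P.image (fun i => i + 1)) (Q.image (fun i => i - 1)) := by
    rw [Finset.disjoint_left]
    intro k hk hk'
    obtain ⟨i, hi, hik⟩ := Finset.mem_image.1 hk
    obtain ⟨i', hi', hik'⟩ := Finset.mem_image.1 hk'
    obtain ⟨a, ha, hiI, hva, _, hvx⟩ := hPx i hi
    obtain ⟨a', ha', hiI', hva', _, hvx'⟩ := hQx i' hi'
    rw [hik] at hvx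
    rw [hik'] at hvx'
    have haa : a.1 = a'.1 := Vt.x.inj (hvx.symm.trans hvx')
    have haa' := strip2_arms_ext ha ha' haa
    have := hF.inj (Finset.mem_coe.2 hiI) (Finset.mem_coe.2 hiI')
      (by rw [hva, hva', haa'])
    omega
  have hsub : (P.image (fun i => i + 1)) ∪ (Q.image (fun i => i - 1)) ⊆
      IX C v (Io h h' (arms C j) v I) := by
    intro k hk
    rcases Finset.mem_union.1 hk with hk | hk
    · obtain ⟨i, hi, rfl⟩ := Finset.mem_image.1 hk
      obtain ⟨a, ha, _, _, hI1, hvx⟩ := hPx i hi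
      exact strip2_mem_IX hI1 ha hvx
    · obtain ⟨i, hi, rfl⟩ := Finset.mem_image.1 hk
      obtain ⟨a, ha, _, _, hI1, hvx⟩ := hQx i hi
      exact strip2_mem_IX hI1 ha hvx
  have hcard : P.card + Q.card ≤ (IX C v (Io h h' (arms C j) v I)).card := by
    have c1 : (P.image (fun i => i + 1)).card = P.card :=
      Finset.card_image_of_injective _ fun a b hab => by simpa using hab
    have c2 : (Q.image (fun i => i - 1)).card = Q.card :=
      Finset.card_image_of_injective _ fun a b hab => by simpa using hab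
    rw [← c1, ← c2, ← Finset.card_union_of_disjoint hdis]
    exact Finset.card_le_card hsub
  rw [e1]
  exact_mod_cast hcard

/-- (F6) -/
theorem MM_le {h h' : St n} {C : Finset (Fin n)} {j : Fin 3} {v : ℤ → Vt n} {I : Finset ℤ} :
    MM (arms C j) (I.image v) ≤ (IX C v (Io h h' (arms C j) v I)).card := by
  unfold MM
  set B := (arms C j).filter (fun a => Vt.b a ∈ I.image v ∧ Vt.x a.1 ∈ I.image v) with hB
  have h1 : (B.image (fun a => (Vt.x a.1 : Vt n))).card = B.card := by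
    refine Finset.card_image_of_injOn fun a ha a' ha' haa => ?_
    have ha1 := (Finset.mem_filter.1 (Finset.mem_coe.1 ha)).1
    have ha1' := (Finset.mem_filter.1 (Finset.mem_coe.1 ha')).1
    exact strip2_arms_ext ha1 ha1' (Vt.x.inj haa)
  rw [← h1]
  refine le_trans (Finset.card_le_card ?_)
    (Finset.card_image_le (s := IX C v (Io h h' (arms C j) v I)) (f := v))
  intro w hw
  obtain ⟨a, ha, rfl⟩ := Finset.mem_image.1 hw
  obtain ⟨haC, _, hax⟩ := Finset.mem_filter.1 ha
  obtain ⟨i, hi, hvi⟩ := Finset.mem_image.1 hax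
  exact Finset.mem_image.2 ⟨i, strip2_mem_IX hi haC hvi, hvi⟩

/-- (F6) -/
theorem MM_le' {A : Finset (Ar n)} {v : ℤ → Vt n} {I : Finset ℤ} :
    MM A (I.image v) ≤ (IA A v I).card := by
  unfold MM
  set B := A.filter (fun a => Vt.b a ∈ I.image v ∧ Vt.x a.1 ∈ I.image v) with hB
  have h1 : (B.image (fun a => (Vt.b a : Vt n))).card = B.card :=
    Finset.card_image_of_injective _ fun a a' haa => Vt.b.inj haa
  rw [← h1]
  refine le_trans (Finset.card_le_card ?_) (Finset.card_image_le (s := IA A v I) (f := v))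
  intro w hw
  obtain ⟨a, ha, rfl⟩ := Finset.mem_image.1 hw
  obtain ⟨haA, hab, _⟩ := Finset.mem_filter.1 ha
  obtain ⟨i, hi, hvi⟩ := Finset.mem_image.1 hab
  exact Finset.mem_image.2 ⟨i, Finset.mem_filter.2 ⟨hi, a, haA, hvi⟩, hvi⟩

/-- (F6) the new hubs on the forest -/
theorem IY_le {h h' : St n} {v : ℤ → Vt n} {I U : Finset ℤ} (hF : LF h' v I U) :
    (IY h h' v I).card ≤ ((univ : Finset (Fin 2 × Fin n)).filter
      (fun p => fib h p.1 p.2 = ∅ ∧ (fib h' p.1 p.2).Nonempty)).card := by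
  have h1 : ((IY h h' v I).image v).card = (IY h h' v I).card := by
    refine Finset.card_image_of_injOn fun i hi j hj hij => ?_
    exact hF.inj (Finset.mem_coe.2 (Finset.mem_filter.1 (Finset.mem_coe.1 hi)).1)
      (Finset.mem_coe.2 (Finset.mem_filter.1 (Finset.mem_coe.1 hj)).1) hij
  rw [← h1]
  refine le_trans (Finset.card_le_card ?_)
    (Finset.card_image_le (f := fun p : Fin 2 × Fin n => (Vt.y p.1 p.2 : Vt n)))
  intro w hw
  obtain ⟨i, hi, rfl⟩ := Finset.mem_image.1 hw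
  obtain ⟨_, k, t, hv, hf1, hf2⟩ := Finset.mem_filter.1 hi
  exact Finset.mem_image.2 ⟨(k, t), Finset.mem_filter.2 ⟨Finset.mem_univ _, hf1, hf2⟩, hv.symm⟩

end Pool.Agent.H5.CHD
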