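import Pool.Agent.H5.CHD.StripDef

namespace Pool.Agent.H5.CHD

open Finset
open scoped Classical

variable {n : ℕ}

private theorem strip3_keep {h h' : St n} {A : Finset (Ar n)} {v : ℤ → Vt n} {I : Finset ℤ}
    {w : Vt n} (hw : w ∈ I.image v) (h1 : ¬ isA A w) (h2 : ¬ isN h h' w) :
    w ∈ (Io h h' A v I).image v := by
  rw [mem_image] at hw
  obtain ⟨i, hi, rfl⟩ := hw
  exact mem_image_of_mem v (mem_filter.mpr ⟨hi, h1, h2⟩)

private theorem strip3_b {A : Finset (Ar n)} {a : Ar n} (ha : a ∉ A) : ¬ isA A (Vt.b a) := by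
  rintro ⟨c, hc, he⟩
  apply ha
  injection he with he
  rw [he]
  exact hc

private theorem strip3_bN {h h' : St n} {a : Ar n} : ¬ isN h h' (Vt.b a) := by
  rintro ⟨i, t, he, _⟩
  exact absurd he (by simp)

private theorem strip3_x {A : Finset (Ar n)} {k : Fin n} : ¬ isA A (Vt.x k) := by
  rintro ⟨c, _, he⟩
  exact absurd he (by simp)

private theorem strip3_xN {h h' : St n} {k : Fin n} : ¬ isN h h' (Vt.x k) := by
  rintro ⟨i, t, he, _⟩
  exact absurd he (by simp)

private theorem strip3_y {A : Finset (Ar n)} {i : Fin 2} {t : Fin n} : ¬ isA A (Vt.y i t) := by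
  rintro ⟨c, _, he⟩
  exact absurd he (by simp)

private theorem strip3_IA {A : Finset (Ar n)} {v : ℤ → Vt n} {I : Finset ℤ} :
    (A.filter (fun a => Vt.b a ∈ I.image v)).card ≤ (IA A v I).card := by
  have hinj : Function.Injective (fun a : Ar n => Vt.b a) := by
    intro a c hac
    injection hac
  rw [← card_image_of_injective (A.filter (fun a => Vt.b a ∈ I.image v)) hinj]
  refine le_trans (card_le_card ?_) (card_image_le (s := IA A v I) (f := v))
  intro w hw
  rw [mem_image] at hw
  obtain ⟨a, ha, rfl⟩ := hw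
  rw [mem_filter, mem_image] at ha
  obtain ⟨haA, i, hi, he⟩ := ha
  rw [mem_image]
  exact ⟨i, mem_filter.mpr ⟨hi, a, haA, he⟩, he⟩

/-- (F4) -/
theorem eS_strip {h h' : St n} {A : Finset (Ar n)} (hE : Ext h h' A) {v : ℤ → Vt n}
    {I : Finset ℤ} (hinj : Set.InjOn v (I : Set ℤ)) :
    eS h' (I.image v) ≤ eS h ((Io h h' A v I).image v) + MM A (I.image v) +
      2 * (IA A v I).card := by
  have _ := hinj
  have c1 : ((univ : Finset (Ar n)).filter
      (fun a => Vt.b a ∈ I.image v ∧ Vt.x a.1 ∈ I.image v)).card ≤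
      ((univ : Finset (Ar n)).filter (fun a => Vt.b a ∈ (Io h h' A v I).image v ∧
        Vt.x a.1 ∈ (Io h h' A v I).image v)).card + MM A (I.image v) := by
    unfold MM
    refine le_trans (card_le_card ?_) (card_union_le _ _)
    intro a ha
    rw [mem_filter] at ha
    rw [mem_union, mem_filter, mem_filter]
    by_cases haA : a ∈ A
    · right
      exact ⟨haA, ha.2⟩
    · left
      exact ⟨mem_univ _, strip3_keep ha.2.1 (strip3_b haA) strip3_bN,
        strip3_keep ha.2.2 strip3_x strip3_xN⟩
  have c2 : ∀ i : Fin 2, ((univ : Finset (Ar n)).filter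
      (fun a => Vt.b a ∈ I.image v ∧ a ∈ h'.dom ∧ Vt.y i (h'.f a i) ∈ I.image v)).card ≤
      ((univ : Finset (Ar n)).filter (fun a => Vt.b a ∈ (Io h h' A v I).image v ∧ a ∈ h.dom ∧
        Vt.y i (h.f a i) ∈ (Io h h' A v I).image v)).card + (IA A v I).card := by
    intro i
    refine le_trans ?_ (Nat.add_le_add_left (strip3_IA (A := A) (v := v) (I := I)) _)
    refine le_trans (card_le_card ?_) (card_union_le _ _)
    intro a ha
    rw [mem_filter] at ha
    obtain ⟨_, h1, h2, h3⟩ := ha
    rw [mem_union, mem_filter, mem_filter]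
    by_cases haA : a ∈ A
    · right
      exact ⟨haA, h1⟩
    · left
      have had : a ∈ h.dom := by
        rw [hE.dom, mem_union] at h2
        exact h2.resolve_right haA
      rw [hE.old a had] at h3
      refine ⟨mem_univ _, strip3_keep h1 (strip3_b haA) strip3_bN, had,
        strip3_keep h3 strip3_y ?_⟩
      rintro ⟨k, t, he, hem, _⟩
      injection he with e1 e2
      subst e1
      have : a ∈ fib h i t := by
        rw [fib, mem_filter]
        exact ⟨had, e2⟩
      rw [hem] at this
      exact notMem_empty _ this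
  unfold eS
  rw [Fin.sum_univ_two, Fin.sum_univ_two]
  have := c2 0
  have := c2 1
  omega

end Pool.Agent.H5.CHD
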