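import Pool.Agent.H5.CHD.StripDef

namespace Pool.Agent.H5.CHD

open Finset
open scoped Classical

variable {n : ℕ}

theorem dg_le (U : Finset ℤ) (i : ℤ) : dg U i ≤ 2 := by
  unfold dg
  split_ifs <;> omega

theorem beta_nonneg (v : ℤ → Vt n) (I U : Finset ℤ) : 0 ≤ beta v I U :=
  Finset.sum_nonneg fun i _ => by have := dg_le U i; omega

/-- a neighbour of a kept vertex which is not a centre is kept -/
theorem strip4_adj {h h' : St n} {A : Finset (Ar n)} (hE : Ext h h' A) {u w : Vt n}
    (hu : ¬ isX u) (hA : ¬ isA A u) (hN : ¬ isN h h' u) (hadj : (gr h').Adj u w) :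
    ¬ isA A w ∧ ¬ isN h h' w := by
  have hadj' : hal h' u w ∨ hal h' w u := hadj
  cases u with
  | x i => exact absurd trivial hu
  | b a =>
    have ha : a ∉ A := fun hcon => hA ⟨a, hcon, rfl⟩
    cases w with
    | x j =>
      constructor
      · rintro ⟨a', _, h2⟩
        cases h2
      · rintro ⟨i, t, h2, _⟩
        cases h2
    | b a' => simp [hal] at hadj'
    | y i t =>
      constructor
      · rintro ⟨a', _, h2⟩
        cases h2
      · rintro ⟨j, s, h2, h3, _⟩
        have hh : a ∈ h'.dom ∧ h'.f a i = t := by
          rcases hadj' with h4 | h4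
          · exact h4
          · simp [hal] at h4
        rw [hE.dom, mem_union] at hh
        have hdom : a ∈ h.dom := by
          rcases hh.1 with h5 | h5
          · exact h5
          · exact absurd h5 ha
        have hf : h.f a i = t := by
          rw [← hE.old a hdom]
          exact hh.2
        have hmem : a ∈ fib h i t := by
          unfold fib
          rw [mem_filter]
          exact ⟨hdom, hf⟩
        injection h2 with h6 h7
        subst h6
        subst h7
        rw [h3] at hmem
        simp at hmem
  | y i t =>
    cases w with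
    | x j => simp [hal] at hadj'
    | y j s => simp [hal] at hadj'
    | b a' =>
      have hh : a' ∈ h'.dom ∧ h'.f a' i = t := by
        rcases hadj' with h4 | h4
        · simp [hal] at h4
        · exact h4
      constructor
      · rintro ⟨a, haA, h2⟩
        injection h2 with h3
        subst h3
        apply hN
        refine ⟨i, t, rfl, ?_, ⟨a', ?_⟩⟩
        · have := hE.new a' haA i
          rwa [hh.2] at this
        · unfold fib
          rw [mem_filter]
          exact hh
      · rintro ⟨j, s, h2, _⟩
        cases h2

/-- (F5) -/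
theorem beta_strip {h h' : St n} {A : Finset (Ar n)} (hE : Ext h h' A) {v : ℤ → Vt n}
    {I U : Finset ℤ} (hF : LF h' v I U) :
    beta v (Io h h' A v I) (Uo h h' A v U) + ∑ i ∈ IA A v I, (2 - dg U i) ≤ beta v I U := by
  have h1 : beta v (Io h h' A v I) (Uo h h' A v U) =
      ∑ i ∈ (Io h h' A v I).filter (fun i => ¬ isX (v i)), (2 - dg U i) := by
    unfold beta
    apply Finset.sum_congr rfl
    intro i hi
    rw [mem_filter] at hi
    obtain ⟨hi1, hi2⟩ := hi
    unfold Io at hi1
    rw [mem_filter] at hi1
    obtain ⟨_, hi3, hi4⟩ := hi1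
    have e1 : i ∈ Uo h h' A v U ↔ i ∈ U := by
      unfold Uo
      rw [mem_filter]
      constructor
      · exact fun h => h.1
      · intro h
        exact ⟨h, ⟨hi3, hi4⟩, strip4_adj hE hi2 hi3 hi4 (hF.adj i h)⟩
    have e2 : i - 1 ∈ Uo h h' A v U ↔ i - 1 ∈ U := by
      unfold Uo
      rw [mem_filter]
      constructor
      · exact fun h => h.1
      · intro h
        have hadj := hF.adj (i - 1) h
        rw [sub_add_cancel] at hadj ⊢
        exact ⟨h, strip4_adj hE hi2 hi3 hi4 hadj.symm, hi3, hi4⟩
    unfold dg
    simp only [e1, e2]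
  rw [h1]
  unfold beta
  have hdisj : Disjoint ((Io h h' A v I).filter (fun i => ¬ isX (v i))) (IA A v I) := by
    rw [Finset.disjoint_left]
    intro i hi hi'
    unfold Io at hi
    unfold IA at hi'
    rw [mem_filter, mem_filter] at hi
    rw [mem_filter] at hi'
    exact hi.1.2.1 hi'.2
  rw [← Finset.sum_union hdisj]
  apply Finset.sum_le_sum_of_subset_of_nonneg
  · intro i hi
    rw [mem_union] at hi
    rw [mem_filter]
    rcases hi with hi | hi
    · unfold Io at hi
      rw [mem_filter, mem_filter] at hi
      exact ⟨hi.1.1, hi.2⟩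
    · unfold IA at hi
      rw [mem_filter] at hi
      refine ⟨hi.1, ?_⟩
      obtain ⟨a, _, ha⟩ := hi.2
      rw [ha]
      exact fun hcon => hcon
  · intro i _ _
    have := dg_le U i
    omega

end Pool.Agent.H5.CHD
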