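import Pool.Agent.H5.CHD.Strip1
import Pool.Agent.H5.CHD.Strip2
import Pool.Agent.H5.CHD.Strip3
import Pool.Agent.H5.CHD.Strip4
import Pool.Agent.H5.CHD.SeqSep

namespace Pool.Agent.H5.CHD

open Finset
open scoped Classical

variable {n : ℕ}

/-- the arithmetic of the case of few new hubs on the forest -/
private theorem i3ext_case1 {e' e0 N u N0 u0 a q D m β β0 θ δ : ℝ}
    (hN : N = N0 + a + q) (hu : u = u0 + D) (he : e' ≤ e0 + m + 2 * a) (hm : m ≤ a)
    (hD : D ≤ a + 2 * q) (hD2 : D ≤ 2 * a) (hβ : β0 + (2 * a - D) ≤ β)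
    (h0 : e0 ≤ u0 + θ * N0 + 4 * (N0 - u0) + 3 * β0)
    (hθ : 0 ≤ θ) (ha : 0 ≤ a) (hq : 0 ≤ q) (hqN : q ≤ δ * N) :
    e' ≤ u + (θ + 6 * δ) * N + 4 * (N - u) + 3 * β := by
  have h1 : θ * N0 ≤ θ * N := mul_le_mul_of_nonneg_left (by linarith) hθ
  have h2 : (θ + 6 * δ) * N = θ * N + 6 * (δ * N) := by ring
  rw [h2]
  linarith

/-- the arithmetic of the case of a short forest -/
private theorem i3ext_case2 {e' e0 N u N0 u0 a q D X Y m ix β β0 θ δ Ns Nr s3 r1 : ℝ}
    (hN : N = N0 + a + q) (hu : u = u0 + D) (he : e' ≤ e0 + m + 2 * a) (hm : m ≤ ix)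
    (hD : D = X + Y) (hX : X ≤ ix) (hY : Y ≤ 2 * q) (hD2 : D ≤ 2 * a)
    (hβ : β0 + (2 * a - D) ≤ β) (hβ0 : 0 ≤ β0)
    (h0 : e0 ≤ N0 + Nr) (hsep : ix ≤ Ns + (N0 - u0))
    (hNs : Ns = s3 * N0) (hNr : Nr = r1 * N0)
    (hθ : 3 * s3 + r1 ≤ θ) (hδ : 0 ≤ δ * N) (hN0 : 0 ≤ N0) (ha : 0 ≤ a) (hq : 0 ≤ q)
    (hθ0 : 0 ≤ θ) :
    e' ≤ u + (θ + 6 * δ) * N + 4 * (N - u) + 3 * β := by
  have h2 : (θ + 6 * δ) * N = θ * N + 6 * (δ * N) := by ring
  have h1 : θ * N0 ≤ θ * N := mul_le_mul_of_nonneg_left (by linarith) hθ0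
  have h3 : (3 * s3 + r1) * N0 ≤ θ * N0 := mul_le_mul_of_nonneg_right hθ hN0
  have h4 : (3 * s3 + r1) * N0 = 3 * Ns + Nr := by rw [hNs, hNr]; ring
  rw [h2]
  linarith

/-- (I3) for the extension -/
theorem i3_ext {h h' : St n} {C : Finset (Fin n)} {j : Fin 3} (hE : Ext h h' (arms C j))
    {r s : ℕ} (hr : 1 ≤ r) (hs : 1 ≤ s) (hsep : Sep h s C) {L : ℝ} (hL : 1 ≤ L)
    (hsp : ∀ S : Finset (Vt n), (S.card : ℝ) * L < n → r * eS h S ≤ (r + 1) * S.card)
    {δ θ : ℝ} (hδ : 0 < δ)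
    (hN : ((((univ : Finset (Fin 2 × Fin n)).filter
      (fun p => fib h p.1 p.2 = ∅ ∧ (fib h' p.1 p.2).Nonempty)).card : ℕ) : ℝ) * L ≤ δ * n)
    (hθ : 3 / (s : ℝ) + 1 / (r : ℝ) ≤ θ) (h3 : I3 h θ) : I3 h' (θ + 6 * δ) := by
  intro v I U hF
  have hr0 : (0 : ℝ) < r := by exact_mod_cast hr
  have hs0 : (0 : ℝ) < s := by exact_mod_cast hs
  have hθ0 : 0 ≤ θ := le_trans (by positivity) hθ
  have hFo := lf_strip hE hF
  have hcI := card_I h h' (arms C j) v I
  have hcU := card_U hE hF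
  have hsy := sum_uy hE hF
  have hsx := sum_ux hE hF
  have hux : ∑ i ∈ IA (arms C j) v I, ux v U i ≤ ((IA (arms C j) v I).card : ℤ) := by
    calc ∑ i ∈ IA (arms C j) v I, ux v U i ≤ ∑ i ∈ IA (arms C j) v I, (1 : ℤ) :=
          Finset.sum_le_sum fun i hi => ux_le hF i hi
      _ = ((IA (arms C j) v I).card : ℤ) := by simp
  have hdd : ∑ i ∈ IA (arms C j) v I, dg U i =
      ∑ i ∈ IA (arms C j) v I, ux v U i + ∑ i ∈ IA (arms C j) v I, uy v U i := by
    rw [← Finset.sum_add_distrib]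
    exact Finset.sum_congr rfl fun i _ => dg_eq v U i
  have hd2 : ∑ i ∈ IA (arms C j) v I, dg U i ≤ 2 * ((IA (arms C j) v I).card : ℤ) := by
    calc ∑ i ∈ IA (arms C j) v I, dg U i ≤ ∑ i ∈ IA (arms C j) v I, (2 : ℤ) :=
          Finset.sum_le_sum fun i _ => dg_le U i
      _ = 2 * ((IA (arms C j) v I).card : ℤ) := by simp [mul_comm]
  have hM1 := MM_le (h := h) (h' := h') (C := C) (j := j) (v := v) (I := I)
  have hM2 := MM_le' (A := arms C j) (v := v) (I := I)
  have hIY := IY_le (h := h) hF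
  have heS := eS_strip hE hF.inj
  have hbs := beta_strip hE hF
  have hb0 := beta_nonneg v (Io h h' (arms C j) v I) (Uo h h' (arms C j) v U)
  have hsq := seq_sep hFo hsep
  have h3o := h3 _ _ _ hFo
  have hsum2 : ∑ i ∈ IA (arms C j) v I, (2 - dg U i) =
      2 * ((IA (arms C j) v I).card : ℤ) - ∑ i ∈ IA (arms C j) v I, dg U i := by
    rw [Finset.sum_sub_distrib]
    simp [mul_comm]
  rw [hsum2] at hbs
  -- casts
  have cI : (I.card : ℝ) = (Io h h' (arms C j) v I).card + (IA (arms C j) v I).card +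
      (IY h h' v I).card := by exact_mod_cast hcI
  have cU : (U.card : ℝ) = (Uo h h' (arms C j) v U).card +
      ((∑ i ∈ IA (arms C j) v I, dg U i : ℤ) : ℝ) := by exact_mod_cast hcU
  have ce : (eS h' (I.image v) : ℝ) ≤ (eS h ((Io h h' (arms C j) v I).image v) : ℝ) +
      (MM (arms C j) (I.image v) : ℝ) + 2 * ((IA (arms C j) v I).card : ℝ) := by
    exact_mod_cast heS
  have cb : (beta v (Io h h' (arms C j) v I) (Uo h h' (arms C j) v U) : ℝ) +
      (2 * ((IA (arms C j) v I).card : ℝ) - ((∑ i ∈ IA (arms C j) v I, dg U i : ℤ) : ℝ)) ≤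
      (beta v I U : ℝ) := by exact_mod_cast hbs
  have cd2 : ((∑ i ∈ IA (arms C j) v I, dg U i : ℤ) : ℝ) ≤
      2 * ((IA (arms C j) v I).card : ℝ) := by exact_mod_cast hd2
  have cb0 : (0 : ℝ) ≤ (beta v (Io h h' (arms C j) v I) (Uo h h' (arms C j) v U) : ℝ) := by
    exact_mod_cast hb0
  rcases le_or_gt (n : ℝ) ((I.card : ℝ) * L) with hc | hc
  · -- long forest
    have hq : ((IY h h' v I).card : ℝ) ≤ δ * (I.card : ℝ) := by
      have h1 : ((IY h h' v I).card : ℝ) * L ≤ (δ * (I.card : ℝ)) * L := by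
        calc ((IY h h' v I).card : ℝ) * L ≤ ((((univ : Finset (Fin 2 × Fin n)).filter
              (fun p => fib h p.1 p.2 = ∅ ∧ (fib h' p.1 p.2).Nonempty)).card : ℕ) : ℝ) * L := by
              apply mul_le_mul_of_nonneg_right _ (by linarith)
              exact_mod_cast hIY
          _ ≤ δ * n := hN
          _ ≤ δ * ((I.card : ℝ) * L) := mul_le_mul_of_nonneg_left hc hδ.le
          _ = (δ * (I.card : ℝ)) * L := by ring
      exact le_of_mul_le_mul_right h1 (by linarith)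
    have hD : ((∑ i ∈ IA (arms C j) v I, dg U i : ℤ) : ℝ) ≤
        ((IA (arms C j) v I).card : ℝ) + 2 * ((IY h h' v I).card : ℝ) := by
      have : ∑ i ∈ IA (arms C j) v I, dg U i ≤
        ((IA (arms C j) v I).card : ℤ) + 2 * ((IY h h' v I).card : ℤ) := by
        rw [hdd]; linarith
      exact_mod_cast this
    have cm : (MM (arms C j) (I.image v) : ℝ) ≤ ((IA (arms C j) v I).card : ℝ) := by
      exact_mod_cast hM2
    exact i3ext_case1 cI cU ce cm hD cd2 cb h3o hθ0 (by positivity) (by positivity) hq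
  · -- short forest
    have hcard : (((Io h h' (arms C j) v I).image v).card : ℝ) ≤
        ((Io h h' (arms C j) v I).card : ℝ) := by
      exact_mod_cast Finset.card_image_le
    have hIoI : ((Io h h' (arms C j) v I).card : ℝ) ≤ (I.card : ℝ) := by
      exact_mod_cast Finset.card_le_card (Finset.filter_subset _ _)
    have hsm : (((Io h h' (arms C j) v I).image v).card : ℝ) * L < n := by
      refine lt_of_le_of_lt ?_ hc
      exact mul_le_mul_of_nonneg_right (hcard.trans hIoI) (by linarith)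
    have hsp' := hsp _ hsm
    have hsp1 : (r : ℝ) * (eS h ((Io h h' (arms C j) v I).image v) : ℝ) ≤
        ((r : ℝ) + 1) * (((Io h h' (arms C j) v I).image v).card : ℝ) := by
      exact_mod_cast hsp'
    have he0 : (eS h ((Io h h' (arms C j) v I).image v) : ℝ) ≤
        ((Io h h' (arms C j) v I).card : ℝ) +
          (1 / (r : ℝ)) * ((Io h h' (arms C j) v I).card : ℝ) := by
      have h1 : (r : ℝ) * (eS h ((Io h h' (arms C j) v I).image v) : ℝ) ≤
          (r : ℝ) * (((Io h h' (arms C j) v I).card : ℝ) +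
          (1 / (r : ℝ)) * ((Io h h' (arms C j) v I).card : ℝ)) := by
        calc (r : ℝ) * (eS h ((Io h h' (arms C j) v I).image v) : ℝ) ≤
              ((r : ℝ) + 1) * (((Io h h' (arms C j) v I).image v).card : ℝ) := hsp1
          _ ≤ ((r : ℝ) + 1) * ((Io h h' (arms C j) v I).card : ℝ) :=
              mul_le_mul_of_nonneg_left hcard (by positivity)
          _ = (r : ℝ) * (((Io h h' (arms C j) v I).card : ℝ) +
              (1 / (r : ℝ)) * ((Io h h' (arms C j) v I).card : ℝ)) := by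
              field_simp
      exact le_of_mul_le_mul_left h1 hr0
    have hsq1 : ((IX C v (Io h h' (arms C j) v I)).card : ℝ) ≤
        (1 / (s : ℝ)) * ((Io h h' (arms C j) v I).card : ℝ) +
          (((Io h h' (arms C j) v I).card : ℝ) - ((Uo h h' (arms C j) v U).card : ℝ)) := by
      have h0 : (s : ℝ) * ((IX C v (Io h h' (arms C j) v I)).card : ℝ) +
          (s : ℝ) * ((Uo h h' (arms C j) v U).card : ℝ) ≤
          ((Io h h' (arms C j) v I).card : ℝ) +
          (s : ℝ) * ((Io h h' (arms C j) v I).card : ℝ) := by exact_mod_cast hsq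
      have h1 : (s : ℝ) * ((IX C v (Io h h' (arms C j) v I)).card : ℝ) ≤
          (s : ℝ) * ((1 / (s : ℝ)) * ((Io h h' (arms C j) v I).card : ℝ) +
          (((Io h h' (arms C j) v I).card : ℝ) - ((Uo h h' (arms C j) v U).card : ℝ))) := by
        have h2 : (s : ℝ) * ((1 / (s : ℝ)) * ((Io h h' (arms C j) v I).card : ℝ) +
          (((Io h h' (arms C j) v I).card : ℝ) - ((Uo h h' (arms C j) v U).card : ℝ))) =
          ((Io h h' (arms C j) v I).card : ℝ) +
          (s : ℝ) * ((Io h h' (arms C j) v I).card : ℝ) -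
          (s : ℝ) * ((Uo h h' (arms C j) v U).card : ℝ) := by
          field_simp
          ring
        rw [h2]; linarith
      exact le_of_mul_le_mul_left h1 hs0
    have cdd : ((∑ i ∈ IA (arms C j) v I, dg U i : ℤ) : ℝ) =
        ((∑ i ∈ IA (arms C j) v I, ux v U i : ℤ) : ℝ) +
          ((∑ i ∈ IA (arms C j) v I, uy v U i : ℤ) : ℝ) := by exact_mod_cast hdd
    have cX : ((∑ i ∈ IA (arms C j) v I, ux v U i : ℤ) : ℝ) ≤
        ((IX C v (Io h h' (arms C j) v I)).card : ℝ) := by exact_mod_cast hsx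
    have cY : ((∑ i ∈ IA (arms C j) v I, uy v U i : ℤ) : ℝ) ≤
        2 * ((IY h h' v I).card : ℝ) := by exact_mod_cast hsy
    have cm : (MM (arms C j) (I.image v) : ℝ) ≤
        ((IX C v (Io h h' (arms C j) v I)).card : ℝ) := by exact_mod_cast hM1
    have hθ' : 3 * (1 / (s : ℝ)) + 1 / (r : ℝ) ≤ θ := by
      have : 3 * (1 / (s : ℝ)) = 3 / (s : ℝ) := by ring
      rw [this]; exact hθ
    exact i3ext_case2 cI cU ce cm cdd cX cY cd2 cb cb0 he0 hsq1 rfl rfl hθ'
      (by positivity) (by positivity) (by positivity) (by positivity) hθ0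

end Pool.Agent.H5.CHD
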