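import Pool.Agent.H5.CHD.Defs

namespace Pool.Agent.H5.CHD

open Finset
open scoped Classical

private theorem slots_upper (m p k : ℕ) :
    ((univ : Finset (Fin m)).filter (fun s => s.val % p = k)).card ≤ m / p + 1 := by
  calc ((univ : Finset (Fin m)).filter (fun s => s.val % p = k)).card
      ≤ (range (m / p + 1)).card := by
        apply card_le_card_of_injOn (fun s => s.val / p)
        · intro s _
          simp only [coe_range, Set.mem_Iio]
          exact Nat.lt_succ_of_le (Nat.div_le_div_right s.2.le)
        · intro s hs s' hs' hss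
          simp only [coe_filter, mem_univ, true_and, Set.mem_ofPred_eq] at hs hs'
          simp only at hss
          apply Fin.ext
          rw [← Nat.div_add_mod s.val p, ← Nat.div_add_mod s'.val p, hs, hs', hss]
    _ = m / p + 1 := card_range _

private theorem slots_lower (m p k : ℕ) (hk : k < p) :
    m / p ≤ ((univ : Finset (Fin m)).filter (fun s => s.val % p = k)).card := by
  have hlt : ∀ c, c < m / p → c * p + k < m := by
    intro c hc
    have h1 : (c + 1) * p ≤ m / p * p := Nat.mul_le_mul_right p hc
    have h2 : m / p * p ≤ m := Nat.div_mul_le_self m p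
    have h3 : (c + 1) * p = c * p + p := by ring
    omega
  calc m / p = (univ : Finset (Fin (m / p))).card := by rw [card_univ, Fintype.card_fin]
    _ ≤ _ := by
        apply card_le_card_of_injOn (fun c => (⟨c.val * p + k, hlt c.val c.2⟩ : Fin m))
        · intro c _
          simp only [coe_filter, mem_univ, true_and, Set.mem_ofPred_eq]
          rw [mul_comm, Nat.mul_add_mod, Nat.mod_eq_of_lt hk]
        · intro c _ c' _ hcc
          simp only [Fin.mk.injEq] at hcc
          apply Fin.ext
          have h1 : c.val * p = c'.val * p := by omega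
          exact Nat.eq_of_mul_eq_mul_right (by omega) h1

/-- `m` slots are distributed to at most `m / D` unused hubs of the family `i`, between `D` and
`2 D` slots for each hub -/
theorem slots {n : ℕ} (h : St n) {Δ : ℕ} (h1 : I1 h Δ) (i : Fin 2) {m D : ℕ} (hD : 3 ≤ D)
    (hm : D ≤ m) (hmn : h.dom.card + m ≤ 3 * n) :
    ∃ τ : Fin m → Fin n, (∀ s, fib h i (τ s) = ∅) ∧
      (∀ t, ((univ : Finset (Fin m)).filter (fun s => τ s = t)).card ≤ 2 * D) ∧
      (∀ s, D ≤ ((univ : Finset (Fin m)).filter (fun s' => τ s' = τ s)).card) ∧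
      (((univ : Finset (Fin m)).image τ).card ≤ m / D) := by
  have hp : 0 < m / D := Nat.div_pos hm (by omega)
  obtain ⟨p, hpdef⟩ : ∃ p, p = m / D := ⟨_, rfl⟩
  rw [← hpdef] at hp ⊢
  -- unused hubs
  have hcount : h.dom.card = ∑ t : Fin n, (fib h i t).card := by
    unfold fib
    exact card_eq_sum_card_fiberwise (fun _ _ => mem_coe.2 (mem_univ _))
  have hused : 3 * ((univ : Finset (Fin n)).filter (fun t => ¬ fib h i t = ∅)).card ≤
      h.dom.card := by
    rw [hcount, mul_comm, ← smul_eq_mul]
    calc ((univ : Finset (Fin n)).filter (fun t => ¬ fib h i t = ∅)).card • 3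
        ≤ ∑ t ∈ (univ : Finset (Fin n)).filter (fun t => ¬ fib h i t = ∅), (fib h i t).card := by
          apply card_nsmul_le_sum
          intro t ht
          rw [mem_filter] at ht
          exact (h1 i t).2 (nonempty_iff_ne_empty.2 ht.2)
      _ ≤ ∑ t : Fin n, (fib h i t).card :=
          sum_le_sum_of_subset (filter_subset _ _)
  have hsplit := card_filter_add_card_filter_not (s := (univ : Finset (Fin n)))
    (fun t => fib h i t = ∅)
  rw [card_univ, Fintype.card_fin] at hsplit
  obtain ⟨W, hW⟩ : ∃ W, W = (univ : Finset (Fin n)).filter (fun t => fib h i t = ∅) := ⟨_, rfl⟩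
  have hpW : p ≤ W.card := by
    have h3 : p * D ≤ m := by rw [hpdef]; exact Nat.div_mul_le_self m D
    have h4 : p * 3 ≤ p * D := Nat.mul_le_mul_left p hD
    rw [← hW] at hsplit
    have h5 : p * D ≤ m := h3
    obtain ⟨u, hu⟩ : ∃ u, u = ((univ : Finset (Fin n)).filter (fun t => ¬ fib h i t = ∅)).card :=
      ⟨_, rfl⟩
    rw [← hu] at hsplit hused
    obtain ⟨d, hd⟩ : ∃ d, d = h.dom.card := ⟨_, rfl⟩
    rw [← hd] at hused hmn
    clear hcount hpdef hu hd
    omega
  let e := W.equivFin
  have hmod : ∀ s : Fin m, s.val % p < W.card := fun s => lt_of_lt_of_le (Nat.mod_lt _ hp) hpW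
  let g : Fin m → Fin n := fun s => (e.symm ⟨s.val % p, hmod s⟩).1
  have hg : ∀ s s' : Fin m, g s = g s' ↔ s.val % p = s'.val % p := by
    intro s s'
    constructor
    · intro hh
      have h5 := e.symm.injective (Subtype.ext hh)
      simpa using h5
    · intro hh
      simp only [g, hh]
  have hfilt : ∀ s : Fin m, (univ : Finset (Fin m)).filter (fun s' => g s' = g s) =
      (univ : Finset (Fin m)).filter (fun s' => s'.val % p = s.val % p) := by
    intro s
    ext s'
    simp only [mem_filter, mem_univ, true_and, hg]
  refine ⟨g, ?_, ?_, ?_, ?_⟩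
  · intro s
    have h5 := (e.symm ⟨s.val % p, hmod s⟩).2
    have h6 : (e.symm ⟨s.val % p, hmod s⟩).1 ∈
        (univ : Finset (Fin n)).filter (fun t => fib h i t = ∅) := hW ▸ h5
    exact (mem_filter.1 h6).2
  · intro t
    rcases ((univ : Finset (Fin m)).filter (fun s => g s = t)).eq_empty_or_nonempty with h5 | ⟨s, hs⟩
    · rw [h5, card_empty]
      exact Nat.zero_le _
    · rw [mem_filter] at hs
      obtain ⟨_, rfl⟩ := hs
      rw [hfilt s]
      refine (slots_upper m p _).trans ?_
      have h6 : m < (m / D + 1) * D := by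
        have := Nat.lt_succ_self (m / D)
        exact (Nat.div_lt_iff_lt_mul (by omega)).1 this
      rw [← hpdef] at h6
      have h7 : (p + 1) * D ≤ 2 * D * p := by nlinarith
      have h8 : m / p < 2 * D := (Nat.div_lt_iff_lt_mul hp).2 (lt_of_lt_of_le h6 h7)
      omega
  · intro s
    rw [hfilt s]
    refine le_trans ?_ (slots_lower m p _ (Nat.mod_lt _ hp))
    rw [Nat.le_div_iff_mul_le hp, hpdef, mul_comm]
    exact Nat.div_mul_le_self m D
  · calc ((univ : Finset (Fin m)).image g).card
        ≤ (((univ : Finset (Fin m)).image (fun s => s.val % p))).card := by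
          apply card_le_card_of_surjOn
            (fun k => if hk : k < W.card then (e.symm ⟨k, hk⟩).1 else (e.symm ⟨0, by omega⟩).1)
          intro t ht
          rw [mem_coe, mem_image] at ht
          obtain ⟨s, _, rfl⟩ := ht
          refine ⟨s.val % p, ?_, ?_⟩
          · rw [mem_coe]
            exact mem_image_of_mem _ (mem_univ s)
          · simp only [dif_pos (hmod s)]
            rfl
      _ ≤ (range p).card := by
          apply card_le_card
          intro k hk
          rw [mem_image] at hk
          obtain ⟨s, _, rfl⟩ := hk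
          exact mem_range.2 (Nat.mod_lt _ hp)
      _ = p := card_range p

end Pool.Agent.H5.CHD
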