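import Pool.Agent.H5.CHD.I3Ext
import Pool.Agent.H5.CHD.CPExt
import Pool.Agent.H5.CHD.Slots
import Pool.Agent.H5.CHD.Sparse

namespace Pool.Agent.H5.CHD

open Finset
open scoped Classical

/-- the assignment procedure for `ρ`-separated sets of centres -/
def QQ (r s : ℕ) (θm : ℝ) (ρ : ℕ) : Prop :=
  ∀ (K : ℝ) (Δ : ℕ) (θ κ : ℝ), 1 ≤ K → 3 ≤ Δ → 3 / (s : ℝ) + 1 / (r : ℝ) ≤ θ → θ < θm → 0 < κ →
    ∃ (K' : ℝ) (Δ' : ℕ) (θ' : ℝ) (n1 : ℕ), 1 ≤ K' ∧ 3 ≤ Δ' ∧ 3 / (s : ℝ) + 1 / (r : ℝ) ≤ θ' ∧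
      θ' < θm ∧ ∀ n ≥ n1, ∀ h : St n, Inv h K Δ θ → ∀ (j : Fin 3) (C : Finset (Fin n)),
        κ * n ≤ C.card → Disjoint h.dom (arms C j) → Sep h ρ C →
        ∃ h' : St n, Ext h h' (arms C j) ∧ Inv h' K' Δ' θ'

theorem level_arms_card {n : ℕ} (C : Finset (Fin n)) (j : Fin 3) : (arms C j).card = C.card := by
  unfold arms
  rw [card_product, card_singleton, mul_one]

/-- level extension -/
theorem level {r s : ℕ} (hr : 1 ≤ r) (hs : 1 ≤ s) (θm : ℝ) {ρ : ℕ} (hρ : s ≤ ρ) :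
    QQ r s θm ρ := by
  intro K Δ θ κ hK hΔ hθ hθm hκ
  set δ : ℝ := (θm - θ) / 12 with hδdef
  have hδ : 0 < δ := by rw [hδdef]; linarith
  have hKr : 1 ≤ K ^ r := one_le_pow₀ hK
  set D : ℕ := ⌈2 * K ^ r / δ⌉₊ + 3 with hD
  have hD3 : 3 ≤ D := by omega
  have hDδ : 2 * K ^ r ≤ δ * D := by
    have h1 : 2 * K ^ r / δ ≤ ⌈2 * K ^ r / δ⌉₊ := Nat.le_ceil _
    have h2 : ((⌈2 * K ^ r / δ⌉₊ : ℕ) : ℝ) ≤ D := by
      rw [hD]; push_cast; linarith
    have h3 : 2 * K ^ r / δ ≤ D := h1.trans h2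
    rw [div_le_iff₀ hδ] at h3
    linarith
  have hL1 : (1 : ℝ) ≤ 1 + 2 * D / κ := by
    have : 0 ≤ 2 * (D : ℝ) / κ := by positivity
    linarith
  refine ⟨4 * (1 + 2 * D / κ) ^ 2 * K, max Δ (2 * D), θ + 6 * δ, ⌈(D : ℝ) / κ⌉₊, ?_, ?_, ?_, ?_, ?_⟩
  · have h1 : 1 ≤ (1 + 2 * (D : ℝ) / κ) ^ 2 := one_le_pow₀ hL1
    nlinarith
  · exact le_max_of_le_left hΔ
  · linarith
  · rw [hδdef]; linarith
  · intro n hn h hI j C hC hdis hsep
    have hnκ : (D : ℝ) ≤ κ * n := by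
      have h1 : (D : ℝ) / κ ≤ ⌈(D : ℝ) / κ⌉₊ := Nat.le_ceil _
      have h2 : ((⌈(D : ℝ) / κ⌉₊ : ℕ) : ℝ) ≤ n := by exact_mod_cast hn
      have h3 := h1.trans h2
      rw [div_le_iff₀ hκ] at h3
      linarith
    set m := C.card with hm
    have hcard : (arms C j).card = m := level_arms_card C j
    have hDm : D ≤ m := by
      have : (D : ℝ) ≤ m := hnκ.trans hC
      exact_mod_cast this
    have hmn : h.dom.card + m ≤ 3 * n := by
      rw [← hcard, ← card_union_of_disjoint hdis]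
      refine (card_le_univ _).trans ?_
      simp [Fintype.card_prod, mul_comm]
    have hmn' : m ≤ n := by
      rw [hm]
      refine (card_le_univ _).trans ?_
      simp
    choose τ hτ1 hτ2 hτ3 hτ4 using fun i : Fin 2 => slots h hI.i1 i hD3 hDm hmn
    let e : (arms C j) ≃ Fin m := Finset.equivFinOfCardEq hcard
    obtain ⟨σ, hσ⟩ := cp_ext h hK hI.cp (arms C j) hdis e τ hτ2 hκ hC
    have hE := ext_ext h (arms C j) hdis e τ hτ1 σ
    refine ⟨extSt h (arms C j) e τ σ, hE, ?_, hσ, ?_⟩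
    · exact ext_i1 h (arms C j) hdis e τ hD3 hI.i1 hτ1 hτ2 hτ3 σ
    · have hnh := ext_nhub h (arms C j) hdis e τ (m / D) hτ4 σ
      have hsep' : Sep h s C := fun i hi i' hi' hne t ht => hsep i hi i' hi' hne t (ht.trans hρ)
      refine i3_ext hE hr hs hsep' hKr (sparse h hK hI.cp r) hδ ?_ hθ hI.i3
      have h1 : (((nhub h (extSt h (arms C j) e τ σ)).card : ℕ) : ℝ) ≤ 2 * ((m / D : ℕ) : ℝ) := by
        exact_mod_cast hnh
      have h2 : ((m / D : ℕ) : ℝ) ≤ (m : ℝ) / D := Nat.cast_div_le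
      have hD0 : (0 : ℝ) < D := by
        have : 0 < D := by omega
        exact_mod_cast this
      have h3 : (m : ℝ) / D ≤ n / D := by
        apply div_le_div_of_nonneg_right _ hD0.le
        exact_mod_cast hmn'
      have h4 : (((nhub h (extSt h (arms C j) e τ σ)).card : ℕ) : ℝ) * K ^ r ≤
          2 * ((n : ℝ) / D) * K ^ r := by
        apply mul_le_mul_of_nonneg_right _ (by positivity)
        linarith
      have h5 : 2 * ((n : ℝ) / D) * K ^ r ≤ δ * n := by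
        have : 2 * ((n : ℝ) / D) * K ^ r = (2 * K ^ r) * n / D := by ring
        rw [this, div_le_iff₀ hD0]
        have hn0 : (0 : ℝ) ≤ n := Nat.cast_nonneg n
        nlinarith
      exact h4.trans h5

end Pool.Agent.H5.CHD
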