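import Pool.Agent.H5.CHD.RchLem

namespace Pool.Agent.H5.CHD

open Finset
open scoped Classical

variable {n : ℕ}

/-- a short walk starting at a centre of `C` does not see the new hubs -/
theorem walk_old {h h1 : St n} {X' U : Finset (Fin n)} {j : Fin 3} (hE : Ext h h1 (arms U j))
    (hU : U ⊆ X') {ρ : ℕ} (hX : Sep h ρ X') {c : Fin n} (hc : c ∈ X') (hcU : c ∉ U) {t : ℕ}
    (ht : t ≤ ρ + 2) {w : Vt n} (hw : Rch (gr h1) t (Vt.x c) w) : Rch (gr h) t (Vt.x c) w := by
  induction t generalizing w with
  | zero => exact hw
  | succ t ih =>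
    obtain ⟨w', hw', hadj⟩ := hw
    have hr := ih (by omega) hw'
    refine ⟨w', hr, ?_⟩
    rcases hadj with hadj | hadj
    · match w', w, hadj, hr with
      | .b a, .x i, hadj, _ => exact Or.inl hadj
      | .b a, .y i s, hadj, hr =>
        left
        obtain ⟨ha, hf⟩ := hadj
        rw [hE.dom, Finset.mem_union] at ha
        rcases ha with ha | ha
        · exact ⟨ha, by rw [← hE.old a ha]; exact hf⟩
        · exfalso
          have hnd : a ∉ h.dom := fun h2 => (Finset.disjoint_left.1 hE.disj) h2 ha
          have haU : a.1 ∈ U := (Finset.mem_product.1 ha).1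
          cases t with
          | zero =>
            have h0 : Vt.x c = Vt.b a := hr
            cases h0
          | succ t =>
            obtain ⟨w'', hr'', hadj''⟩ := hr
            rcases hadj'' with h2 | h2
            · cases w'' <;> exact h2
            · match w'', h2, hr'' with
              | .x i', h2, hr'' =>
                have h3 : a.1 = i' := h2
                subst h3
                exact hX c hc a.1 (hU haU) (fun hh => hcU (hh ▸ haU)) t (by omega) hr''
              | .y i' s', h2, _ => exact hnd h2.1
    · match w', w, hadj, hr with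
      | .x i, .b a, hadj, _ => exact Or.inr hadj
      | .y i s, .b a, hadj, hr =>
        right
        obtain ⟨ha, hf⟩ := hadj
        rw [hE.dom, Finset.mem_union] at ha
        rcases ha with ha | ha
        · exact ⟨ha, by rw [← hE.old a ha]; exact hf⟩
        · exfalso
          have hnew := hE.new a ha i
          rw [hf] at hnew
          cases t with
          | zero =>
            have h0 : Vt.x c = Vt.y i s := hr
            cases h0
          | succ t =>
            obtain ⟨w'', hr'', hadj''⟩ := hr
            rcases hadj'' with h2 | h2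
            · match w'', h2 with
              | .b a', h2 =>
                have h3 : a' ∈ fib h i s := Finset.mem_filter.2 h2
                rw [hnew] at h3
                exact Finset.notMem_empty _ h3
            · cases w'' <;> exact h2

theorem sep_keep {h h1 : St n} {X' U C : Finset (Fin n)} {j : Fin 3} (hE : Ext h h1 (arms U j))
    (hU : U ⊆ X') (hC : C ⊆ X') (hd : Disjoint U C) {ρ : ℕ} (hX : Sep h ρ X')
    (hCs : Sep h (2 * ρ + 4) C) : Sep h1 (2 * ρ + 4) C := by
  intro i hi i' hi' hne t ht hr
  obtain ⟨t1, t2, h1t, h2t, rfl⟩ : ∃ t1 t2, t1 ≤ ρ + 2 ∧ t2 ≤ ρ + 2 ∧ t = t1 + t2 :=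
    ⟨min t (ρ + 2), t - min t (ρ + 2), by omega, by omega, by omega⟩
  obtain ⟨v, hv1, hv2⟩ := rch_split hr
  have hiU : i ∉ U := fun h2 => (Finset.disjoint_left.1 hd) h2 hi
  have hiU' : i' ∉ U := fun h2 => (Finset.disjoint_left.1 hd) h2 hi'
  have h3 := walk_old hE hU hX (hC hi) hiU h1t hv1
  have h4 := walk_old hE hU hX (hC hi') hiU' h2t (rch_symm hv2)
  exact hCs i hi i' hi' hne (t1 + t2) ht (rch_add h3 (rch_symm h4))

end Pool.Agent.H5.CHD
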