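import Pool.Agent.H5.CHD.LevelExt
import Pool.Agent.H5.CHD.ExtLem
import Pool.Agent.H5.CHD.SepKeep
import Pool.Agent.H5.CHD.Colour
import Pool.Agent.H5.CHD.Ball

namespace Pool.Agent.H5.CHD

open Finset
open scoped Classical

theorem qstep_arms_mono {n : ℕ} {C C' : Finset (Fin n)} (h : C ⊆ C') (j : Fin 3) :
    arms C j ⊆ arms C' j := by
  unfold arms
  exact Finset.product_subset_product h (Finset.Subset.refl _)

/-- the classes of a colouring are treated one after the other -/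
theorem classes {r s : ℕ} {θm : ℝ} {ρ : ℕ} (hQ : QQ r s θm (2 * ρ + 4)) (P : ℕ) {K : ℝ} {Δ : ℕ}
    {θ κ : ℝ} (hK : 1 ≤ K) (hΔ : 3 ≤ Δ) (hθ : 3 / (s : ℝ) + 1 / (r : ℝ) ≤ θ) (hθm : θ < θm)
    (hκ : 0 < κ) (p : ℕ) (hp : p ≤ P) :
    ∃ (K' : ℝ) (Δ' : ℕ) (θ' : ℝ) (n1 : ℕ), 1 ≤ K' ∧ 3 ≤ Δ' ∧ 3 / (s : ℝ) + 1 / (r : ℝ) ≤ θ' ∧
      θ' < θm ∧ ∀ n ≥ n1, ∀ h : St n, Inv h K Δ θ → ∀ (j : Fin 3) (C : Finset (Fin n)),
        Disjoint h.dom (arms C j) → Sep h ρ C → ∀ f : Fin n → Fin P,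
        (∀ i : Fin P, κ * n ≤ (C.filter (fun x => f x = i)).card) →
        (∀ i : Fin P, Sep h (2 * ρ + 4) (C.filter (fun x => f x = i))) →
        ∃ h' : St n, Ext h h' (arms (C.filter (fun x => (f x : ℕ) < p)) j) ∧
          Inv h' K' Δ' θ' := by
  induction p with
  | zero =>
    refine ⟨K, Δ, θ, 0, hK, hΔ, hθ, hθm, ?_⟩
    intro n _ h hInv j C _ _ f _ _
    refine ⟨h, ?_, hInv⟩
    have he : arms (C.filter (fun x => (f x : ℕ) < 0)) j = ∅ := by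
      unfold arms
      simp
    rw [he]
    exact ext_refl h
  | succ p ih =>
    obtain ⟨K1, Δ1, θ1, n1, hK1, hΔ1, hθ1, hθm1, H1⟩ := ih (by omega)
    obtain ⟨K2, Δ2, θ2, n2, hK2, hΔ2, hθ2, hθm2, H2⟩ := hQ K1 Δ1 θ1 κ hK1 hΔ1 hθ1 hθm1 hκ
    refine ⟨K2, Δ2, θ2, max n1 n2, hK2, hΔ2, hθ2, hθm2, ?_⟩
    intro n hn h hInv j C hdis hSep f hcard hsep
    obtain ⟨h1, hE1, hI1⟩ := H1 n (le_trans (le_max_left _ _) hn) h hInv j C hdis hSep f hcard hsep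
    have hpP : p < P := by omega
    set Cp : Finset (Fin n) := C.filter (fun x => f x = ⟨p, hpP⟩) with hCp
    set U : Finset (Fin n) := C.filter (fun x => (f x : ℕ) < p) with hU
    have hUC : U ⊆ C := Finset.filter_subset _ _
    have hCpC : Cp ⊆ C := Finset.filter_subset _ _
    have hd : Disjoint U Cp := by
      rw [Finset.disjoint_left]
      intro x hx hx'
      have h1' := (Finset.mem_filter.1 hx).2
      have h2' := (Finset.mem_filter.1 hx').2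
      rw [h2'] at h1'
      exact absurd h1' (lt_irrefl _)
    have hdis1 : Disjoint h1.dom (arms Cp j) := by
      rw [hE1.dom, Finset.disjoint_union_left]
      exact ⟨Finset.disjoint_of_subset_right (qstep_arms_mono hCpC j) hdis,
        arms_disjoint hd j⟩
    have hsep1 : Sep h1 (2 * ρ + 4) Cp :=
      sep_keep hE1 hUC hCpC hd hSep (hsep ⟨p, hpP⟩)
    obtain ⟨h2, hE2, hI2⟩ := H2 n (le_trans (le_max_right _ _) hn) h1 hI1 j Cp
      (hcard ⟨p, hpP⟩) hdis1 hsep1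
    refine ⟨h2, ?_, hI2⟩
    have hE := ext_trans hE1 hE2
    rw [← arms_union] at hE
    have hUC' : U ∪ Cp = C.filter (fun x => (f x : ℕ) < p + 1) := by
      ext x
      simp only [hU, hCp, Finset.mem_union, Finset.mem_filter, Fin.ext_iff]
      constructor
      · rintro (⟨h1', h2'⟩ | ⟨h1', h2'⟩)
        · exact ⟨h1', by omega⟩
        · exact ⟨h1', by omega⟩
      · rintro ⟨h1', h2'⟩
        rcases Nat.lt_succ_iff_lt_or_eq.1 h2' with h3 | h3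
        · exact Or.inl ⟨h1', h3⟩
        · exact Or.inr ⟨h1', h3⟩
    rw [hUC'] at hE
    exact hE

theorem qstep {r s : ℕ} {θm : ℝ} {ρ : ℕ} (hQ : QQ r s θm (2 * ρ + 4)) : QQ r s θm ρ := by
  intro K Δ θ κ hK hΔ hθ hθm hκ
  obtain ⟨R, hR⟩ : ∃ R, R = 2 * ρ + 4 := ⟨_, rfl⟩
  obtain ⟨d, hd⟩ : ∃ d, d = (Δ + 1) ^ R := ⟨_, rfl⟩
  have hd1 : 1 ≤ d := by
    rw [hd]
    exact Nat.one_le_pow _ _ (Nat.succ_pos _)
  have hP0 : (0 : ℝ) < ((d + 1 : ℕ) : ℝ) * ((d + 1 : ℕ) : ℝ) := by positivity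
  have hκ' : 0 < κ / (((d + 1 : ℕ) : ℝ) * ((d + 1 : ℕ) : ℝ)) := div_pos hκ hP0
  obtain ⟨K', Δ', θ', n1, hK', hΔ', hθ', hθm', H⟩ :=
    classes hQ (d + 1) hK hΔ hθ hθm hκ' (d + 1) le_rfl
  obtain ⟨n2, hn2⟩ := exists_nat_gt (((d + 1 : ℕ) : ℝ) / κ)
  refine ⟨K', Δ', θ', max n1 n2, hK', hΔ', hθ', hθm', ?_⟩
  intro n hn h hInv j C hcard hdis hSep
  have hnn1 : n1 ≤ n := le_trans (le_max_left _ _) hn
  have hnn2 : n2 ≤ n := le_trans (le_max_right _ _) hn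
  have hbig : ((d + 1 : ℕ) : ℝ) < κ * n := by
    have h1 : ((d + 1 : ℕ) : ℝ) / κ < n := lt_of_lt_of_le hn2 (by exact_mod_cast hnn2)
    rw [div_lt_iff₀ hκ] at h1
    linarith
  have hM : d + 1 < C.card := by
    have : ((d + 1 : ℕ) : ℝ) < (C.card : ℝ) := lt_of_lt_of_le hbig hcard
    exact_mod_cast this
  obtain ⟨c, hc⟩ : ∃ c : Fin n → Fin n → Prop, ∀ x y, c x y ↔
      (x ≠ y ∧ ∃ t ≤ R, Rch (gr h) t (Vt.x x) (Vt.x y)) := ⟨_, fun _ _ => Iff.rfl⟩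
  obtain ⟨f, hf1, hf2⟩ := colour C c
    (fun x y hxy => (hc y x).2 ⟨((hc x y).1 hxy).1.symm, by
      obtain ⟨t, ht, hr'⟩ := ((hc x y).1 hxy).2
      exact ⟨t, ht, rch_symm hr'⟩⟩)
    (fun x hx => ((hc x x).1 hx).1 rfl) hd1
    (by
      intro x _
      have hb := ball_card (gr h) Δ (gr_deg h hInv.i1 hΔ) R (Vt.x x)
      rw [← hd] at hb
      refine le_trans ?_ hb
      apply Finset.card_le_card_of_injOn (fun y => Vt.x y)
      · intro y hy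
        have hy' := (hc x y).1 (Finset.mem_filter.1 (Finset.mem_coe.1 hy)).2
        apply Finset.mem_coe.2
        exact Finset.mem_filter.2 ⟨Finset.mem_univ _, hy'.2⟩
      · intro a _ b _ hab
        simpa using hab)
    hM
  have hcl : ∀ i : Fin (d + 1), κ / (((d + 1 : ℕ) : ℝ) * ((d + 1 : ℕ) : ℝ)) * n ≤
      ((C.filter (fun x => f x = i)).card : ℝ) := by
    intro i
    have h1 : (C.card : ℝ) ≤ ((d + 1 : ℕ) : ℝ) * ((d + 1 : ℕ) : ℝ) *
        ((C.filter (fun x => f x = i)).card : ℝ) := by exact_mod_cast hf2 i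
    have h2 := le_trans hcard h1
    rw [div_mul_eq_mul_div, div_le_iff₀ hP0]
    linarith
  have hsp : ∀ i : Fin (d + 1), Sep h (2 * ρ + 4) (C.filter (fun x => f x = i)) := by
    intro i a ha b hb hab t ht hr'
    have ha' := Finset.mem_filter.1 ha
    have hb' := Finset.mem_filter.1 hb
    exact hf1 a ha'.1 b hb'.1 ((hc a b).2 ⟨hab, t, by rw [hR]; exact ht, hr'⟩) (by rw [ha'.2, hb'.2])
  obtain ⟨h', hE, hI⟩ := H n hnn1 h hInv j C hdis hSep f hcl hsp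
  refine ⟨h', ?_, hI⟩
  have hall : C.filter (fun x => (f x : ℕ) < d + 1) = C := by
    apply Finset.filter_true_of_mem
    intro x _
    exact (f x).2
  rw [hall] at hE
  exact hE

end Pool.Agent.H5.CHD
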