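import Pool.Agent.H5.CHD.Defs

namespace Pool.Agent.H5.CHD

open Finset
open scoped Classical

variable {V : Type*} {G : SimpleGraph V}

theorem rch_add {t t' : ℕ} {u v w : V} (h : Rch G t u v) (h' : Rch G t' v w) :
    Rch G (t + t') u w := by
  induction t' generalizing w with
  | zero =>
    have hvw : v = w := h'
    subst hvw
    exact h
  | succ t' ih =>
    obtain ⟨z, hz, ha⟩ := h'
    exact ⟨z, ih hz, ha⟩

theorem rch_symm {t : ℕ} {u v : V} (h : Rch G t u v) : Rch G t v u := by
  induction t generalizing v with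
  | zero =>
    have huv : u = v := h
    exact huv.symm
  | succ t ih =>
    obtain ⟨z, hz, ha⟩ := h
    have h1 : Rch G 1 v z := ⟨v, rfl, ha.symm⟩
    have h2 := rch_add h1 (ih hz)
    rw [Nat.add_comm 1 t] at h2
    exact h2

theorem rch_split {t t' : ℕ} {u w : V} (h : Rch G (t + t') u w) :
    ∃ v, Rch G t u v ∧ Rch G t' v w := by
  induction t' generalizing w with
  | zero => exact ⟨w, h, rfl⟩
  | succ t' ih =>
    obtain ⟨z, hz, ha⟩ := h
    obtain ⟨v, hv1, hv2⟩ := ih hz
    exact ⟨v, hv1, z, hv2, ha⟩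

theorem rch_mono {G' : SimpleGraph V} (hle : G ≤ G') {t : ℕ} {u v : V} (h : Rch G t u v) :
    Rch G' t u v := by
  induction t generalizing v with
  | zero => exact h
  | succ t ih =>
    obtain ⟨z, hz, ha⟩ := h
    exact ⟨z, ih hz, hle ha⟩

end Pool.Agent.H5.CHD
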