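import Pool.Agent.H5.CHD.StripDef

namespace Pool.Agent.H5.CHD

open Finset
open scoped Classical

variable {n : ℕ}

theorem strip1_hal {h h' : St n} {A : Finset (Ar n)} (hE : Ext h h' A) {p q : Vt n}
    (hpq : hal h' p q) (hp : ¬ isA A p) : hal h p q ∧ ¬ isN h h' p ∧ ¬ isN h h' q := by
  cases p with
  | x i => cases q <;> exact absurd hpq (by simp [hal])
  | y i t => cases q <;> exact absurd hpq (by simp [hal])
  | b a =>
    have haA : a ∉ A := fun ha => hp ⟨a, ha, rfl⟩
    have hNb : ¬ isN h h' (Vt.b a) := by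
      rintro ⟨i, t, hw, _⟩
      cases hw
    cases q with
    | b a' => exact absurd hpq (by simp [hal])
    | x i =>
      refine ⟨hpq, hNb, ?_⟩
      rintro ⟨i', t, hw, _⟩
      cases hw
    | y i t =>
      have h1 : a ∈ h'.dom ∧ h'.f a i = t := hpq
      have h2 : a ∈ h.dom := by
        have h3 := h1.1
        rw [hE.dom, mem_union] at h3
        exact h3.resolve_right haA
      have h4 : h.f a i = t := by
        rw [← hE.old a h2]
        exact h1.2
      refine ⟨⟨h2, h4⟩, hNb, ?_⟩
      rintro ⟨i', t', hw, hempty, _⟩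
      injection hw with hi ht
      subst hi
      subst ht
      have h5 : a ∈ fib h i t := by
        unfold fib
        rw [mem_filter]
        exact ⟨h2, h4⟩
      rw [hempty] at h5
      exact absurd h5 (notMem_empty a)

theorem strip1_adj {h h' : St n} {A : Finset (Ar n)} (hE : Ext h h' A) {p q : Vt n}
    (hpq : (gr h').Adj p q) (hp : ¬ isA A p) (hq : ¬ isA A q) :
    (gr h).Adj p q ∧ ¬ isN h h' p ∧ ¬ isN h h' q := by
  rcases hpq with h1 | h1
  · obtain ⟨h2, h3, h4⟩ := strip1_hal hE h1 hp
    exact ⟨Or.inl h2, h3, h4⟩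
  · obtain ⟨h2, h3, h4⟩ := strip1_hal hE h1 hq
    exact ⟨Or.inr h2, h4, h3⟩

theorem strip1_not_both {h' : St n} {A : Finset (Ar n)} {p q : Vt n}
    (hpq : (gr h').Adj p q) (hp : isA A p) : ¬ isA A q := by
  rintro ⟨a', _, rfl⟩
  obtain ⟨a, _, rfl⟩ := hp
  rcases hpq with h1 | h1
  · exact absurd h1 (by simp [hal])
  · exact absurd h1 (by simp [hal])

/-- the kept part is a linear forest of `gr h` -/
theorem lf_strip {h h' : St n} {A : Finset (Ar n)} (hE : Ext h h' A) {v : ℤ → Vt n}
    {I U : Finset ℤ} (hF : LF h' v I U) : LF h v (Io h h' A v I) (Uo h h' A v U) := by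
  refine ⟨?_, ?_, ?_, ?_⟩
  · intro a ha b hb hab
    have ha' : a ∈ I := (mem_filter.1 (mem_coe.1 ha)).1
    have hb' : b ∈ I := (mem_filter.1 (mem_coe.1 hb)).1
    exact hF.inj (mem_coe.2 ha') (mem_coe.2 hb') hab
  · intro i hi
    unfold Uo at hi
    rw [mem_filter] at hi
    unfold Io
    rw [mem_filter]
    exact ⟨hF.sub hi.1, hi.2.1⟩
  · intro i hi
    unfold Uo at hi
    rw [mem_filter] at hi
    unfold Io
    rw [mem_filter]
    exact ⟨hF.succ i hi.1, hi.2.2⟩
  · intro i hi
    unfold Uo at hi
    rw [mem_filter] at hi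
    exact (strip1_adj hE (hF.adj i hi.1) hi.2.1.1 hi.2.2.1).1

/-- (F1) -/
theorem card_I (h h' : St n) (A : Finset (Ar n)) (v : ℤ → Vt n) (I : Finset ℤ) :
    I.card = (Io h h' A v I).card + (IA A v I).card + (IY h h' v I).card := by
  have hdis : ∀ w : Vt n, isA A w → ¬ isN h h' w := by
    rintro w ⟨a, _, rfl⟩ ⟨i, t, hw, _⟩
    cases hw
  have h1 : (I.filter (fun i => isA A (v i))).card + (I.filter (fun i => ¬ isA A (v i))).card
      = I.card := card_filter_add_card_filter_not _
  have h2 : ((I.filter (fun i => ¬ isA A (v i))).filter (fun i => isN h h' (v i))).card +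
      ((I.filter (fun i => ¬ isA A (v i))).filter (fun i => ¬ isN h h' (v i))).card
      = (I.filter (fun i => ¬ isA A (v i))).card := card_filter_add_card_filter_not _
  have h3 : (I.filter (fun i => ¬ isA A (v i))).filter (fun i => isN h h' (v i)) = IY h h' v I := by
    unfold IY
    rw [filter_filter]
    apply filter_congr
    intro i _
    constructor
    · exact fun hh => hh.2
    · exact fun hh => ⟨fun hA => hdis _ hA hh, hh⟩
  have h4 : (I.filter (fun i => ¬ isA A (v i))).filter (fun i => ¬ isN h h' (v i))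
      = Io h h' A v I := by
    unfold Io
    rw [filter_filter]
  rw [h3, h4] at h2
  have h5 : IA A v I = I.filter (fun i => isA A (v i)) := rfl
  rw [h5]
  omega

/-- (F2) -/
theorem card_U {h h' : St n} {A : Finset (Ar n)} (hE : Ext h h' A) {v : ℤ → Vt n}
    {I U : Finset ℤ} (hF : LF h' v I U) :
    (U.card : ℤ) = (Uo h h' A v U).card + ∑ i ∈ IA A v I, dg U i := by
  have hs1 : ∑ i ∈ IA A v I, (if i ∈ U then (1 : ℤ) else 0)
      = (U.filter (fun i => isA A (v i))).card := by
    rw [Finset.sum_ite, Finset.sum_const_zero, add_zero, Finset.sum_const, nsmul_eq_mul, mul_one]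
    congr 2
    ext i
    unfold IA
    simp only [mem_filter]
    constructor
    · rintro ⟨⟨_, h2⟩, h3⟩
      exact ⟨h3, h2⟩
    · rintro ⟨h1, h2⟩
      exact ⟨⟨hF.sub h1, h2⟩, h1⟩
  have hs2 : ∑ i ∈ IA A v I, (if i - 1 ∈ U then (1 : ℤ) else 0)
      = (U.filter (fun i => isA A (v (i + 1)))).card := by
    rw [Finset.sum_ite, Finset.sum_const_zero, add_zero, Finset.sum_const, nsmul_eq_mul, mul_one]
    congr 1
    apply card_bij (fun i _ => i - 1)
    · intro i hi
      unfold IA at hi
      simp only [mem_filter] at hi ⊢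
      refine ⟨hi.2, ?_⟩
      rw [sub_add_cancel]
      exact hi.1.2
    · intro a _ b _ hab
      exact sub_left_injective hab
    · intro j hj
      simp only [mem_filter] at hj
      refine ⟨j + 1, ?_, by ring⟩
      unfold IA
      simp only [mem_filter]
      rw [add_sub_cancel_right]
      exact ⟨⟨hF.succ j hj.1, hj.2⟩, hj.1⟩
  have hs : ∑ i ∈ IA A v I, dg U i = ((U.filter (fun i => isA A (v i))).card : ℤ)
      + (U.filter (fun i => isA A (v (i + 1)))).card := by
    unfold dg
    rw [sum_add_distrib, hs1, hs2]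
  rw [hs]
  have e1 : (U.filter (fun i => isA A (v i))).card + (U.filter (fun i => ¬ isA A (v i))).card
      = U.card := card_filter_add_card_filter_not _
  have e2 : ((U.filter (fun i => ¬ isA A (v i))).filter (fun i => isA A (v (i + 1)))).card +
      ((U.filter (fun i => ¬ isA A (v i))).filter (fun i => ¬ isA A (v (i + 1)))).card
      = (U.filter (fun i => ¬ isA A (v i))).card := card_filter_add_card_filter_not _
  have e3 : (U.filter (fun i => ¬ isA A (v i))).filter (fun i => isA A (v (i + 1)))
      = U.filter (fun i => isA A (v (i + 1))) := by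
    rw [filter_filter]
    apply filter_congr
    intro i hi
    constructor
    · exact fun hh => hh.2
    · exact fun hh => ⟨strip1_not_both (hF.adj i hi).symm hh, hh⟩
  have e4 : (U.filter (fun i => ¬ isA A (v i))).filter (fun i => ¬ isA A (v (i + 1)))
      = Uo h h' A v U := by
    unfold Uo
    rw [filter_filter]
    apply filter_congr
    intro i hi
    constructor
    · rintro ⟨h1, h2⟩
      have h3 := strip1_adj hE (hF.adj i hi) h1 h2
      exact ⟨⟨h1, h3.2.1⟩, h2, h3.2.2⟩
    · rintro ⟨⟨h1, _⟩, h2, _⟩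
      exact ⟨h1, h2⟩
  rw [e3, e4] at e2
  have : U.card = (Uo h h' A v U).card + ((U.filter (fun i => isA A (v i))).card
      + (U.filter (fun i => isA A (v (i + 1)))).card) := by omega
  rw [this]
  push_cast
  ring

end Pool.Agent.H5.CHD
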