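import Pool.Agent.H5.CHD.Defs

namespace Pool.Agent.H5.CHD

open Finset
open scoped Classical

variable {n : ℕ}

/-- `w` is an arm of `A` -/
def isA (A : Finset (Ar n)) (w : Vt n) : Prop := ∃ a ∈ A, w = Vt.b a

/-- `w` is a new hub: not used in `h`, used in `h'` -/
def isN (h h' : St n) (w : Vt n) : Prop :=
  ∃ i t, w = Vt.y i t ∧ fib h i t = ∅ ∧ (fib h' i t).Nonempty

/-- positions of the forest which are kept -/
noncomputable def Io (h h' : St n) (A : Finset (Ar n)) (v : ℤ → Vt n) (I : Finset ℤ) : Finset ℤ :=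
  I.filter (fun i => ¬ isA A (v i) ∧ ¬ isN h h' (v i))

/-- used edges which are kept -/
noncomputable def Uo (h h' : St n) (A : Finset (Ar n)) (v : ℤ → Vt n) (U : Finset ℤ) : Finset ℤ :=
  U.filter (fun i => (¬ isA A (v i) ∧ ¬ isN h h' (v i)) ∧
    (¬ isA A (v (i + 1)) ∧ ¬ isN h h' (v (i + 1))))

/-- positions of the arms of `A` -/
noncomputable def IA (A : Finset (Ar n)) (v : ℤ → Vt n) (I : Finset ℤ) : Finset ℤ :=
  I.filter (fun i => isA A (v i))

/-- positions of the new hubs -/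
noncomputable def IY (h h' : St n) (v : ℤ → Vt n) (I : Finset ℤ) : Finset ℤ :=
  I.filter (fun i => isN h h' (v i))

/-- used edges from the position `i` to centres -/
noncomputable def ux (v : ℤ → Vt n) (U : Finset ℤ) (i : ℤ) : ℤ :=
  (if i ∈ U ∧ isX (v (i + 1)) then 1 else 0) + (if i - 1 ∈ U ∧ isX (v (i - 1)) then 1 else 0)

/-- used edges from the position `i` to vertices which are not centres -/
noncomputable def uy (v : ℤ → Vt n) (U : Finset ℤ) (i : ℤ) : ℤ :=
  (if i ∈ U ∧ ¬ isX (v (i + 1)) then 1 else 0) + (if i - 1 ∈ U ∧ ¬ isX (v (i - 1)) then 1 else 0)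

theorem dg_eq (v : ℤ → Vt n) (U : Finset ℤ) (i : ℤ) : dg U i = ux v U i + uy v U i := by
  unfold dg ux uy
  by_cases h1 : i ∈ U <;> by_cases h2 : isX (v (i + 1)) <;> by_cases h3 : i - 1 ∈ U <;>
    by_cases h4 : isX (v (i - 1)) <;> simp [h1, h2, h3, h4]

/-- number of arms of `A` in the set together with their centre -/
noncomputable def MM (A : Finset (Ar n)) (S : Finset (Vt n)) : ℕ :=
  (A.filter (fun a => Vt.b a ∈ S ∧ Vt.x a.1 ∈ S)).card

/-- positions of the centres in `C` -/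
noncomputable def IX (C : Finset (Fin n)) (v : ℤ → Vt n) (I : Finset ℤ) : Finset ℤ :=
  I.filter (fun i => ∃ c ∈ C, v i = Vt.x c)

end Pool.Agent.H5.CHD
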